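import Pool.Agent.NH7.BK.Stms
import Pool.Agent.NH7.GU.BbP

/-! # The cocycles `(ζ^χ ρ - 1) t / (ζ - 1)` (A1) -/

set_option autoImplicit false
set_option linter.unusedSectionVars false

namespace Pool.Agent.NH7.BK

open Filter Topology
open Pool.Agent.NH7.GU (Cyc Chr bb_nhds bb_zpow_add bb_dvd_p)

section bt

variable {p : ℕ} [hp : Fact p.Prime] {G : Type} [Group G] [TopologicalSpace G] {d : Pl G} {N : ℕ}
  {O : Type} [CommRing O] [Algebra ℤ_[p] O]

theorem bt_mO_mul (R : Rp p d N) (g h : G) : R.mO O (g * h) = R.mO O g * R.mO O h := by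
  unfold Rp.mO
  rw [map_mul]
  exact Matrix.map_mul

theorem bt_mO_one (R : Rp p d N) (g : G) (h : R.ρ g = 1) : R.mO O g = 1 := by
  unfold Rp.mO
  rw [h]
  exact Matrix.map_one _ (map_zero _) (map_one _)

theorem bt_cancel (C : Cyc p O) {x y : Fin N → O} (h : (C.z - 1) • x = (C.z - 1) • y) : x = y := by
  funext i
  have h1 : (C.z - 1) * x i = (C.z - 1) * y i := congrFun h i
  have := C.inj (x i - y i) (by rw [mul_sub, h1, sub_self])
  exact sub_eq_zero.1 this

theorem bt_apply (R : Rp p d N) (t : Fin N → O) (g : G) (i : Fin N) :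
    (R.mO O g).mulVec t i = ∑ j, algebraMap ℤ_[p] O (R.ρ g i j) * t j := rfl

theorem bt_dvd (C : Cyc p O) (R : Rp p d N) (hp2 : p ≠ 2) (t : Fin N → O) (g : G) (i : Fin N) :
    (C.z - 1) ^ 2 ∣ (R.mO O g).mulVec t i - t i := by
  have e : (R.mO O g).mulVec t i - t i =
      ∑ j, algebraMap ℤ_[p] O ((R.ρ g - 1) i j) * t j := by
    have h1 : t i = ∑ j, (if i = j then (1 : O) else 0) * t j := by
      simp
    rw [bt_apply]
    conv_lhs => rw [h1]
    rw [← Finset.sum_sub_distrib]
    refine Finset.sum_congr rfl fun j _ => ?_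
    rw [Matrix.sub_apply, map_sub, Matrix.one_apply]
    split_ifs
    · rw [map_one]; ring
    · rw [map_zero]; ring
  rw [e]
  refine Finset.dvd_sum fun j _ => Dvd.dvd.mul_right ?_ _
  exact C.sq _ (R.one g i j) (fun h => absurd h hp2)

end bt

/-- (A1) -/
theorem s_bt : S_bt := by
  intro p _ O _ _ C G _ _ _ d c N R t hp2
  choose s hs using bt_dvd C R hp2 t
  let b : G → Fin N → O := fun g i => (∑ k ∈ Finset.range (c.χ g).val, C.z ^ k) *
    (R.mO O g).mulVec t i + (C.z - 1) * s g i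
  have hb' : ∀ g i, (C.z - 1) * b g i = C.z ^ (c.χ g).val * (R.mO O g).mulVec t i - t i := by
    intro g i
    have h1 : (C.z - 1) * ∑ k ∈ Finset.range (c.χ g).val, C.z ^ k = C.z ^ (c.χ g).val - 1 :=
      mul_geom_sum C.z _
    have h2 := hs g i
    change (C.z - 1) * ((∑ k ∈ Finset.range (c.χ g).val, C.z ^ k) *
      (R.mO O g).mulVec t i + (C.z - 1) * s g i) = _
    linear_combination (R.mO O g).mulVec t i * h1 - h2
  have hb : ∀ g, (C.z - 1) • b g = C.z ^ (c.χ g).val • (R.mO O g).mulVec t - t := by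
    intro g
    funext i
    exact hb' g i
  have hev : ∀ g j, C.ev (b g j) = c.χ g * C.ev (t j) := by
    intro g i
    change C.ev ((∑ k ∈ Finset.range (c.χ g).val, C.z ^ k) *
      (R.mO O g).mulVec t i + (C.z - 1) * s g i) = _
    have h1 : C.ev ((R.mO O g).mulVec t i) = C.ev (t i) := by
      have h2 := congrArg C.ev (hs g i)
      rw [map_sub, map_mul, map_pow, map_sub, map_one, C.ev_z, sub_self, zero_pow two_ne_zero,
        zero_mul] at h2
      exact sub_eq_zero.1 h2
    rw [map_add, map_mul, map_mul, map_sub, map_one, C.ev_z, sub_self, zero_mul, add_zero, h1,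
      map_sum]
    simp only [map_pow, C.ev_z, one_pow, Finset.sum_const, Finset.card_range, nsmul_eq_mul, mul_one]
    rw [ZMod.natCast_zmod_val]
  refine ⟨b, hb, hev, ?_, ?_, ?_, ?_⟩
  · intro n g
    have h1 : ∀ᶠ h in 𝓝 g, c.χ h = c.χ g :=
      c.c.continuousAt.eventually ((isOpen_discrete {c.χ g}).mem_nhds rfl)
    have h2 : ∀ᶠ h in 𝓝 g, ∀ i j, (p : ℤ_[p]) ^ (n + 1) ∣ R.ρ h i j - R.ρ g i j := by
      rw [eventually_all]
      intro i
      rw [eventually_all]
      intro j
      have hc : Continuous fun h => R.ρ h i j :=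
        (continuous_apply j).comp ((continuous_apply i).comp R.cont)
      exact hc.continuousAt.eventually (bb_nhds (R.ρ g i j) (n + 1))
    filter_upwards [h1, h2] with h hh1 hh2
    intro i
    have h3 : (C.z - 1) ^ (n + 1) ∣ (R.mO O h).mulVec t i - (R.mO O g).mulVec t i := by
      have e : (R.mO O h).mulVec t i - (R.mO O g).mulVec t i =
          ∑ j, algebraMap ℤ_[p] O (R.ρ h i j - R.ρ g i j) * t j := by
        rw [bt_apply, bt_apply, ← Finset.sum_sub_distrib]
        refine Finset.sum_congr rfl fun j _ => ?_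
        rw [map_sub]
        ring
      rw [e]
      exact Finset.dvd_sum fun j _ => Dvd.dvd.mul_right (bb_dvd_p C (n + 1) _ (hh2 i j)) _
    obtain ⟨y, hy⟩ := h3
    refine ⟨C.z ^ (c.χ g).val * y, ?_⟩
    have h4 := C.inj (b h i - b g i - (C.z - 1) ^ n * (C.z ^ (c.χ g).val * y)) (by
      have e1 := hb' h i
      have e2 := hb' g i
      rw [hh1] at e1
      linear_combination e1 - e2 + C.z ^ (c.χ g).val * hy)
    exact sub_eq_zero.1 h4
  · intro g h
    apply bt_cancel C
    have e3 : (C.z - 1) • (R.mO O g).mulVec (b h) = (R.mO O g).mulVec ((C.z - 1) • b h) :=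
      (Matrix.mulVec_smul _ _ _).symm
    rw [smul_add, hb, hb, c.m, bb_zpow_add, bt_mO_mul, smul_comm (C.z - 1), e3,
      hb h, Matrix.mulVec_sub, Matrix.mulVec_smul, Matrix.mulVec_mulVec, smul_sub, mul_smul]
    abel
  · intro i g hg hχ
    apply bt_cancel C
    rw [hb, hχ, ZMod.val_zero, pow_zero, one_smul, bt_mO_one R g (R.triv i g hg), Matrix.one_mulVec,
      sub_self, smul_zero]
  · intro k
    refine ⟨1, t, fun g hg hχ => ?_⟩
    rw [pow_one, hb, hχ, ZMod.val_zero, pow_zero, one_smul]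

end Pool.Agent.NH7.BK
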