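import Pool.Agent.NH7.BK.Stms
import Pool.Agent.NH7.GU.ClsP

/-!
# Project BK7, C3: finite sets of primes which generate the class group, disjoint from `U`
-/

set_option autoImplicit false
set_option linter.unusedSectionVars false

namespace Pool.Agent.NH7.BK

open NumberField IsDedekindDomain Pool.Agent.W401.Cheb Pool.Agent.NH7.Sch Filter Topology
open Pool.Agent.NH7.GU (HS)
open scoped nonZeroDivisors

namespace ClsP

open Pool.Agent.NH7.GU.ClsP (pow_dvd_iff)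

/-- every class contains an integral ideal prime to a given ideal -/
theorem cop_rep {R : Type} [CommRing R] [IsDedekindDomain R] (P : Ideal R) (hP : P ≠ 0)
    (c : ClassGroup R) : ∃ J : (Ideal R)⁰, ClassGroup.mk0 J = c ∧ (J : Ideal R) ⊔ P = ⊤ := by
  by_cases hP1 : P = ⊤
  · obtain ⟨J, hJ⟩ := ClassGroup.mk0_surjective c
    exact ⟨J, hJ, by rw [hP1, sup_top_eq]⟩
  obtain ⟨I, hI⟩ := ClassGroup.mk0_surjective c⁻¹
  have hI0 : (I : Ideal R) ≠ 0 := nonZeroDivisors.coe_ne_zero I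
  obtain ⟨a, ha⟩ := IsDedekindDomain.exists_sup_span_eq (I := (I : Ideal R) * P) (J := I)
    Ideal.mul_le_left (mul_ne_zero hI0 hP)
  have ha0 : a ≠ 0 := by
    rintro rfl
    rw [Ideal.span_singleton_eq_bot.2 rfl, sup_bot_eq] at ha
    have h1 : (I : Ideal R) * P = I * 1 := by rw [ha, mul_one]
    have h2 := mul_left_cancel₀ hI0 h1
    exact hP1 (h2.trans Ideal.one_eq_top)
  have hle : Ideal.span {a} ≤ (I : Ideal R) := by
    conv_rhs => rw [← ha]
    exact le_sup_right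
  obtain ⟨J, hJ⟩ := Ideal.dvd_iff_le.2 hle
  have hJ0 : J ≠ 0 := by
    rintro rfl
    rw [mul_zero] at hJ
    exact ha0 (Ideal.span_singleton_eq_bot.1 hJ)
  refine ⟨⟨J, mem_nonZeroDivisors_of_ne_zero hJ0⟩, ?_, ?_⟩
  · have h1 : ClassGroup.mk0 I * ClassGroup.mk0 ⟨J, mem_nonZeroDivisors_of_ne_zero hJ0⟩ = 1 := by
      rw [← map_mul]
      have h2 : I * ⟨J, mem_nonZeroDivisors_of_ne_zero hJ0⟩ =
          ⟨Ideal.span {a}, mem_nonZeroDivisors_of_ne_zero
            (fun h => ha0 (Ideal.span_singleton_eq_bot.1 h))⟩ := Subtype.ext hJ.symm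
      rw [h2, ClassGroup.mk0_eq_one_iff]
      exact ⟨⟨a, rfl⟩⟩
    rw [hI] at h1
    exact (inv_mul_eq_one.1 h1).symm
  · have h1 : (I : Ideal R) * (P ⊔ J) = I * 1 := by
      rw [Ideal.mul_sup, ← hJ, ha, mul_one]
    have h2 := mul_left_cancel₀ hI0 h1
    show J ⊔ P = ⊤
    rw [sup_comm, h2, Ideal.one_eq_top]

variable {K : Type} [Field K] [NumberField K]

theorem cop_ideal (u : HS K) (J : Ideal (𝓞 K)) (h : ¬ u.asIdeal ∣ J) (n : ℕ) :
    IsCoprime (u.asIdeal ^ n) J := by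
  apply IsCoprime.pow_left
  rw [Ideal.isCoprime_iff_sup_eq]
  have hu : u.asIdeal.IsMaximal := u.isPrime.isMaximal u.ne_bot
  refine hu.out.2 _ (lt_of_le_of_ne le_sup_left fun h' => h ?_)
  rw [Ideal.dvd_iff_le, h']
  exact le_sup_right

/-- the relation between the orders -/
theorem od_relJ {v : HS K} {J : Ideal (𝓞 K)} {x y : 𝓞 K} (hx : x ≠ 0) (hy : y ≠ 0)
    (h : Ideal.span {x} * v.asIdeal = Ideal.span {y} * J) (u : HS K) (hu : ¬ u.asIdeal ∣ J) :
    (Finsupp.single v 1 : HS K →₀ ℤ) u = od u (ui x hx * (ui y hy)⁻¹) := by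
  rw [od_mul, od_inv]
  have hx0 := od_ui_le u x hx
  have hy0 := od_ui_le u y hy
  have h1 : ∀ n : ℕ, od u (ui y hy) ≤ -n ↔ u.asIdeal ^ n ∣ Ideal.span {x} * v.asIdeal := by
    intro n
    rw [h, ← pow_dvd_iff]
    constructor
    · exact fun h2 => h2.mul_right _
    · exact fun h2 => (cop_ideal u J hu n).dvd_of_dvd_mul_right h2
  by_cases huv : v = u
  · subst huv
    rw [Finsupp.single_eq_same]
    have h2 : ∀ n : ℕ, od v (ui y hy) ≤ -((n + 1 : ℕ) : ℤ) ↔ od v (ui x hx) ≤ -n := by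
      intro n
      rw [h1, ← pow_dvd_iff, pow_succ]
      exact mul_dvd_mul_iff_right v.ne_bot
    obtain ⟨a, ha⟩ := Int.eq_ofNat_of_zero_le (show 0 ≤ -od v (ui x hx) by omega)
    have h3 := h2 a
    have h4 := h2 (a + 1)
    push_cast at h3 h4
    omega
  · rw [Finsupp.single_eq_of_ne (by exact fun h => huv h.symm)]
    have h2 : ∀ n : ℕ, od u (ui y hy) ≤ -n ↔ od u (ui x hx) ≤ -n := by
      intro n
      rw [h1, ← pow_dvd_iff]
      constructor
      · exact fun h2 => (Pool.Agent.NH7.GU.ClsP.cop (fun h => huv h.symm) n).dvd_of_dvd_mul_right h2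
      · exact fun h2 => h2.mul_right _
    obtain ⟨a, ha⟩ := Int.eq_ofNat_of_zero_le (show 0 ≤ -od u (ui x hx) by omega)
    obtain ⟨b, hb⟩ := Int.eq_ofNat_of_zero_le (show 0 ≤ -od u (ui y hy) by omega)
    have h3 := h2 a
    have h4 := h2 b
    omega

end ClsP

open ClsP in
/-- C3. -/
theorem s_cls : S_cls := by
  intro K _ _ T U hTU
  classical
  have hv0 : ∀ v : HS K, v.asIdeal ∈ (Ideal (𝓞 K))⁰ := fun v =>
    mem_nonZeroDivisors_of_ne_zero v.ne_bot
  have hP : (∏ u ∈ U, u.asIdeal) ≠ 0 := Finset.prod_ne_zero_iff.2 fun u _ => u.ne_bot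
  choose J hJ1 hJ2 using cop_rep (∏ u ∈ U, u.asIdeal) hP
  have hfin : ∀ c, {v : HS K | v.asIdeal ∣ (J c : Ideal (𝓞 K))}.Finite := fun c =>
    Ideal.finite_factors (nonZeroDivisors.coe_ne_zero (J c))
  let T' : Finset (HS K) := T ∪ (Finset.univ : Finset (ClassGroup (𝓞 K))).biUnion
    fun c => (hfin c).toFinset
  have hT' : ∀ (c : ClassGroup (𝓞 K)) (u : HS K), u ∉ T' → ¬ u.asIdeal ∣ (J c : Ideal (𝓞 K)) := by
    intro c u hu h
    apply hu
    apply Finset.mem_union_right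
    rw [Finset.mem_biUnion]
    exact ⟨c, Finset.mem_univ _, (Set.Finite.mem_toFinset _).2 h⟩
  have hdis : Disjoint T' U := by
    rw [Finset.disjoint_left]
    intro v hv hvU
    rcases Finset.mem_union.1 hv with h | h
    · exact Finset.disjoint_left.1 hTU h hvU
    · rw [Finset.mem_biUnion] at h
      obtain ⟨c, _, hc⟩ := h
      have hc' : v ∈ {v : HS K | v.asIdeal ∣ (J c : Ideal (𝓞 K))} :=
        (Set.Finite.mem_toFinset (hfin c)).1 hc
      have h2 : v.asIdeal ∣ ∏ u ∈ U, u.asIdeal := Finset.dvd_prod_of_mem _ hvU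
      have h3 : (J c : Ideal (𝓞 K)) ⊔ ∏ u ∈ U, u.asIdeal ≤ v.asIdeal :=
        sup_le (Ideal.dvd_iff_le.1 (show v.asIdeal ∣ (J c : Ideal (𝓞 K)) from hc'))
          (Ideal.dvd_iff_le.1 h2)
      rw [hJ2 c, top_le_iff] at h3
      exact v.isPrime.ne_top h3
  have key : ∀ v : HS K, ∃ κ : Kˣ, ∀ u ∉ T', (Finsupp.single v 1 : HS K →₀ ℤ) u = od u κ := by
    intro v
    obtain ⟨x, y, hx, hy, hxy⟩ := ClassGroup.mk0_eq_mk0_iff.1
      (hJ1 (ClassGroup.mk0 ⟨v.asIdeal, hv0 v⟩)).symm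
    exact ⟨ui x hx * (ui y hy)⁻¹, fun u hu => od_relJ hx hy hxy u (hT' _ u hu)⟩
  refine ⟨T', Finset.subset_union_left, hdis, fun n => ?_⟩
  induction n using Finsupp.induction_linear with
  | zero =>
    refine ⟨1, fun v _ => ?_⟩
    have h : od v (1 : Kˣ) = 0 := by
      have := od_mul v (1 : Kˣ) 1
      rw [one_mul] at this
      omega
    rw [h, Finsupp.zero_apply]
  | add a b ha hb =>
    obtain ⟨x, hx⟩ := ha
    obtain ⟨y, hy⟩ := hb
    exact ⟨x * y, fun v hv => by rw [Finsupp.add_apply, od_mul, hx v hv, hy v hv]⟩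
  | single v m =>
    obtain ⟨κ, hκ⟩ := key v
    refine ⟨κ ^ m, fun u hu => ?_⟩
    rw [od_zpow, ← hκ u hu]
    rw [Finsupp.single_apply, Finsupp.single_apply]
    split_ifs
    · rw [mul_one]
    · rw [mul_zero]

end Pool.Agent.NH7.BK
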