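import Pool.Agent.NH7.BK.Stms

/-!
# Selmer groups of residually trivial representations in cyclic extensions, A9: the comparison
-/

set_option autoImplicit false
set_option linter.unusedSectionVars false

namespace Pool.Agent.NH7.BK

open NumberField IsDedekindDomain Pool.Agent.W401.Cheb Pool.Agent.NH7.Sch Filter Topology
open Pool.Agent.NH7.GU (Cyc Chr HS Qv fr Hm Unr H0 HL Cq cl mem_H0 mem_HL)

namespace Cmp39

variable {p : ℕ} [hp : Fact p.Prime] {G : Type} [Group G] [TopologicalSpace G] {d : Pl G} {N : ℕ}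

/-- the linear map `ρ(g) - 1` -/
noncomputable def L (R : Rp p d N) (g : G) : (Fin N → ℤ_[p]) →ₗ[ℤ_[p]] (Fin N → ℤ_[p]) :=
  (R.ρ g).mulVecLin - LinearMap.id

theorem Lmap_apply (R : Rp p d N) (g : G) (v : Fin N → ℤ_[p]) :
    L R g v = (R.ρ g).mulVec v - v := rfl

theorem toO_apply {O : Type} [CommRing O] [Algebra ℤ_[p] O] (x : Fin N → ℤ_[p]) (j : Fin N) :
    toO O x j = algebraMap ℤ_[p] O (x j) := rfl

theorem mO_toO {O : Type} [CommRing O] [Algebra ℤ_[p] O] (R : Rp p d N) (g : G)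
    (x : Fin N → ℤ_[p]) : (R.mO O g).mulVec (toO O x) = toO O ((R.ρ g).mulVec x) := by
  funext j
  exact (RingHom.map_mulVec (algebraMap ℤ_[p] O) (R.ρ g) x j).symm

theorem SelV.smul {R : Rp p d N} {H : Subgroup G} {f : G → Fin N → ℤ_[p]} (hf : SelV R H f)
    (a : ℤ_[p]) : SelV R H (fun g => a • f g) := by
  refine ⟨⟨?_, ?_⟩, ?_, ?_⟩
  · exact hf.coc.cont.const_smul a
  · intro g hg h hh
    beta_reduce
    rw [hf.coc.mul g hg h hh, smul_add, Matrix.mulVec_smul]
  · intro i g hg hH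
    beta_reduce
    rw [hf.away i g hg hH, smul_zero]
  · intro k
    obtain ⟨m, z, hz⟩ := hf.strict k
    refine ⟨m, a • z, fun g hg hH => ?_⟩
    beta_reduce
    rw [smul_comm, hz g hg hH, smul_sub, Matrix.mulVec_smul]

end Cmp39

open Cmp39

/-- A9. -/
theorem s_cmp (h1 : Pool.Agent.NH7.GU.S_cyc) (h2 : S_crit) (h3 : S_corO) (h4 : S_corZ) : S_cmp := by
  intro p _ G _ _ _ d c hp2 hk hS N R f hf
  obtain ⟨O, _, _, ⟨C⟩⟩ := h1 p
  obtain ⟨FO, hFO, hFk⟩ := h3 p O C G d c N R f hf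
  obtain ⟨t, ht⟩ := h2 p O C G d c N R FO hp2 hk hS hFO
  choose a' ha' using fun j => C.span (t j)
  obtain ⟨a, haa⟩ : ∃ a : ZMod p → Fin N → ℤ_[p], ∀ i j, a i j = a' j i := ⟨_, fun i j => rfl⟩
  have ha : ∀ j, t j = ∑ i, algebraMap ℤ_[p] O (a i j) * C.z ^ i.val := by
    intro j
    rw [ha' j]
    exact Finset.sum_congr rfl fun i _ => by rw [haa]
  obtain ⟨FZ, hFZ, hFZk⟩ := h4 p G d c N R f hf
  obtain ⟨cc, hcc⟩ : ∃ cc : ZMod p → G → Fin N → ℤ_[p], ∀ i g, cc i g =
    (R.ρ (c.σ ^ i.val)).mulVec (f ((c.σ ^ i.val)⁻¹ * g * c.σ ^ i.val)) := ⟨_, fun i g => rfl⟩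
  obtain ⟨A, hA⟩ : ∃ A : Fin N → ℤ_[p], A = ∑ i, a i := ⟨_, rfl⟩
  have hcc0 : ∀ g, cc 0 g = f g := by
    intro g
    rw [hcc, ZMod.val_zero, pow_zero, map_one, Matrix.one_mulVec]
    simp
  -- the shift
  have hz : ∀ i : ZMod p, C.z * C.z ^ i.val = C.z ^ (i + 1).val := by
    intro i
    have e : ((i.val + 1 : ℕ) : ZMod p) = i + 1 := by
      push_cast
      rw [ZMod.natCast_zmod_val]
    rw [← e, ZMod.val_natCast, ← pow_succ', pow_eq_pow_mod _ C.z_pow]
  have hmt : ∀ g j, (R.mO O g).mulVec t j =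
      ∑ i, algebraMap ℤ_[p] O ((R.ρ g).mulVec (a i) j) * C.z ^ i.val := by
    intro g j
    have e1 : t = ∑ i, C.z ^ i.val • toO O (a i) := by
      funext j
      rw [ha, Finset.sum_apply]
      refine Finset.sum_congr rfl fun i _ => ?_
      rw [Pi.smul_apply, toO_apply, smul_eq_mul, mul_comm]
    rw [e1, Matrix.mulVec_sum, Finset.sum_apply]
    refine Finset.sum_congr rfl fun i _ => ?_
    rw [Matrix.mulVec_smul, mO_toO, Pi.smul_apply, toO_apply, smul_eq_mul, mul_comm]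
  have key : ∀ g ∈ c.ker, ∀ i j, cc (i - 1) g - cc i g - L R g (a i) =
      cc (j - 1) g - cc j g - L R g (a j) := by
    intro g hg i i'
    funext j
    refine C.rel (fun i => (cc (i - 1) g - cc i g - L R g (a i)) j) ?_ i i'
    have e1 : FO g j = ∑ i : ZMod p, algebraMap ℤ_[p] O (cc i g j) * C.z ^ i.val := by
      rw [hFk g hg, Finset.sum_apply]
      refine Finset.sum_congr rfl fun i _ => ?_
      rw [Pi.smul_apply, toO_apply, hcc, smul_eq_mul, mul_comm]
    have e2 : C.z * FO g j = ∑ i : ZMod p, algebraMap ℤ_[p] O (cc (i - 1) g j) * C.z ^ i.val := by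
      rw [e1, Finset.mul_sum]
      refine Fintype.sum_equiv (Equiv.addRight (1 : ZMod p)) _ _ fun i => ?_
      show C.z * (algebraMap ℤ_[p] O (cc i g j) * C.z ^ i.val) =
        algebraMap ℤ_[p] O (cc (i + 1 - 1) g j) * C.z ^ (i + 1).val
      rw [← hz, add_sub_cancel_right]
      ring
    have e3 := congrFun (ht g) j
    have hg0 : c.χ g = 0 := hg
    rw [hg0, ZMod.val_zero, pow_zero, one_smul, Pi.smul_apply, Pi.sub_apply, smul_eq_mul] at e3
    have e4 : ∑ i : ZMod p, algebraMap ℤ_[p] O ((cc (i - 1) g - cc i g - L R g (a i)) j) *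
        C.z ^ i.val = C.z * FO g j - FO g j - ((R.mO O g).mulVec t j - t j) := by
      rw [e2, hmt, ha, e1, ← Finset.sum_sub_distrib, ← Finset.sum_sub_distrib,
        ← Finset.sum_sub_distrib]
      refine Finset.sum_congr rfl fun i _ => ?_
      rw [Pi.sub_apply, Pi.sub_apply, Lmap_apply, Pi.sub_apply, map_sub, map_sub, map_sub]
      ring
    rw [e4]
    linear_combination e3
  have hsum : ∀ g, ∑ i : ZMod p, (cc (i - 1) g - cc i g) = 0 := by
    intro g
    rw [Finset.sum_sub_distrib, sub_eq_zero]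
    exact Fintype.sum_equiv (Equiv.subRight (1 : ZMod p)) _ _ fun i => rfl
  have key2 : ∀ g ∈ c.ker, ∀ j, (p : ℤ_[p]) • (cc (j - 1) g - cc j g) =
      L R g ((p : ℤ_[p]) • a j - A) := by
    intro g hg j
    have e1 : ∑ i : ZMod p, (cc (i - 1) g - cc i g - L R g (a i)) =
        (p : ℤ_[p]) • (cc (j - 1) g - cc j g - L R g (a j)) := by
      rw [Finset.sum_congr rfl fun i _ => key g hg i j, Finset.sum_const, Finset.card_univ,
        ZMod.card, ← Nat.cast_smul_eq_nsmul ℤ_[p]]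
    have e2 : ∑ i : ZMod p, (cc (i - 1) g - cc i g - L R g (a i)) = -(L R g A) := by
      rw [Finset.sum_sub_distrib, hsum, hA, map_sum, zero_sub]
    rw [e2, smul_sub] at e1
    rw [map_sub, map_smul]
    have e3 : (p : ℤ_[p]) • (cc (j - 1) g - cc j g) =
      (p : ℤ_[p]) • (cc (j - 1) g - cc j g) - (p : ℤ_[p]) • L R g (a j) +
        (p : ℤ_[p]) • L R g (a j) := by abel
    rw [e3, ← e1]
    abel
  have hB : ∀ n : ℕ, ∃ B : Fin N → ℤ_[p], ∀ g ∈ c.ker,
      (p : ℤ_[p]) • (cc (n : ZMod p) g - cc 0 g) = L R g B := by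
    intro n
    induction n with
    | zero => exact ⟨0, fun g _ => by rw [Nat.cast_zero, sub_self, smul_zero, map_zero]⟩
    | succ n ih =>
      obtain ⟨B, hB⟩ := ih
      refine ⟨B - ((p : ℤ_[p]) • a ((n : ZMod p) + 1) - A), fun g hg => ?_⟩
      have e1 := key2 g hg ((n : ZMod p) + 1)
      rw [add_sub_cancel_right] at e1
      have e2 := hB g hg
      rw [map_sub, ← e1, ← e2, ← smul_sub]
      push_cast
      congr 1
      abel
  choose B hB using hB
  have main : ∀ g ∈ c.ker, (p : ℤ_[p]) • (FZ g - (p : ℤ_[p]) • f g) =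
      L R g (∑ j : ZMod p, B j.val) := by
    intro g hg
    have e1 : FZ g = ∑ j : ZMod p, cc j g := by
      rw [hFZk g hg]
      exact Finset.sum_congr rfl fun j _ => (hcc j g).symm
    have e2 : FZ g - (p : ℤ_[p]) • f g = ∑ j : ZMod p, (cc j g - cc 0 g) := by
      rw [Finset.sum_sub_distrib, ← e1, Finset.sum_const, Finset.card_univ, ZMod.card,
        ← Nat.cast_smul_eq_nsmul ℤ_[p], hcc0]
    rw [e2, Finset.smul_sum, map_sum]
    refine Finset.sum_congr rfl fun j _ => ?_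
    have e3 := hB j.val g hg
    rw [ZMod.natCast_zmod_val] at e3
    exact e3
  refine ⟨fun g => (p : ℤ_[p]) • FZ g, SelV.smul hFZ _, 2, -(∑ j : ZMod p, B j.val), fun g hg => ?_⟩
  have e1 := main g hg
  have e2 : (R.ρ g).mulVec (-(∑ j : ZMod p, B j.val)) - -(∑ j : ZMod p, B j.val) =
      -(L R g (∑ j : ZMod p, B j.val)) := by
    rw [← map_neg, Lmap_apply]
  rw [e2, ← e1, smul_sub, smul_smul, ← pow_two]
  abel

end Pool.Agent.NH7.BK
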