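import Pool.Agent.NH7.BK.Stms

/-!
# Selmer groups of residually trivial representations in cyclic extensions, A7: the twisted
corestriction satisfies the local conditions (helper51)
-/

set_option autoImplicit false
set_option linter.unusedSectionVars false

namespace Pool.Agent.NH7.BK

open NumberField IsDedekindDomain Pool.Agent.W401.Cheb Pool.Agent.NH7.Sch Filter Topology
open Pool.Agent.NH7.GU (Cyc Chr HS Qv fr Hm Unr H0 HL Cq cl mem_H0 mem_HL)

namespace CorOP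

variable {p : ℕ} [hp : Fact p.Prime] {G : Type} [Group G] [TopologicalSpace G]

theorem chi_conj (c : Chr p G) {g : G} (s : G) (hg : c.χ g = 0) : c.χ (s⁻¹ * g * s) = 0 := by
  have h1 : c.χ 1 = 0 := by
    have h := c.m 1 1
    rw [mul_one] at h
    exact left_eq_add.1 h
  have h2 := c.m s⁻¹ s
  rw [inv_mul_cancel, h1] at h2
  rw [c.m, c.m, hg, add_zero, ← h2]

theorem I_conj' (d : Pl G) (i : d.ι) (s g : G) (hg : g ∈ d.I i) :
    ∃ j, s⁻¹ * g * s ∈ d.I j := by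
  obtain ⟨j, hj⟩ := d.I_conj i s⁻¹
  refine ⟨j, ?_⟩
  have h := (hj g).1 hg
  rwa [inv_inv] at h

/-- a power of `z - 1` is divisible by `p` -/
theorem p_dvd {O : Type} [CommRing O] [Algebra ℤ_[p] O] (C : Cyc p O) (m : ℕ) :
    ∃ s : O, (C.z - 1) ^ (p * m) = s * algebraMap ℤ_[p] O ((p : ℤ_[p]) ^ m) := by
  obtain ⟨r, hr⟩ := exists_add_pow_prime_eq hp.out (C.z - 1) 1
  rw [sub_add_cancel, C.z_pow, one_pow] at hr
  have h : (C.z - 1) ^ p = -((C.z - 1) * r) * (p : O) := by linear_combination -hr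
  refine ⟨(-((C.z - 1) * r)) ^ m, ?_⟩
  rw [pow_mul, h, mul_pow, map_pow, map_natCast]

theorem toO_zero {O : Type} [CommRing O] [Algebra ℤ_[p] O] {N : ℕ} :
    toO O (0 : Fin N → ℤ_[p]) = 0 := by
  funext j
  exact map_zero _

theorem toO_sub {O : Type} [CommRing O] [Algebra ℤ_[p] O] {N : ℕ} (x y : Fin N → ℤ_[p]) :
    toO O (x - y) = toO O x - toO O y := by
  funext j
  exact map_sub _ _ _

theorem toO_smul {O : Type} [CommRing O] [Algebra ℤ_[p] O] {N : ℕ} (a : ℤ_[p])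
    (x : Fin N → ℤ_[p]) : toO O (a • x) = algebraMap ℤ_[p] O a • toO O x := by
  funext j
  exact map_mul _ _ _

theorem toO_mulVec {O : Type} [CommRing O] [Algebra ℤ_[p] O] {N : ℕ} {d : Pl G} (R : Rp p d N)
    (g : G) (x : Fin N → ℤ_[p]) : toO O ((R.ρ g).mulVec x) = (R.mO O g).mulVec (toO O x) := by
  funext j
  exact RingHom.map_mulVec (algebraMap ℤ_[p] O) (R.ρ g) x j

end CorOP

open CorOP in
/-- A7. -/
theorem s_corO (hc : S_cor) : S_corO := by
  intro p _ O _ _ C G _ _ _ d c N R f hf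
  obtain ⟨F, h1, h2, h3⟩ := hc p O C.z C.z_pow G d c N R f hf.coc
  have hz : (C.z - 1) ∣ algebraMap ℤ_[p] O (p : ℤ_[p]) := by
    apply C.ker
    rw [C.ev_int, map_natCast, CharP.cast_eq_zero]
  refine ⟨F, ⟨fun n g => ?_, h1, fun i g hg hχ => ?_, fun k => ?_⟩, h2⟩
  · filter_upwards [h3 n g] with h hh j
    refine dvd_trans ?_ (hh j)
    rw [map_pow]
    exact pow_dvd_pow_of_dvd hz n
  · rw [h2 g hχ]
    refine Finset.sum_eq_zero fun i' _ => ?_
    obtain ⟨j, hj⟩ := I_conj' d i (c.σ ^ i'.val) g hg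
    have h4 := hf.away j _ hj (chi_conj c (c.σ ^ i'.val) hχ)
    rw [h4, Matrix.mulVec_zero, toO_zero, smul_zero]
  · have h4 : ∀ i : ZMod p, ∃ (m : ℕ) (z : Fin N → ℤ_[p]), ∀ g ∈ d.D k, c.χ g = 0 →
        (p : ℤ_[p]) ^ m • f ((c.σ ^ i.val)⁻¹ * g * c.σ ^ i.val) =
          (R.ρ ((c.σ ^ i.val)⁻¹ * g * c.σ ^ i.val)).mulVec z - z := by
      intro i
      obtain ⟨j, hj⟩ := d.D_conj k (c.σ ^ i.val)⁻¹
      obtain ⟨m, z, hz⟩ := hf.strict j
      refine ⟨m, z, fun g hg hχ => ?_⟩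
      have h5 := (hj g).1 hg
      rw [inv_inv] at h5
      exact hz _ h5 (chi_conj c _ hχ)
    choose m z hmz using h4
    obtain ⟨s, hs⟩ := p_dvd C (∑ i : ZMod p, m i)
    set M := ∑ i : ZMod p, m i with hM
    have hm : ∀ i, m i ≤ M := fun i => Finset.single_le_sum (f := m) (fun _ _ => Nat.zero_le _)
      (Finset.mem_univ i)
    refine ⟨p * M, s • ∑ i : ZMod p, C.z ^ i.val •
      toO O ((R.ρ (c.σ ^ i.val)).mulVec ((p : ℤ_[p]) ^ (M - m i) • z i)), fun g hg hχ => ?_⟩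
    rw [hs, mul_smul, Matrix.mulVec_smul, ← smul_sub, h2 g hχ]
    congr 1
    rw [Finset.smul_sum, Matrix.mulVec_sum, ← Finset.sum_sub_distrib]
    refine Finset.sum_congr rfl fun i _ => ?_
    rw [Matrix.mulVec_smul, ← smul_sub, smul_comm, ← toO_smul, ← toO_mulVec, ← toO_sub]
    congr 2
    have h5 : (p : ℤ_[p]) ^ M • f ((c.σ ^ i.val)⁻¹ * g * c.σ ^ i.val) =
        (R.ρ ((c.σ ^ i.val)⁻¹ * g * c.σ ^ i.val)).mulVec ((p : ℤ_[p]) ^ (M - m i) • z i) -
          (p : ℤ_[p]) ^ (M - m i) • z i := by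
      rw [Matrix.mulVec_smul, ← smul_sub, ← hmz i g hg hχ, smul_smul, ← pow_add,
        Nat.sub_add_cancel (hm i)]
    rw [← Matrix.mulVec_smul, h5, Matrix.mulVec_sub, Matrix.mulVec_mulVec, Matrix.mulVec_mulVec,
      ← map_mul, ← map_mul]
    congr 3
    group

end Pool.Agent.NH7.BK
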