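import Pool.Agent.NH7.BK.Stms

/-!
# BK7-A6: the corestriction formula (port of GU.CorP)
-/

set_option autoImplicit false
set_option linter.unusedSectionVars false

namespace Pool.Agent.NH7.BK

open Filter Topology
open Pool.Agent.NH7.GU (Cyc Chr)

namespace CorP

variable {p : ℕ} [hp : Fact p.Prime] {G : Type} [Group G] [TopologicalSpace G]

theorem chi_one (c : Chr p G) : c.χ 1 = 0 := by
  have h := c.m 1 1
  rw [mul_one] at h
  exact left_eq_add.1 h

theorem chi_inv (c : Chr p G) (g : G) : c.χ g⁻¹ = -c.χ g := by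
  have h := c.m g⁻¹ g
  rw [inv_mul_cancel, chi_one] at h
  exact eq_neg_of_add_eq_zero_left h.symm

theorem chi_pow (c : Chr p G) (k : ℕ) : c.χ (c.σ ^ k) = k := by
  induction k with
  | zero => rw [pow_zero, chi_one, Nat.cast_zero]
  | succ k ih => rw [pow_succ, c.m, ih, c.hσ, Nat.cast_succ]

theorem pow_val_add {O : Type} [CommRing O] (w : O) (hw : w ^ p = 1) (a b : ZMod p) :
    w ^ (a + b).val = w ^ a.val * w ^ b.val := by
  rw [ZMod.val_add, ← pow_add]
  exact (pow_eq_pow_mod _ hw).symm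

/-- the argument of the cocycle -/
def arg (c : Chr p G) (i : ZMod p) (g : G) : G :=
  (c.σ ^ i.val)⁻¹ * g * c.σ ^ (i - c.χ g).val

theorem arg_ker (c : Chr p G) (i : ZMod p) (g : G) : arg c i g ∈ c.ker := by
  rw [Chr.mem_ker, arg, c.m, c.m, chi_inv, chi_pow, chi_pow, ZMod.natCast_zmod_val,
    ZMod.natCast_zmod_val]
  ring

theorem arg_mul (c : Chr p G) (i : ZMod p) (g h : G) :
    arg c i (g * h) = arg c i g * arg c (i - c.χ g) h := by
  unfold arg
  rw [c.m, sub_sub]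
  group

variable {d : Pl G} {N : ℕ}

theorem rho_arg (R : Rp p d N) (c : Chr p G) (i : ZMod p) (g : G) :
    R.ρ (c.σ ^ i.val) * R.ρ (arg c i g) = R.ρ g * R.ρ (c.σ ^ (i - c.χ g).val) := by
  rw [← map_mul, ← map_mul, arg]
  congr 1
  group

section

variable (O : Type) [CommRing O] [Algebra ℤ_[p] O]

theorem toO_add (x y : Fin N → ℤ_[p]) : toO O (x + y) = toO O x + toO O y := by
  funext j
  unfold toO
  rw [Pi.add_apply, map_add, Pi.add_apply]

theorem toO_mulVec (R : Rp p d N) (g : G) (x : Fin N → ℤ_[p]) :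
    toO O ((R.ρ g).mulVec x) = (R.mO O g).mulVec (toO O x) := by
  funext j
  unfold toO Rp.mO
  exact RingHom.map_mulVec (algebraMap ℤ_[p] O) (R.ρ g) x j

end

theorem mulVec_sum' {O ι : Type} [CommRing O] (s : Finset ι) (M : Matrix (Fin N) (Fin N) O)
    (v : ι → Fin N → O) : M.mulVec (∑ i ∈ s, v i) = ∑ i ∈ s, M.mulVec (v i) :=
  map_sum M.mulVecLin v s

theorem dvd_of_norm (n : ℕ) (x : ℤ_[p]) (hx : ‖x‖ ≤ (p : ℝ) ^ (-n : ℤ)) :
    (p : ℤ_[p]) ^ n ∣ x := by
  rw [PadicInt.norm_le_pow_iff_mem_span_pow, Ideal.mem_span_singleton] at hx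
  exact hx

theorem cont_at [IsTopologicalGroup G] (R : Rp p d N) (c : Chr p G) (f : G → Fin N → ℤ_[p])
    (hf : CocV R c.ker f) (i : ZMod p) (n : ℕ) (g : G) :
    ∀ᶠ h in 𝓝 g, ∀ j, (p : ℤ_[p]) ^ n ∣ f (arg c i h) j - f (arg c i g) j := by
  have hopen : IsOpen (c.ker : Set G) := by
    have : (c.ker : Set G) = c.χ ⁻¹' {0} := rfl
    rw [this]
    exact (isOpen_discrete _).preimage c.c
  have h1 : ContinuousOn f (c.ker : Set G) := by
    rw [continuousOn_iff_continuous_domRestrict]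
    exact hf.cont
  have h2 : ContinuousAt f (arg c i g) :=
    h1.continuousAt (hopen.mem_nhds (arg_ker c i g))
  have h3 : ContinuousAt (fun h : G => (c.σ ^ i.val)⁻¹ * h * c.σ ^ (i - c.χ g).val) g := by
    fun_prop
  have h4 : ContinuousAt (fun h : G => f ((c.σ ^ i.val)⁻¹ * h * c.σ ^ (i - c.χ g).val)) g :=
    ContinuousAt.comp (f := fun h : G => (c.σ ^ i.val)⁻¹ * h * c.σ ^ (i - c.χ g).val) h2 h3
  have h5 : ∀ᶠ h in 𝓝 g, c.χ h = c.χ g := by
    have h51 : ∀ᶠ y in 𝓝 (c.χ g), y = c.χ g := by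
      rw [nhds_discrete]
      exact Filter.eventually_pure.2 rfl
    exact c.c.continuousAt.eventually h51
  have hpos : (0 : ℝ) < (p : ℝ) ^ (-n : ℤ) := by
    have : (0 : ℝ) < p := by exact_mod_cast hp.out.pos
    positivity
  refine Filter.eventually_all.2 fun j => ?_
  have h7 : ContinuousAt (fun h : G => f ((c.σ ^ i.val)⁻¹ * h * c.σ ^ (i - c.χ g).val) j) g :=
    (continuous_apply j).continuousAt.comp h4
  have h6 := Metric.tendsto_nhds.1 h7 _ hpos
  filter_upwards [h5, h6] with h hh hd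
  apply dvd_of_norm
  rw [arg, hh]
  rw [dist_eq_norm] at hd
  exact hd.le

end CorP

open CorP in
/-- A6. Corestriction, twisted by a `p`-th root of unity `w`. -/
theorem s_cor : S_cor := by
  intro p hp O _ _ w hw G _ _ _ d c N R f hf
  refine ⟨fun g => ∑ i : ZMod p, w ^ i.val •
    toO O ((R.ρ (c.σ ^ i.val)).mulVec (f (arg c i g))), ?_, ?_, ?_⟩
  · intro g h
    have h1 : ∀ i : ZMod p, w ^ i.val •
        toO O ((R.ρ (c.σ ^ i.val)).mulVec (f (arg c i (g * h)))) =
        w ^ i.val • toO O ((R.ρ (c.σ ^ i.val)).mulVec (f (arg c i g))) +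
        w ^ (c.χ g).val • (R.mO O g).mulVec (w ^ (i - c.χ g).val •
          toO O ((R.ρ (c.σ ^ (i - c.χ g).val)).mulVec (f (arg c (i - c.χ g) h)))) := by
      intro i
      have e1 : (R.ρ (c.σ ^ i.val)).mulVec (f (arg c i (g * h))) =
          (R.ρ (c.σ ^ i.val)).mulVec (f (arg c i g)) + (R.ρ g).mulVec
            ((R.ρ (c.σ ^ (i - c.χ g).val)).mulVec (f (arg c (i - c.χ g) h))) := by
        rw [arg_mul, hf.mul _ (arg_ker c i g) _ (arg_ker c _ h), Matrix.mulVec_add,
          Matrix.mulVec_mulVec, Matrix.mulVec_mulVec, rho_arg]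
      have e2 : w ^ i.val = w ^ (c.χ g).val * w ^ (i - c.χ g).val := by
        rw [← pow_val_add w hw]
        congr 2
        ring
      rw [e1, toO_add, toO_mulVec O R g, smul_add, Matrix.mulVec_smul, smul_smul, ← e2]
    show ∑ i : ZMod p, w ^ i.val •
        toO O ((R.ρ (c.σ ^ i.val)).mulVec (f (arg c i (g * h)))) = _
    rw [Finset.sum_congr rfl fun i _ => h1 i, Finset.sum_add_distrib, ← Finset.smul_sum,
      ← mulVec_sum']
    congr 3
    exact (Equiv.subRight (c.χ g)).sum_comp fun j => w ^ j.val •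
      toO O ((R.ρ (c.σ ^ j.val)).mulVec (f (arg c j h)))
  · intro g hg
    have hg' : c.χ g = 0 := hg
    refine Finset.sum_congr rfl fun i _ => ?_
    rw [arg, hg', sub_zero]
  · intro n g
    have h1 : ∀ᶠ h in 𝓝 g, ∀ i : ZMod p, ∀ j,
        (p : ℤ_[p]) ^ n ∣ f (arg c i h) j - f (arg c i g) j :=
      Filter.eventually_all.2 fun i => cont_at R c f hf i n g
    filter_upwards [h1] with h hh j
    have e1 : ∀ x : G, (∑ i : ZMod p, w ^ i.val •
        toO O ((R.ρ (c.σ ^ i.val)).mulVec (f (arg c i x)))) j = ∑ i : ZMod p, w ^ i.val *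
        algebraMap ℤ_[p] O (((R.ρ (c.σ ^ i.val)).mulVec (f (arg c i x))) j) := by
      intro x
      rw [Finset.sum_apply]
      rfl
    show _ ∣ (∑ i : ZMod p, w ^ i.val •
        toO O ((R.ρ (c.σ ^ i.val)).mulVec (f (arg c i h)))) j - (∑ i : ZMod p, w ^ i.val •
        toO O ((R.ρ (c.σ ^ i.val)).mulVec (f (arg c i g)))) j
    rw [e1, e1, ← Finset.sum_sub_distrib]
    refine Finset.dvd_sum fun i _ => ?_
    rw [← mul_sub, ← map_sub, ← Pi.sub_apply, ← Matrix.mulVec_sub]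
    refine Dvd.dvd.mul_left (map_dvd _ ?_) _
    unfold Matrix.mulVec dotProduct
    exact Finset.dvd_sum fun k _ => Dvd.dvd.mul_left (hh i k) _

end Pool.Agent.NH7.BK
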