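import Pool.Agent.NH7.BK.Stms
import Pool.Agent.NH7.GU.CorZP

/-!
# BK-A8: the corestriction of a Selmer cocycle is a Selmer cocycle
-/

set_option autoImplicit false
set_option linter.unusedSectionVars false

namespace Pool.Agent.NH7.BK

open Filter Topology
open Pool.Agent.NH7.GU (Chr)
open Pool.Agent.NH7.GU.CorZ (chi_pow pow_mem conj_mem)

namespace CorZV

variable {p : ℕ} [hp : Fact p.Prime] {G : Type} [Group G] [TopologicalSpace G] {d : Pl G} {N : ℕ}

theorem mO_self (R : Rp p d N) (g : G) : R.mO ℤ_[p] g = R.ρ g := by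
  unfold Rp.mO
  ext i j
  rw [Matrix.map_apply, Algebra.algebraMap_self, RingHom.id_apply]

theorem toO_self (x : Fin N → ℤ_[p]) : toO ℤ_[p] x = x := by
  funext j
  unfold toO
  rw [Algebra.algebraMap_self, RingHom.id_apply]

theorem rho_mul (R : Rp p d N) (g h : G) (x : Fin N → ℤ_[p]) :
    (R.ρ (g * h)).mulVec x = (R.ρ g).mulVec ((R.ρ h).mulVec x) := by
  rw [map_mul, Matrix.mulVec_mulVec]

theorem chi_one (c : Chr p G) : c.χ 1 = 0 := by
  have h := c.m 1 1
  rw [mul_one] at h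
  exact left_eq_add.1 h

theorem chi_inv (c : Chr p G) (g : G) : c.χ g⁻¹ = - c.χ g := by
  have h := c.m g⁻¹ g
  rw [inv_mul_cancel, chi_one] at h
  exact eq_neg_of_add_eq_zero_left h.symm

theorem F_one {R : Rp p d N} {F : G → Fin N → ℤ_[p]}
    (hF : ∀ g h, F (g * h) = F g + (R.ρ g).mulVec (F h)) : F 1 = 0 := by
  have h := hF 1 1
  rw [mul_one, map_one, Matrix.one_mulVec] at h
  exact left_eq_add.1 h

theorem add_pow {R : Rp p d N} {F : G → Fin N → ℤ_[p]}
    (hF : ∀ g h, F (g * h) = F g + (R.ρ g).mulVec (F h)) {g : G} (hg : R.ρ g = 1) (m : ℕ) :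
    F (g ^ m) = (m : ℤ_[p]) • F g := by
  induction m with
  | zero => rw [pow_zero, F_one hF, Nat.cast_zero, zero_smul]
  | succ m ih =>
    rw [pow_succ', hF, hg, ih, Matrix.one_mulVec, Nat.cast_succ, add_smul, one_smul, add_comm]

end CorZV

open CorZV

theorem s_corZ (hc : S_cor) : S_corZ := by
  intro p hp G _ _ _ d c N R f hf
  obtain ⟨F, h1, h2, h3⟩ := hc p ℤ_[p] 1 (one_pow p) G d c N R f hf.coc
  have hF : ∀ g h, F (g * h) = F g + (R.ρ g).mulVec (F h) := by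
    intro g h
    have := h1 g h
    rwa [one_pow, one_smul, mO_self] at this
  have hK : ∀ g ∈ c.ker, F g = ∑ i : ZMod p,
      (R.ρ (c.σ ^ i.val)).mulVec (f ((c.σ ^ i.val)⁻¹ * g * c.σ ^ i.val)) := by
    intro g hg
    rw [h2 g hg]
    refine Finset.sum_congr rfl fun i _ => ?_
    rw [one_pow, one_smul, toO_self]
  have hpp : (p : ℤ_[p]) ≠ 0 := by exact_mod_cast hp.out.ne_zero
  refine ⟨F, ⟨⟨?_, fun g _ h _ => hF g h⟩, ?_, ?_⟩, hK⟩
  · have hcF : Continuous F := by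
      refine continuous_pi fun j => ?_
      rw [continuous_iff_continuousAt]
      intro g
      rw [ContinuousAt, Metric.tendsto_nhds]
      intro ε hε
      have hp1 : (1 : ℝ) < p := by exact_mod_cast hp.out.one_lt
      obtain ⟨n, hn⟩ := exists_pow_lt_of_lt_one hε
        (inv_lt_one_of_one_lt₀ hp1 : ((p : ℝ))⁻¹ < 1)
      filter_upwards [h3 n g] with h hh
      have hh := hh j
      rw [Algebra.algebraMap_self, RingHom.id_apply] at hh
      rw [dist_eq_norm]
      obtain ⟨t, ht⟩ := hh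
      rw [ht, norm_mul, norm_pow, PadicInt.norm_p]
      have ht1 := PadicInt.norm_le_one t
      have : (0 : ℝ) ≤ ((p : ℝ)⁻¹) ^ n := by positivity
      nlinarith
    exact hcF.comp continuous_subtype_val
  · intro i g hg _
    have e1 : R.ρ g = 1 := R.triv i g hg
    have e2 := add_pow hF e1 p
    have e3 : F (g ^ p) = 0 := by
      rw [hK _ (pow_mem c g)]
      refine Finset.sum_eq_zero fun j _ => ?_
      obtain ⟨k, hk⟩ := d.I_conj i (c.σ ^ j.val)⁻¹
      have h5 := (hk (g ^ p)).1 ((d.I i).pow_mem hg p)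
      rw [inv_inv] at h5
      rw [hf.away k _ h5 (conj_mem c (pow_mem c g) _), Matrix.mulVec_zero]
    rw [e3] at e2
    exact (smul_eq_zero.1 e2.symm).resolve_left hpp
  · intro k
    have hz : ∀ i : ZMod p, ∃ (m : ℕ) (z : Fin N → ℤ_[p]), ∀ g ∈ d.D k, g ∈ c.ker →
        (p : ℤ_[p]) ^ m • (R.ρ (c.σ ^ i.val)).mulVec (f ((c.σ ^ i.val)⁻¹ * g * c.σ ^ i.val)) =
          (R.ρ g).mulVec z - z := by
      intro i
      obtain ⟨j, hj⟩ := d.D_conj k (c.σ ^ i.val)⁻¹
      obtain ⟨m, z, hz⟩ := hf.strict j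
      refine ⟨m, (R.ρ (c.σ ^ i.val)).mulVec z, fun g hg hgk => ?_⟩
      have h5 := (hj g).1 hg
      rw [inv_inv] at h5
      have h6 := congrArg (fun x => (R.ρ (c.σ ^ i.val)).mulVec x) (hz _ h5 (conj_mem c hgk _))
      simp only [Matrix.mulVec_smul, Matrix.mulVec_sub] at h6
      rw [h6, ← rho_mul, ← rho_mul]
      congr 3
      group
    choose m z hz using hz
    obtain ⟨M, hM⟩ : ∃ M : ℕ, ∀ i : ZMod p, m i ≤ M :=
      ⟨Finset.univ.sup m, fun i => Finset.le_sup (Finset.mem_univ i)⟩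
    obtain ⟨T, hT⟩ : ∃ T, T = ∑ i : ZMod p, (p : ℤ_[p]) ^ (M - m i) • z i := ⟨_, rfl⟩
    have hFk : ∀ g ∈ d.D k, g ∈ c.ker → (p : ℤ_[p]) ^ M • F g = (R.ρ g).mulVec T - T := by
      intro g hg hgk
      rw [hK g hgk, hT, Finset.smul_sum, Matrix.mulVec_sum, ← Finset.sum_sub_distrib]
      refine Finset.sum_congr rfl fun i _ => ?_
      rw [Matrix.mulVec_smul, ← smul_sub, ← hz i g hg hgk, smul_smul, ← pow_add,
        Nat.sub_add_cancel (hM i)]
    by_cases hχ : ∀ g ∈ d.D k, c.χ g = 0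
    · exact ⟨M, T, fun g hg _ => hFk g hg (hχ g hg)⟩
    push Not at hχ
    obtain ⟨g0, hg0, hg1⟩ := hχ
    obtain ⟨s, hs, hs1⟩ : ∃ s ∈ d.D k, c.χ s = 1 := by
      refine ⟨g0 ^ ((c.χ g0)⁻¹).val, (d.D k).pow_mem hg0 _, ?_⟩
      rw [chi_pow, ZMod.natCast_zmod_val, inv_mul_cancel₀ hg1]
    obtain ⟨F', hF'⟩ : ∃ F' : G → Fin N → ℤ_[p],
        ∀ g, F' g = (p : ℤ_[p]) ^ M • F g - ((R.ρ g).mulVec T - T) := ⟨_, fun _ => rfl⟩
    have hm : ∀ g h, F' (g * h) = F' g + (R.ρ g).mulVec (F' h) := by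
      intro g h
      rw [hF', hF', hF', hF, rho_mul, Matrix.mulVec_sub, Matrix.mulVec_sub, Matrix.mulVec_smul,
        smul_add]
      abel
    have h0 : ∀ g ∈ d.D k, g ∈ c.ker → F' g = 0 := by
      intro g hg hgk
      rw [hF', hFk g hg hgk, sub_self]
    have hχs : ∀ i : ZMod p, c.χ (s ^ i.val) = i := by
      intro i
      rw [chi_pow, hs1, mul_one, ZMod.natCast_zmod_val]
    obtain ⟨S, hS⟩ : ∃ S, S = ∑ i : ZMod p, F' (s ^ i.val) := ⟨_, rfl⟩
    have hkey : ∀ g ∈ d.D k, (p : ℤ_[p]) • F' g = S - (R.ρ g).mulVec S := by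
      intro g hg
      have h7 : ∀ i : ZMod p, F' g + (R.ρ g).mulVec (F' (s ^ i.val)) =
          F' (s ^ (c.χ g + i).val) := by
        intro i
        rw [← hm]
        have h8 : g * s ^ i.val =
            s ^ (c.χ g + i).val * ((s ^ (c.χ g + i).val)⁻¹ * (g * s ^ i.val)) := by group
        have h13 : F' ((s ^ (c.χ g + i).val)⁻¹ * (g * s ^ i.val)) = 0 := by
          refine h0 _ ?_ ?_
          · exact (d.D k).mul_mem ((d.D k).inv_mem ((d.D k).pow_mem hs _))
              ((d.D k).mul_mem hg ((d.D k).pow_mem hs _))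
          · rw [Chr.mem_ker, c.m, c.m, chi_inv, hχs, hχs]
            ring
        rw [h8, hm, h13, Matrix.mulVec_zero, add_zero]
      have h9 : ∑ i : ZMod p, (F' g + (R.ρ g).mulVec (F' (s ^ i.val))) = S := by
        rw [hS, ← Equiv.sum_comp (Equiv.addLeft (c.χ g)) fun i => F' (s ^ i.val)]
        exact Finset.sum_congr rfl fun i _ => h7 i
      rw [Finset.sum_add_distrib, ← Matrix.mulVec_sum, ← hS, Finset.sum_const,
        Finset.card_univ, ZMod.card] at h9
      rw [Nat.cast_smul_eq_nsmul]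
      exact eq_sub_of_add_eq h9
    refine ⟨M + 1, (p : ℤ_[p]) • T - S, fun g hg _ => ?_⟩
    have h11 := hkey g hg
    rw [hF'] at h11
    rw [pow_succ', mul_smul, Matrix.mulVec_sub, Matrix.mulVec_smul]
    rw [smul_sub, smul_sub] at h11
    have h12 : (p : ℤ_[p]) • (p : ℤ_[p]) ^ M • F g =
        (p : ℤ_[p]) • (R.ρ g).mulVec T - (p : ℤ_[p]) • T + (S - (R.ρ g).mulVec S) := by
      rw [← h11]
      abel
    rw [h12]
    abel

end Pool.Agent.NH7.BK
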