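import Pool.Agent.NH7.BK.Stms

/-!
# Selmer groups of residually trivial representations, A5: the criterion
-/

set_option autoImplicit false
set_option linter.unusedSectionVars false

namespace Pool.Agent.NH7.BK

open Filter Topology
open Pool.Agent.NH7.GU (Cyc Chr)

namespace CritP

section

variable {p : ℕ} [hp : Fact p.Prime] {O : Type} [CommRing O] [Algebra ℤ_[p] O] (C : Cyc p O)
  {G : Type} [Group G] [TopologicalSpace G] [IsTopologicalGroup G] {d : Pl G} {c : Chr p G}
  {N : ℕ} {R : Rp p d N}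

theorem ev_mO (R : Rp p d N) (g : G) (i j : Fin N) :
    C.ev (R.mO O g i j) = (1 : Matrix (Fin N) (Fin N) (ZMod p)) i j := by
  obtain ⟨t, ht⟩ := R.one g i j
  have h1 : R.ρ g i j = (1 : Matrix (Fin N) (Fin N) ℤ_[p]) i j + (p : ℤ_[p]) * t := by
    rw [Matrix.sub_apply] at ht
    linear_combination ht
  change C.ev (algebraMap ℤ_[p] O (R.ρ g i j)) = _
  rw [C.ev_int, h1, map_add, map_mul, map_natCast, ZMod.natCast_self, zero_mul, add_zero]
  by_cases hij : i = j
  · subst hij
    rw [Matrix.one_apply_eq, Matrix.one_apply_eq, map_one]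
  · rw [Matrix.one_apply_ne hij, Matrix.one_apply_ne hij, map_zero]

theorem ev_mulVec (R : Rp p d N) (g : G) (v : Fin N → O) (j : Fin N) :
    C.ev ((R.mO O g).mulVec v j) = C.ev (v j) := by
  rw [Matrix.mulVec, dotProduct, map_sum]
  have h1 : ∀ i : Fin N, C.ev (R.mO O g j i * v i) =
      (1 : Matrix (Fin N) (Fin N) (ZMod p)) j i * C.ev (v i) := by
    intro i
    rw [map_mul, ev_mO C]
  rw [Finset.sum_congr rfl fun i _ => h1 i]
  have h2 : ∑ i, (1 : Matrix (Fin N) (Fin N) (ZMod p)) j i * C.ev (v i) =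
      (1 : Matrix (Fin N) (Fin N) (ZMod p)).mulVec (fun i => C.ev (v i)) j := rfl
  rw [h2, Matrix.one_mulVec]

theorem ev_z1 : C.ev (C.z - 1) = 0 := by rw [map_sub, C.ev_z, map_one, sub_self]

theorem cancel {x y : O} (h : (C.z - 1) * x = (C.z - 1) * y) : x = y := by
  have h1 : (C.z - 1) * (x - y) = 0 := by rw [mul_sub, h, sub_self]
  exact sub_eq_zero.1 (C.inj _ h1)

theorem cancelV {x y : Fin N → O} (h : (C.z - 1) • x = (C.z - 1) • y) : x = y := by
  funext j
  exact cancel C (congrFun h j)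

variable {C}

/-- the difference -/
theorem isV_sub {F b : G → Fin N → O} (hF : IsV C c R F) (hb : IsV C c R b) :
    IsV C c R (fun g => F g - b g) where
  cont := by
    intro n g
    filter_upwards [hF.cont n g, hb.cont n g] with h h1 h2 j
    have e : (F h - b h) j - (F g - b g) j = (F h j - F g j) - (b h j - b g j) := by
      rw [Pi.sub_apply, Pi.sub_apply]; ring
    rw [e]
    exact dvd_sub (h1 j) (h2 j)
  mul := by
    intro g h
    rw [hF.mul, hb.mul, Matrix.mulVec_sub, smul_sub]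
    abel
  away := by
    intro i g hg h0
    rw [hF.away i g hg h0, hb.away i g hg h0, sub_zero]
  strict := by
    intro k
    obtain ⟨n₁, t₁, h1⟩ := hF.strict k
    obtain ⟨n₂, t₂, h2⟩ := hb.strict k
    refine ⟨n₁ + n₂, (C.z - 1) ^ n₂ • t₁ - (C.z - 1) ^ n₁ • t₂, ?_⟩
    intro g hg h0
    have e1 := h1 g hg h0
    have e2 := h2 g hg h0
    rw [Matrix.mulVec_sub, Matrix.mulVec_smul, Matrix.mulVec_smul]
    funext j
    have f1 := congrFun e1 j
    have f2 := congrFun e2 j
    simp only [Pi.smul_apply, Pi.sub_apply, smul_eq_mul] at f1 f2 ⊢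
    rw [pow_add]
    linear_combination (C.z - 1) ^ n₂ * f1 - (C.z - 1) ^ n₁ * f2

/-- one step -/
theorem step (hp2 : p ≠ 2) (hk : ∀ k, ∃ g ∈ d.D k, c.χ g ≠ 0) (hT : Min d c) (ht : S_tame)
    (hs : S_str) (hl : S_lift) {F : G → Fin N → O}
    (hF : IsV C c R F) (h0 : F c.σ = 0) :
    ∃ F1 : G → Fin N → O, (∀ g j, F g j = (C.z - 1) * F1 g j) ∧ IsV C c R F1 ∧ F1 c.σ = 0 := by
  have hdiv : ∀ g j, (C.z - 1) ∣ F g j := by
    intro g₀ j
    have hc : Continuous fun g => C.ev (F g j) := by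
      have hloc : IsLocallyConstant fun g => C.ev (F g j) := by
        rw [IsLocallyConstant.iff_eventually_eq]
        intro g
        filter_upwards [hF.cont 1 g] with h h1
        obtain ⟨t, ht⟩ := h1 j
        have h2 := congrArg C.ev ht
        rw [pow_one, map_sub, map_mul, ev_z1, zero_mul, sub_eq_zero] at h2
        exact h2
      exact hloc.continuous
    have hm : ∀ g h, C.ev (F (g * h) j) = C.ev (F g j) + C.ev (F h j) := by
      intro g h
      rw [hF.mul, Pi.add_apply, Pi.smul_apply, smul_eq_mul, map_add, map_mul, map_pow, C.ev_z,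
        one_pow, one_mul, ev_mulVec C]
    obtain ⟨a, ha⟩ := hT (fun g => C.ev (F g j)) hc hm
      (fun i hi g hg => by
        change C.ev (F g j) = 0
        rw [hF.away i g hg (hi g hg), Pi.zero_apply, map_zero])
      (fun i hi => by
        obtain ⟨a, ha⟩ := ht p O C G d c N R F hp2 hF i hi
        exact ⟨a j, fun g hg => ha g hg j⟩)
      (fun k => by
        obtain ⟨a, ha⟩ := hs p O C G d c N R F hp2 hF k (hk k)
        exact ⟨a j, fun g hg => ha g hg j⟩)
      (hl p O C G d c N R F hp2 hF j)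
    have ha0 : a = 0 := by
      have h1 := ha c.σ
      simp only [h0, Pi.zero_apply, map_zero, c.hσ, mul_one] at h1
      exact h1.symm
    apply C.ker
    have h1 := ha g₀
    rw [ha0, zero_mul] at h1
    exact h1
  choose F1 hF1 using hdiv
  have hF1' : ∀ g, F g = (C.z - 1) • F1 g := fun g => by
    funext j
    rw [Pi.smul_apply, smul_eq_mul]
    exact hF1 g j
  refine ⟨F1, hF1, ⟨?_, ?_, ?_, ?_⟩, ?_⟩
  · intro n g
    filter_upwards [hF.cont (n + 1) g] with h h1 j
    obtain ⟨t, ht⟩ := h1 j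
    refine ⟨t, cancel C ?_⟩
    have e1 := hF1 h j
    have e2 := hF1 g j
    rw [pow_succ] at ht
    linear_combination ht - e1 + e2
  · intro g h
    apply cancelV C
    have e4 := hF.mul g h
    rw [hF1' (g * h), hF1' g, hF1' h, Matrix.mulVec_smul] at e4
    rw [e4, smul_add, smul_comm]
  · intro i g hg h1
    apply cancelV C
    rw [← hF1' g, hF.away i g hg h1, smul_zero]
  · intro k
    obtain ⟨n, t, h1⟩ := hF.strict k
    refine ⟨n + 1, t, fun g hg h2 => ?_⟩
    rw [← h1 g hg h2, hF1' g, pow_succ, mul_smul]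
  · apply cancelV C
    rw [← hF1' c.σ, h0, smul_zero]

theorem zero_of (hp2 : p ≠ 2) (hk : ∀ k, ∃ g ∈ d.D k, c.χ g ≠ 0) (hT : Min d c) (ht : S_tame)
    (hs : S_str) (hl : S_lift) (n : ℕ) :
    ∀ F : G → Fin N → O, IsV C c R F → F c.σ = 0 → ∀ g j, (C.z - 1) ^ n ∣ F g j := by
  induction n with
  | zero =>
    intro F _ _ g j
    rw [pow_zero]
    exact one_dvd _
  | succ n ih =>
    intro F hF h0 g j
    obtain ⟨F1, h1, h2, h3⟩ := step hp2 hk hT ht hs hl hF h0
    rw [h1 g j, pow_succ, mul_comm]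
    exact mul_dvd_mul_left _ (ih F1 h2 h3 g j)

/-- the matrix `z ρ(σ) - 1` is `z - 1` times an invertible matrix -/
theorem exU (C : Cyc p O) (R : Rp p d N) (hp2 : p ≠ 2) (g : G) : ∃ U : Matrix (Fin N) (Fin N) O,
    IsUnit U ∧ C.z • R.mO O g - 1 = (C.z - 1) • U := by
  have h1 : ∀ i j, ∃ w : O, algebraMap ℤ_[p] O ((R.ρ g - 1) i j) = (C.z - 1) ^ 2 * w := by
    intro i j
    exact C.sq _ (R.one g i j) (fun h => absurd h hp2)
  choose W hW using h1
  refine ⟨1 + (C.z * (C.z - 1)) • (Matrix.of W), ?_, ?_⟩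
  · rw [Matrix.isUnit_iff_isUnit_det]
    apply C.unit
    rw [RingHom.map_det]
    have e : (C.ev.mapMatrix (1 + (C.z * (C.z - 1)) • (Matrix.of W)) :
        Matrix (Fin N) (Fin N) (ZMod p)) = 1 := by
      ext i j
      rw [RingHom.mapMatrix_apply, Matrix.map_apply, Matrix.add_apply, Matrix.smul_apply,
        smul_eq_mul, map_add, map_mul, map_mul, ev_z1, mul_zero, zero_mul, add_zero]
      by_cases hij : i = j
      · subst hij
        rw [Matrix.one_apply_eq, Matrix.one_apply_eq, map_one]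
      · rw [Matrix.one_apply_ne hij, Matrix.one_apply_ne hij, map_zero]
    rw [e, Matrix.det_one]
    exact one_ne_zero
  · ext i j
    have h2 := hW i j
    rw [Matrix.sub_apply, map_sub] at h2
    have h3 : algebraMap ℤ_[p] O ((1 : Matrix (Fin N) (Fin N) ℤ_[p]) i j) =
        (1 : Matrix (Fin N) (Fin N) O) i j := by
      by_cases hij : i = j
      · subst hij
        rw [Matrix.one_apply_eq, Matrix.one_apply_eq, map_one]
      · rw [Matrix.one_apply_ne hij, Matrix.one_apply_ne hij, map_zero]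
    rw [h3] at h2
    have h4 : R.mO O g i j = algebraMap ℤ_[p] O (R.ρ g i j) := rfl
    rw [Matrix.sub_apply, Matrix.smul_apply, Matrix.smul_apply, Matrix.add_apply,
      Matrix.smul_apply, Matrix.of_apply, smul_eq_mul, smul_eq_mul, smul_eq_mul, h4]
    linear_combination C.z * h2

end

end CritP

open CritP in
theorem s_crit (hb : S_bt) (ht : S_tame) (hs : S_str) (hl : S_lift) : S_crit := by
  intro p _ O _ _ C G _ _ _ d c N R F hp2 hk hT hF
  obtain ⟨U, hU, hU1⟩ := exU C R hp2 c.σ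
  obtain ⟨V, hV⟩ := hU.exists_right_inv
  obtain ⟨b, hb1, -, hb3⟩ := hb p O C G d c N R (V.mulVec (F c.σ)) hp2
  have h5 : U.mulVec (V.mulVec (F c.σ)) = F c.σ := by
    rw [Matrix.mulVec_mulVec, hV, Matrix.one_mulVec]
  have h6 : b c.σ = F c.σ := by
    apply cancelV C
    rw [hb1, c.hσ]
    have hv : (1 : ZMod p).val = 1 := by
      haveI : Fact (1 < p) := ⟨(Fact.out : p.Prime).one_lt⟩
      exact ZMod.val_one p
    rw [hv, pow_one]
    have h7 : C.z • (R.mO O c.σ).mulVec (V.mulVec (F c.σ)) - V.mulVec (F c.σ) =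
        (C.z • R.mO O c.σ - 1).mulVec (V.mulVec (F c.σ)) := by
      rw [Matrix.sub_mulVec, Matrix.smul_mulVec, Matrix.one_mulVec]
    rw [h7, hU1, Matrix.smul_mulVec, h5]
  have hF' := isV_sub hF hb3
  have h0 : (fun g => F g - b g) c.σ = 0 := by
    change F c.σ - b c.σ = 0
    rw [h6, sub_self]
  have h1 : ∀ g, F g = b g := fun g => by
    funext j
    exact sub_eq_zero.1 (C.sep _ fun n => zero_of hp2 hk hT ht hs hl n _ hF' h0 g j)
  exact ⟨V.mulVec (F c.σ), fun g => by rw [h1 g, hb1 g]⟩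

end Pool.Agent.NH7.BK
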