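import Pool.Agent.NH7.BK.Stms
import Pool.Agent.NH7.GU.CtP

/-!
# Selmer groups of residually trivial representations, C2: counting
-/

set_option autoImplicit false
set_option linter.unusedSectionVars false

namespace Pool.Agent.NH7.BK

open NumberField IsDedekindDomain Pool.Agent.W401.Cheb Pool.Agent.NH7.Sch Filter Topology
open Pool.Agent.NH7.GU (Cyc Chr HS Qv fr Hm Unr H0 HL Cq cl mem_H0 mem_HL)
open Pool.Agent.NH7.GU.CtP (WW PP H0_le PP_le relIndex_H0 relIndex_PP index_sup)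

namespace CtP

variable {K : Type} [Field K] [NumberField K] {p : ℕ} [hp : Fact p.Prime] {ζ : K}
  (hζ : IsPrimitiveRoot ζ p)

/-- (i) -/
theorem card_Sel (S : Finset (HS K)) (lam : HS K → GK K → ZMod p)
    (hfin : Finite ((WW p S ⊓ HL hζ S lam : Subgroup Kˣ) ⧸
      (PP K p).subgroupOf (WW p S ⊓ HL hζ S lam))) :
    Nat.card (Sel hζ S lam) ≤ (PP K p).relIndex (WW p S ⊓ HL hζ S lam) := by
  classical
  have hmem : ∀ κ ∈ WW p S ⊓ HL hζ S lam, kp hζ κ ∈ Sel hζ S lam := by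
    rintro κ ⟨h1, h2⟩
    exact ⟨κ, h2, h1, fun _ => rfl⟩
  let φ : ((WW p S ⊓ HL hζ S lam : Subgroup Kˣ) ⧸
      (PP K p).subgroupOf (WW p S ⊓ HL hζ S lam)) → Sel hζ S lam :=
    fun q => ⟨kp hζ ((Quotient.out q : (WW p S ⊓ HL hζ S lam : Subgroup Kˣ)) : Kˣ),
      hmem _ (Quotient.out q).2⟩
  have hsurj : Function.Surjective φ := by
    rintro ⟨x, κ, hκ1, hκ2, hκ⟩
    have hκT : κ ∈ WW p S ⊓ HL hζ S lam := ⟨hκ2, hκ1⟩
    refine ⟨QuotientGroup.mk ⟨κ, hκT⟩, ?_⟩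
    apply Subtype.ext
    change kp hζ _ = x
    obtain ⟨q, hq⟩ : ∃ q : (WW p S ⊓ HL hζ S lam : Subgroup Kˣ), q = Quotient.out
      (QuotientGroup.mk ⟨κ, hκT⟩ : ((WW p S ⊓ HL hζ S lam : Subgroup Kˣ) ⧸
        (PP K p).subgroupOf (WW p S ⊓ HL hζ S lam))) := ⟨_, rfl⟩
    rw [← hq]
    have h1 : (QuotientGroup.mk (⟨κ, hκT⟩ : (WW p S ⊓ HL hζ S lam : Subgroup Kˣ)) :
        ((WW p S ⊓ HL hζ S lam : Subgroup Kˣ) ⧸
        (PP K p).subgroupOf (WW p S ⊓ HL hζ S lam))) = QuotientGroup.mk q := by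
      rw [hq, QuotientGroup.out_eq']
    rw [QuotientGroup.eq, Subgroup.mem_subgroupOf] at h1
    obtain ⟨s, hs⟩ := h1
    have h2 : (q : Kˣ) = κ * s ^ p := by
      have h3 : s ^ p = κ⁻¹ * (q : Kˣ) := hs
      rw [h3, mul_inv_cancel_left]
    funext g
    rw [h2, kp_mul_left, kp_ppow, add_zero]
    exact (hκ g).symm
  exact Nat.card_le_card_of_surjective φ hsurj

end CtP

open CtP in
theorem s_ct (h0 : S_mod) (h1 : Pool.Agent.NH7.GU.S_cfin) (h2 : Pool.Agent.NH7.GU.S_sun)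
    (h3 : S_loc) (_h4 : S_sfin) : S_ct := by
  classical
  intro K _ _ _ p hp ζ hζ S 𝔞 hdvd h𝔞 hcl lam
  obtain ⟨𝔪, hm0, hmS, hm1⟩ := h0 K p ζ hζ S
  have hfin : Finite (Cq p S (HL hζ S lam)) :=
    h1 K p S (HL hζ S lam) 𝔪 hm0 hmS fun x hx hx1 => H0_le hζ S lam (hm1 x hx hx1)
  obtain ⟨B, hB1, hB2⟩ := h2 K p ζ hζ S hcl
  obtain ⟨hf0, hc0⟩ := h3 K p ζ hζ S 𝔞 hdvd h𝔞
  obtain ⟨hP1, hP2⟩ := relIndex_PP (p := p) S hB1 hB2
  have hp0 : 0 < p := hp.out.pos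
  generalize hNa : Ideal.absNorm 𝔞 = a at hc0 ⊢
  rcases Nat.eq_zero_or_pos a with ha0 | ha0
  · rw [ha0, mul_zero]
    exact Nat.zero_le _
  set n := Module.finrank ℚ K with hn
  set s := S.card with hs
  -- the indices
  have e1 := Subgroup.relIndex_mul_index (H0_le hζ S lam)
  have e2 := Subgroup.relIndex_mul_relIndex (PP K p) (WW p S ⊓ HL hζ S lam) (WW p S)
    (PP_le hζ S lam) inf_le_left
  rw [Subgroup.inf_relIndex_left] at e2
  have e3 : (HL hζ S lam).relIndex (WW p S ⊔ HL hζ S lam) = (HL hζ S lam).relIndex (WW p S) :=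
    Subgroup.relIndex_sup_right _ _
  have e4 := Subgroup.relIndex_mul_index (show HL hζ S lam ≤ WW p S ⊔ HL hζ S lam from le_sup_right)
  rw [e3] at e4
  have hPne : (PP K p).relIndex (WW p S) ≠ 0 := by
    have : Nat.card (WW p S ⧸ (PP K p).subgroupOf (WW p S)) ≠ 0 := Nat.card_pos.ne'
    exact this
  have hfinT : Finite ((WW p S ⊓ HL hζ S lam : Subgroup Kˣ) ⧸
      (PP K p).subgroupOf (WW p S ⊓ HL hζ S lam)) := by
    apply Nat.finite_of_card_ne_zero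
    intro h
    apply hPne
    have h' : (PP K p).relIndex (WW p S ⊓ HL hζ S lam) = 0 := h
    rw [← e2, h', zero_mul]
  have hSel := card_Sel hζ S lam hfinT
  have hidx := index_sup hζ S lam
  have hH0 := relIndex_H0 hζ S lam
  have hc0' : p ^ (2 * s) * a ≤ (H0 hζ S).index := hc0
  -- the arithmetic
  generalize (H0 hζ S).relIndex (HL hζ S lam) = x1 at e1 hH0
  generalize (HL hζ S lam).index = x2 at e1 e4
  generalize (H0 hζ S).index = x3 at e1 hc0'
  generalize (PP K p).relIndex (WW p S ⊓ HL hζ S lam) = x4 at e2 hSel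
  generalize (HL hζ S lam).relIndex (WW p S) = r at e2 e4
  generalize (PP K p).relIndex (WW p S) = x5 at e2 hP1
  generalize (WW p S ⊔ HL hζ S lam).index = x6 at e4 hidx
  have a1 : p ^ s * a ≤ x2 := by
    have b1 : p ^ s * (p ^ s * a) ≤ p ^ s * x2 := by
      calc p ^ s * (p ^ s * a) = p ^ (2 * s) * a := by rw [two_mul, pow_add, mul_assoc]
        _ ≤ x3 := hc0'
        _ = x1 * x2 := e1.symm
        _ ≤ p ^ s * x2 := Nat.mul_le_mul_right _ hH0
    exact Nat.le_of_mul_le_mul_left b1 (pow_pos hp0 s)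
  have hr : 0 < r := by
    rcases Nat.eq_zero_or_pos r with h | h
    · rw [h, zero_mul] at e4
      have := Nat.mul_pos (pow_pos hp0 s) ha0
      omega
    · exact h
  refine le_trans ?_ (Nat.mul_le_mul_right _ hidx)
  refine Nat.le_of_mul_le_mul_left ?_ hr
  calc r * (Nat.card (Sel hζ S lam) * a) ≤ r * (x4 * a) :=
        Nat.mul_le_mul_left _ (Nat.mul_le_mul_right _ hSel)
    _ = x5 * a := by rw [← e2]; ring
    _ ≤ p ^ (s + n / 2) * a := Nat.mul_le_mul_right _ hP1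
    _ = (p ^ s * a) * p ^ (n / 2) := by rw [pow_add]; ring
    _ ≤ x2 * p ^ (n / 2) := Nat.mul_le_mul_right _ a1
    _ = r * (x6 * p ^ (n / 2)) := by rw [← e4]; ring

end Pool.Agent.NH7.BK
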