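import Pool.Agent.NH7.BK.Defs

/-!
# Selmer groups of residually trivial representations in cyclic extensions: the statements

Every `def S_... : Prop` is proved in a file of its own, as a theorem `s_... : S_...`.
-/

set_option autoImplicit false
set_option linter.unusedSectionVars false

namespace Pool.Agent.NH7.BK

open NumberField IsDedekindDomain Pool.Agent.W401.Cheb Pool.Agent.NH7.Sch Filter Topology
open Pool.Agent.NH7.GU (Cyc Chr HS Qv fr Hm Unr H0 HL Cq cl mem_H0 mem_HL)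

/-! ### A. The abstract criterion -/

/-- A1. The coboundaries divided by `ζ - 1`. -/
def S_bt : Prop := ∀ (p : ℕ) [Fact p.Prime] (O : Type) [CommRing O] [Algebra ℤ_[p] O] (C : Cyc p O)
  (G : Type) [Group G] [TopologicalSpace G] [IsTopologicalGroup G] (d : Pl G) (c : Chr p G) (N : ℕ)
  (R : Rp p d N) (t : Fin N → O), p ≠ 2 → ∃ b : G → Fin N → O,
    (∀ g, (C.z - 1) • b g = C.z ^ (c.χ g).val • (R.mO O g).mulVec t - t) ∧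
    (∀ g j, C.ev (b g j) = c.χ g * C.ev (t j)) ∧ IsV C c R b

/-- A2. The condition at the ramified tame inertia groups. -/
def S_tame : Prop := ∀ (p : ℕ) [Fact p.Prime] (O : Type) [CommRing O] [Algebra ℤ_[p] O]
  (C : Cyc p O) (G : Type) [Group G] [TopologicalSpace G] [IsTopologicalGroup G] (d : Pl G)
  (c : Chr p G) (N : ℕ) (R : Rp p d N) (F : G → Fin N → O), p ≠ 2 → IsV C c R F →
  ∀ i, (∃ g ∈ d.I i, c.χ g ≠ 0) →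
    ∃ a : Fin N → ZMod p, ∀ g ∈ d.DI i, ∀ j, C.ev (F g j) = a j * c.χ g

/-- A3. The condition at the strict decomposition groups, on which `χ` is not trivial. -/
def S_str : Prop := ∀ (p : ℕ) [Fact p.Prime] (O : Type) [CommRing O] [Algebra ℤ_[p] O]
  (C : Cyc p O) (G : Type) [Group G] [TopologicalSpace G] [IsTopologicalGroup G] (d : Pl G)
  (c : Chr p G) (N : ℕ) (R : Rp p d N) (F : G → Fin N → O), p ≠ 2 → IsV C c R F →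
  ∀ k, (∃ g ∈ d.D k, c.χ g ≠ 0) →
    ∃ a : Fin N → ZMod p, ∀ g ∈ d.D k, ∀ j, C.ev (F g j) = a j * c.χ g

/-- A4. The lifting condition. -/
def S_lift : Prop := ∀ (p : ℕ) [Fact p.Prime] (O : Type) [CommRing O] [Algebra ℤ_[p] O]
  (C : Cyc p O) (G : Type) [Group G] [TopologicalSpace G] [IsTopologicalGroup G] (d : Pl G)
  (c : Chr p G) (N : ℕ) (R : Rp p d N) (F : G → Fin N → O), p ≠ 2 → IsV C c R F → ∀ j,
    ∃ y : G → ZMod p, Continuous y ∧ ∀ g h, y (g * h) = y g + y h + c.χ g * C.ev (F h j)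

/-- A5. The criterion. -/
def S_crit : Prop := ∀ (p : ℕ) [Fact p.Prime] (O : Type) [CommRing O] [Algebra ℤ_[p] O]
  (C : Cyc p O) (G : Type) [Group G] [TopologicalSpace G] [IsTopologicalGroup G] (d : Pl G)
  (c : Chr p G) (N : ℕ) (R : Rp p d N) (F : G → Fin N → O), p ≠ 2 →
  (∀ k, ∃ g ∈ d.D k, c.χ g ≠ 0) → Min d c → IsV C c R F →
    ∃ t : Fin N → O, ∀ g, (C.z - 1) • F g = C.z ^ (c.χ g).val • (R.mO O g).mulVec t - t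

/-- A6. Corestriction, twisted by a `p`-th root of unity `w`. -/
def S_cor : Prop := ∀ (p : ℕ) [Fact p.Prime] (O : Type) [CommRing O] [Algebra ℤ_[p] O]
  (w : O) (_ : w ^ p = 1)
  (G : Type) [Group G] [TopologicalSpace G] [IsTopologicalGroup G] (d : Pl G) (c : Chr p G)
  (N : ℕ) (R : Rp p d N) (f : G → Fin N → ℤ_[p]), CocV R c.ker f → ∃ F : G → Fin N → O,
    (∀ g h, F (g * h) = F g + w ^ (c.χ g).val • (R.mO O g).mulVec (F h)) ∧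
    (∀ g ∈ c.ker, F g = ∑ i : ZMod p, w ^ i.val •
      toO O ((R.ρ (c.σ ^ i.val)).mulVec (f ((c.σ ^ i.val)⁻¹ * g * c.σ ^ i.val)))) ∧
    (∀ (n : ℕ) (g : G), ∀ᶠ h in 𝓝 g, ∀ j, algebraMap ℤ_[p] O ((p : ℤ_[p]) ^ n) ∣ F h j - F g j)

/-- A7. The twisted corestriction of a Selmer cocycle satisfies the local conditions. -/
def S_corO : Prop := ∀ (p : ℕ) [Fact p.Prime] (O : Type) [CommRing O] [Algebra ℤ_[p] O]
  (C : Cyc p O) (G : Type) [Group G] [TopologicalSpace G] [IsTopologicalGroup G] (d : Pl G)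
  (c : Chr p G) (N : ℕ) (R : Rp p d N) (f : G → Fin N → ℤ_[p]), SelV R c.ker f →
    ∃ F : G → Fin N → O, IsV C c R F ∧
    ∀ g ∈ c.ker, F g = ∑ i : ZMod p, C.z ^ i.val •
      toO O ((R.ρ (c.σ ^ i.val)).mulVec (f ((c.σ ^ i.val)⁻¹ * g * c.σ ^ i.val)))

/-- A8. The corestriction of a Selmer cocycle is a Selmer cocycle. -/
def S_corZ : Prop := ∀ (p : ℕ) [Fact p.Prime]
  (G : Type) [Group G] [TopologicalSpace G] [IsTopologicalGroup G] (d : Pl G)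
  (c : Chr p G) (N : ℕ) (R : Rp p d N) (f : G → Fin N → ℤ_[p]), SelV R c.ker f →
    ∃ F : G → Fin N → ℤ_[p], SelV R ⊤ F ∧ ∀ g ∈ c.ker, F g = ∑ i : ZMod p,
      (R.ρ (c.σ ^ i.val)).mulVec (f ((c.σ ^ i.val)⁻¹ * g * c.σ ^ i.val))

/-- A9. The comparison. -/
def S_cmp : Prop := ∀ (p : ℕ) [Fact p.Prime]
  (G : Type) [Group G] [TopologicalSpace G] [IsTopologicalGroup G] (d : Pl G)
  (c : Chr p G), p ≠ 2 → (∀ k, ∃ g ∈ d.D k, c.χ g ≠ 0) → Min d c →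
  ∀ (N : ℕ) (R : Rp p d N) (f : G → Fin N → ℤ_[p]), SelV R c.ker f →
    ∃ F : G → Fin N → ℤ_[p], SelV R ⊤ F ∧ ∃ (m : ℕ) (z : Fin N → ℤ_[p]), ∀ g ∈ c.ker,
      (p : ℤ_[p]) ^ m • f g = F g + ((R.ρ g).mulVec z - z)

/-- A10. Cocycles with values in `ℚ_p^N` are integral up to a power of `p`. -/
def S_int : Prop := ∀ (p : ℕ) [Fact p.Prime] (N : ℕ) (H : Type) [TopologicalSpace H]
  [CompactSpace H] (c : H → Fin N → ℚ_[p]), Continuous c → ∃ (k : ℕ) (f : H → Fin N → ℤ_[p]),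
    Continuous f ∧ ∀ x j, ((f x j : ℤ_[p]) : ℚ_[p]) = (p : ℚ_[p]) ^ k * c x j

/-! ### B. Local facts -/

/-- B1. The lifting condition at a place where `χ` is unramified and not trivial. -/
def S_cup : Prop := ∀ (K : Type) [Field K] [NumberField K] (p : ℕ) [Fact p.Prime] (ζ : K)
  (hζ : IsPrimitiveRoot ζ p) (v : HS K) (χ : GK K → ZMod p), Hm p χ → Unr v χ →
  (∃ g ∈ Dec (Qv v), χ g ≠ 0) → ∀ (κ : Kˣ) (y : GK K → ZMod p), Continuous y →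
  (∀ g h, y (g * h) = y g + y h + χ g * kp hζ κ h) → (p : ℤ) ∣ od v κ

/-- B2. The elements congruent to `1` modulo a high power of `v` are local `p`-th powers. -/
def S_h0v : Prop := ∀ (K : Type) [Field K] [NumberField K] (p : ℕ) [Fact p.Prime] (ζ : K)
  (hζ : IsPrimitiveRoot ζ p) (v : HS K), (p : 𝓞 K) ∈ v.asIdeal → ∃ m : ℕ, ∀ (x : 𝓞 K)
    (hx : x ≠ 0), x - 1 ∈ v.asIdeal ^ m → ∀ g ∈ Dec (Qv v), kp hζ (ui x hx) g = 0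

/-- B3. A modulus for `H0`, supported in `T`. -/
def S_mod : Prop := ∀ (K : Type) [Field K] [NumberField K] (p : ℕ) [Fact p.Prime] (ζ : K)
  (hζ : IsPrimitiveRoot ζ p) (T : Finset (HS K)),
    ∃ 𝔪 : Ideal (𝓞 K), 𝔪 ≠ ⊥ ∧ (∀ v : HS K, 𝔪 ≤ v.asIdeal → v ∈ T) ∧
      ∀ (x : 𝓞 K) (hx : x ≠ 0), x - 1 ∈ 𝔪 → ui x hx ∈ H0 hζ T

/-- B4. The group of local classes is large. -/
def S_loc : Prop := ∀ (K : Type) [Field K] [NumberField K] (p : ℕ) [Fact p.Prime] (ζ : K)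
  (hζ : IsPrimitiveRoot ζ p) (T : Finset (HS K)) (𝔞 : Ideal (𝓞 K)),
  𝔞 ∣ Ideal.span {(p : 𝓞 K)} → (∀ v : HS K, 𝔞 ≤ v.asIdeal → v ∈ T) →
    Finite (Kˣ ⧸ H0 hζ T) ∧
      p ^ (2 * T.card) * Ideal.absNorm 𝔞 ≤ Nat.card (Kˣ ⧸ H0 hζ T)

/-! ### C. Counting and the choice of primes -/

/-- C1. Selmer groups are finite. -/
def S_sfin : Prop := ∀ (K : Type) [Field K] [NumberField K] [IsTotallyComplex K] (p : ℕ)
  [Fact p.Prime] (ζ : K) (hζ : IsPrimitiveRoot ζ p) (T : Finset (HS K))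
  (lam : HS K → GK K → ZMod p), Finite (Sel hζ T lam)

/-- C2. Counting. -/
def S_ct : Prop := ∀ (K : Type) [Field K] [NumberField K] [IsTotallyComplex K] (p : ℕ)
  [Fact p.Prime] (ζ : K) (hζ : IsPrimitiveRoot ζ p) (T : Finset (HS K)) (𝔞 : Ideal (𝓞 K)),
  𝔞 ∣ Ideal.span {(p : 𝓞 K)} → (∀ v : HS K, 𝔞 ≤ v.asIdeal → v ∈ T) →
  (∀ n : HS K →₀ ℤ, ∃ κ : Kˣ, ∀ v ∉ T, n v = od v κ) → ∀ lam : HS K → GK K → ZMod p,
    Nat.card (Sel hζ T lam) * Ideal.absNorm 𝔞 ≤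
      Nat.card (Cq p T (HL hζ T lam)) * p ^ (Module.finrank ℚ K / 2)

/-- C3. Finite sets of primes generating the class group, disjoint from `U`. -/
def S_cls : Prop := ∀ (K : Type) [Field K] [NumberField K] (T U : Finset (HS K)), Disjoint T U →
  ∃ T' : Finset (HS K), T ⊆ T' ∧ Disjoint T' U ∧
    ∀ n : HS K →₀ ℤ, ∃ κ : Kˣ, ∀ v ∉ T', n v = od v κ

/-- C4. The choice of three primes. -/
def S_pick : Prop := ∀ (K : Type) [Field K] [NumberField K] [IsTotallyComplex K] (p : ℕ)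
  [Fact p.Prime] (ζ : K) (hζ : IsPrimitiveRoot ζ p) (T U : Finset (HS K)) (𝔞 : Ideal (𝓞 K)),
  p ≠ 2 → Disjoint T U → (∀ v : HS K, (p : 𝓞 K) ∈ v.asIdeal → v ∈ T ∨ v ∈ U) →
  𝔞 ∣ Ideal.span {(p : 𝓞 K)} → (∀ v : HS K, 𝔞 ≤ v.asIdeal → v ∈ T) →
  p ^ (Module.finrank ℚ K / 2) ≤ Ideal.absNorm 𝔞 →
  (∀ n : HS K →₀ ℤ, ∃ κ : Kˣ, ∀ v ∉ T, n v = od v κ) → ∀ lam : HS K → GK K → ZMod p,
  p ^ 2 ≤ Nat.card (Sel hζ T lam) →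
    ∃ (v₁ v₂ v₃ : HS K) (κ : Kˣ), v₁ ∉ T ∧ v₂ ∉ T ∧ v₃ ∉ T ∧ v₁ ∉ U ∧ v₂ ∉ U ∧ v₃ ∉ U ∧
      v₁ ≠ v₂ ∧ v₁ ≠ v₃ ∧ v₂ ≠ v₃ ∧ κ ∈ H0 hζ T ∧ κ ∈ H0 hζ U ∧
      (∀ v ∉ T, (p : ℤ) ∣ (Finsupp.single v₁ 1 + Finsupp.single v₂ 1 + Finsupp.single v₃ 1 :
        HS K →₀ ℤ) v + od v κ) ∧
      (∀ a b : ℤ, a • cl p T (HL hζ T lam) v₁ + b • cl p T (HL hζ T lam) v₂ = 0 →
        (p : ℤ) ∣ a ∧ (p : ℤ) ∣ b) ∧
      (∀ a b : ZMod p, (∀ x ∈ Sel hζ T lam, a * x (fr v₁) + b * x (fr v₂) = 0) → a = 0 ∧ b = 0)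

/-- C5. The Selmer group drops. -/
def S_drop : Prop := ∀ (K : Type) [Field K] [NumberField K] (p : ℕ)
  [Fact p.Prime] (ζ : K) (hζ : IsPrimitiveRoot ζ p) (T : Finset (HS K))
  (lam : HS K → GK K → ZMod p), Finite (Sel hζ T lam) →
  ∀ (v₁ v₂ v₃ : HS K) (κ : Kˣ), (p : 𝓞 K) ∉ v₁.asIdeal → (p : 𝓞 K) ∉ v₂.asIdeal →
      (p : 𝓞 K) ∉ v₃.asIdeal → v₁ ∉ T → v₂ ∉ T → v₃ ∉ T → v₁ ≠ v₂ → v₁ ≠ v₃ → v₂ ≠ v₃ →
      κ ∈ H0 hζ T →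
      (∀ v ∉ T, (p : ℤ) ∣ (Finsupp.single v₁ 1 + Finsupp.single v₂ 1 + Finsupp.single v₃ 1 :
        HS K →₀ ℤ) v + od v κ) →
      (∀ a b : ℤ, a • cl p T (HL hζ T lam) v₁ + b • cl p T (HL hζ T lam) v₂ = 0 →
        (p : ℤ) ∣ a ∧ (p : ℤ) ∣ b) →
      (∀ a b : ZMod p, (∀ x ∈ Sel hζ T lam, a * x (fr v₁) + b * x (fr v₂) = 0) →
        a = 0 ∧ b = 0) →
  ∀ χ ∈ Sel hζ T lam, ∀ (T' : Finset (HS K)) (lam' : HS K → GK K → ZMod p),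
    (∀ v, v ∈ T' ↔ v ∈ T ∨ v = v₁ ∨ v = v₂ ∨ v = v₃) →
    (∀ v ∈ T, ∀ g ∈ Dec (Qv v), lam' v g = lam v g) →
    (∀ v ∈ T', v ∉ T → ∀ g ∈ Dec (Qv v), lam' v g = χ g + kp hζ κ g) →
    Nat.card (Sel hζ T' lam') * p ≤ Nat.card (Sel hζ T lam) ∧
    (χ + kp hζ κ) ∈ Sel hζ T' lam' ∧
    ∀ v ∈ T', v ∉ T → ∃ g ∈ Inr (Qv v), χ g + kp hζ κ g ≠ 0

/-- C6. The induction. -/
def S_loop : Prop := ∀ (K : Type) [Field K] [NumberField K] [IsTotallyComplex K] (p : ℕ)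
  [Fact p.Prime] (ζ : K) (hζ : IsPrimitiveRoot ζ p) (T₀ U : Finset (HS K)) (𝔞 : Ideal (𝓞 K)),
  p ≠ 2 → Disjoint T₀ U → (∀ v : HS K, (p : 𝓞 K) ∈ v.asIdeal → v ∈ T₀ ∨ v ∈ U) →
  𝔞 ∣ Ideal.span {(p : 𝓞 K)} → (∀ v : HS K, 𝔞 ≤ v.asIdeal → v ∈ T₀) →
  p ^ (Module.finrank ℚ K / 2) ≤ Ideal.absNorm 𝔞 →
  (∀ n : HS K →₀ ℤ, ∃ κ : Kˣ, ∀ v ∉ T₀, n v = od v κ) → ∀ lam : HS K → GK K → ZMod p,
  ∀ χ₀ ∈ Sel hζ T₀ lam, ∃ (T : Finset (HS K)) (χ : GK K → ZMod p), T₀ ⊆ T ∧ T₀ ≠ T ∧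
    Disjoint T U ∧ Hm p χ ∧ (∀ v ∈ T₀, ∀ g ∈ Dec (Qv v), χ g = χ₀ g) ∧
    (∀ v ∈ U, ∀ g ∈ Dec (Qv v), χ g = χ₀ g) ∧
    (∀ v ∈ T, v ∉ T₀ → ∃ g ∈ Inr (Qv v), χ g ≠ 0) ∧ (∀ v ∉ T, v ∉ U → Unr v χ) ∧
    ∀ lam' : HS K → GK K → ZMod p, (∀ v ∈ T₀, ∀ g ∈ Dec (Qv v), lam' v g = lam v g) →
      (∀ v ∈ T, v ∉ T₀ → ∀ g ∈ Dec (Qv v), lam' v g = χ g) →
      ∀ x ∈ Sel hζ T lam', ∃ a : ZMod p, ∀ g, x g = a * χ g

end Pool.Agent.NH7.BK
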