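import Mathlib
import Pool.Agent.NH7.BK.Stms

/-!
# The lifting condition at a place where the character is unramified and not trivial
-/

set_option autoImplicit false
set_option linter.unusedSectionVars false

namespace Pool.Agent.NH7.BK

open NumberField IsDedekindDomain Pool.Agent.W401.Cheb Pool.Agent.NH7.Sch WithZero
open Pool.Agent.NH7.GU (HS Qv Hm Unr Qv_max Qv_comap)
open scoped Pointwise

namespace Cup

variable {K : Type} [Field K] [NumberField K] {p : ℕ} [hp : Fact p.Prime]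

/-- Kummer theory over a closed subgroup -/
theorem kp_surjH {ζ : K} (hζ : IsPrimitiveRoot ζ p) (H : Subgroup (GK K))
    (hH : IsClosed (H : Set (GK K))) {X : GK K → ZMod p} (hX : Continuous X)
    (hmul : ∀ g ∈ H, ∀ h ∈ H, X (g * h) = X g + X h) :
    ∃ b : AlgebraicClosure K, b ≠ 0 ∧ ∀ τ ∈ H, τ b = zz ζ ^ (X τ).val * b := by
  classical
  have hX1 : X 1 = 0 := by
    have h := hmul 1 H.one_mem 1 H.one_mem
    rw [mul_one] at h
    exact left_eq_add.1 h
  have hXpow : ∀ g ∈ H, ∀ n : ℕ, X (g ^ n) = n * X g := by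
    intro g hg n
    induction n with
    | zero => rw [pow_zero, hX1, Nat.cast_zero, zero_mul]
    | succ n ih => rw [pow_succ, hmul _ (H.pow_mem hg n) _ hg, ih]; push_cast; ring
  have hXinv : ∀ g ∈ H, X g⁻¹ = - X g := by
    intro g hg
    have h := hmul g⁻¹ (H.inv_mem hg) g hg
    rw [inv_mul_cancel, hX1] at h
    exact eq_neg_of_add_eq_zero_left h.symm
  by_cases h0 : ∀ σ ∈ H, X σ = 0
  · exact ⟨1, one_ne_zero, fun τ hτ => by
      rw [h0 τ hτ, ZMod.val_zero, pow_zero, one_mul, map_one]⟩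
  push Not at h0
  obtain ⟨σ₀, hσ₀H, hσ₀⟩ := h0
  set σ : GK K := σ₀ ^ ((X σ₀)⁻¹).val with hσ
  have hσH : σ ∈ H := H.pow_mem hσ₀H _
  have hXσ : X σ = 1 := by
    rw [hσ, hXpow σ₀ hσ₀H]
    simp only [ZMod.natCast_val, ZMod.cast_id', id_eq]
    exact inv_mul_cancel₀ hσ₀
  -- the kernel
  let N : Subgroup (GK K) :=
    { carrier := {g | g ∈ H ∧ X g = 0}
      mul_mem' := fun {a b} ha hb => ⟨H.mul_mem ha.1 hb.1, by
        rw [hmul _ ha.1 _ hb.1, ha.2, hb.2, add_zero]⟩
      one_mem' := ⟨H.one_mem, hX1⟩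
      inv_mem' := fun {a} ha => ⟨H.inv_mem ha.1, by
        rw [hXinv _ ha.1, ha.2, neg_zero]⟩ }
  have hNc : IsClosed (N : Set (GK K)) := hH.inter (isClosed_singleton.preimage hX)
  set M := IntermediateField.fixedField N with hM
  have hfix : M.fixingSubgroup = N := InfiniteGalois.fixingSubgroup_fixedField ⟨N, hNc⟩
  have hmem : ∀ g ∈ H, X g = 0 → ∀ x ∈ M, g x = x := by
    intro g hgH hg x hx
    have h1 : g ∈ M.fixingSubgroup := by
      rw [hfix]
      exact ⟨hgH, hg⟩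
    exact (IntermediateField.mem_fixingSubgroup_iff _ _).1 h1 x hx
  have hval : ∀ g ∈ H, ∀ h ∈ H, X g = X h → ∀ x ∈ M, g x = h x := by
    intro g hg h hh hgh x hx
    have h1 := hmem (h⁻¹ * g) (H.mul_mem (H.inv_mem hh) hg) (by
      rw [hmul _ (H.inv_mem hh) _ hg, hXinv _ hh, hgh, neg_add_cancel]) x hx
    rw [AlgEquiv.mul_apply] at h1
    have h2 := congrArg h h1
    rw [← AlgEquiv.mul_apply, mul_inv_cancel, AlgEquiv.one_apply] at h2
    exact h2
  have hXσp : ∀ j : ZMod p, X (σ ^ j.val) = j := by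
    intro j
    rw [hXpow σ hσH, hXσ, mul_one]
    simp
  -- linear independence
  let ch : ZMod p → (M →* AlgebraicClosure K) := fun j =>
    ((σ ^ j.val : GK K) : AlgebraicClosure K →* AlgebraicClosure K).comp
      (algebraMap M (AlgebraicClosure K) : M →* AlgebraicClosure K)
  have hch : ∀ j (x : M), ch j x = (σ ^ j.val) (x : AlgebraicClosure K) := fun j x => rfl
  have hinj : Function.Injective ch := by
    intro i j hij
    have h1 : (σ ^ i.val)⁻¹ * σ ^ j.val ∈ M.fixingSubgroup := by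
      rw [IntermediateField.mem_fixingSubgroup_iff]
      intro x hx
      have h2 := DFunLike.congr_fun hij ⟨x, hx⟩
      rw [hch, hch] at h2
      rw [AlgEquiv.mul_apply, ← h2, ← AlgEquiv.mul_apply, inv_mul_cancel, AlgEquiv.one_apply]
    rw [hfix] at h1
    have h2 : X ((σ ^ i.val)⁻¹ * σ ^ j.val) = 0 := h1.2
    rw [hmul _ (H.inv_mem (H.pow_mem hσH _)) _ (H.pow_mem hσH _), hXinv _ (H.pow_mem hσH _),
      hXσp, hXσp, neg_add_eq_zero] at h2
    exact h2
  have hli := (linearIndependent_monoidHom M (AlgebraicClosure K)).comp ch hinj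
  rw [Fintype.linearIndependent_iff] at hli
  have hne : ∃ x : M, ∑ j : ZMod p, zz ζ ^ (-j).val * (σ ^ j.val) (x : AlgebraicClosure K) ≠ 0 := by
    by_contra hcon
    push Not at hcon
    have h1 := hli (fun j => zz ζ ^ (-j).val) (by
      funext x
      rw [Finset.sum_apply]
      exact hcon x) 0
    exact pow_ne_zero _ ((zz_prim hζ).ne_zero hp.out.ne_zero) h1
  obtain ⟨x, hx⟩ := hne
  refine ⟨_, hx, fun τ hτ => ?_⟩
  rw [map_sum, Finset.mul_sum]
  refine Fintype.sum_equiv (Equiv.addRight (X τ)) _ _ fun j => ?_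
  rw [Equiv.coe_addRight, map_mul, map_pow, τ.commutes, ← mul_assoc,
    ← pw_add (zz_prim hζ).pow_eq_one, ← AlgEquiv.mul_apply]
  have e : X τ + -(j + X τ) = -j := by ring
  rw [e]
  congr 1
  refine hval _ (H.mul_mem hτ (H.pow_mem hσH _)) _ (H.pow_mem hσH _) ?_ _ x.2
  rw [hmul _ hτ _ (H.pow_mem hσH _), hXσp, hXσp, add_comm]

/-- automorphisms which preserve a prime ideal preserve the valuation -/
theorem val_inv (M : IntermediateField K (AlgebraicClosure K)) [IsGalois K M] [NumberField M]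
    (w : HeightOneSpectrum (𝓞 M)) (γ : M ≃ₐ[K] M)
    (hγ : ∀ a : 𝓞 M, a ∈ w.asIdeal ↔ γ • a ∈ w.asIdeal) (x : M) :
    w.valuation M (γ x) = w.valuation M x := by
  have h1 : γ • w.asIdeal = w.asIdeal := by
    ext a
    rw [Ideal.mem_pointwise_smul_iff_inv_smul_mem, hγ, smul_inv_smul]
  have h2 : ∀ (n : ℕ) (a : 𝓞 M), a ∈ w.asIdeal ^ n ↔ γ • a ∈ w.asIdeal ^ n := by
    intro n a
    have e : γ • (w.asIdeal ^ n) = w.asIdeal ^ n := by
      rw [smul_pow', h1]
    conv_rhs => rw [← e]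
    exact Ideal.smul_mem_pointwise_smul_iff.symm
  have h3 : ∀ a : 𝓞 M, w.intValuation (γ • a) = w.intValuation a := by
    intro a
    by_cases ha : a = 0
    · rw [ha, smul_zero]
    · have ha' : γ • a ≠ 0 := by
        intro h
        apply ha
        rw [← inv_smul_smul γ a, h, smul_zero]
      apply le_antisymm
      · conv_rhs => rw [w.intValuation_if_neg ha]
        rw [w.intValuation_le_pow_iff_mem, ← h2, ← w.intValuation_le_pow_iff_mem,
          w.intValuation_if_neg ha]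
      · conv_rhs => rw [w.intValuation_if_neg ha']
        rw [w.intValuation_le_pow_iff_mem, h2, ← w.intValuation_le_pow_iff_mem,
          w.intValuation_if_neg ha']
  obtain ⟨a, b, hb, rfl⟩ := IsFractionRing.div_surjective (A := 𝓞 M) x
  have e1 : ∀ a : 𝓞 M, γ (algebraMap (𝓞 M) M a) = algebraMap (𝓞 M) M (γ • a) := fun _ => rfl
  rw [map_div₀, e1, e1, map_div₀, map_div₀, HeightOneSpectrum.valuation_of_algebraMap,
    HeightOneSpectrum.valuation_of_algebraMap, HeightOneSpectrum.valuation_of_algebraMap,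
    HeightOneSpectrum.valuation_of_algebraMap, h3, h3]

theorem eq_one_of_pow {t : WithZero (Multiplicative ℤ)} {n : ℕ} (hn : n ≠ 0) (h : t ^ n = 1) :
    t = 1 := by
  rcases lt_trichotomy t 1 with h1 | h1 | h1
  · exact absurd h (pow_lt_one₀ zero_le h1 hn).ne
  · exact h1
  · exact absurd h (one_lt_pow₀ h1 hn).ne'

end Cup

open Cup in
theorem s_cup : S_cup := by
  classical
  intro K _ _ p hp ζ hζ v χ hχ hun hex κ y hy hyy
  obtain ⟨g₀, hg₀, hg₀χ⟩ := hex
  have hχpow : ∀ (g : GK K) (n : ℕ), χ (g ^ n) = n * χ g := by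
    intro g n
    induction n with
    | zero => rw [pow_zero, X_one hχ.m, Nat.cast_zero, zero_mul]
    | succ n ih => rw [pow_succ, hχ.m, ih]; push_cast; ring
  -- an element with χ s = 1
  obtain ⟨s, hs, hsχ⟩ : ∃ s ∈ Dec (Qv v), χ s = 1 := by
    refine ⟨g₀ ^ ((χ g₀)⁻¹).val, (Dec (Qv v)).pow_mem hg₀ _, ?_⟩
    rw [hχpow]
    simp only [ZMod.natCast_val, ZMod.cast_id', id_eq]
    exact inv_mul_cancel₀ hg₀χ
  have hχsi : χ s⁻¹ = -1 := by rw [X_inv hχ.m, hsχ]
  obtain ⟨m, hm0, hm⟩ := kp_surjH hζ (kerX hχ.m) (kerX_closed hχ.c hχ.m) hy (fun g hg h _ => by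
    have h1 := hyy g h
    rw [show χ g = 0 from hg, zero_mul, add_zero] at h1
    exact h1)
  have hm' : ∀ h : GK K, χ h = 0 → h m = zz ζ ^ (y h).val * m := fun h hh => hm h hh
  have hker : ∀ h : GK K, χ h = 0 → χ (s * h * s⁻¹) = 0 := by
    intro h hh
    rw [hχ.m, hχ.m, hh, hsχ, hχsi]
    ring
  have hconj : ∀ h : GK K, χ h = 0 → y (s * h * s⁻¹) = y h + kp hζ κ h := by
    intro h hh
    have h1 := hyy (s * h * s⁻¹) s
    have h2 := hyy s h
    rw [hker h hh, inv_mul_cancel_right, zero_mul, add_zero] at h1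
    rw [h1, hsχ, one_mul] at h2
    linear_combination h2
  have hz0 : zz ζ ≠ 0 := (zz_prim hζ).ne_zero hp.out.ne_zero
  have hr0 : rt p κ ≠ 0 := rt_ne κ
  set u : AlgebraicClosure K := s⁻¹ m / (m * rt p κ) with hu
  have hsm0 : s⁻¹ m ≠ 0 := (map_ne_zero_iff _ (s⁻¹ : GK K).injective).2 hm0
  have hu0 : u ≠ 0 := div_ne_zero hsm0 (mul_ne_zero hm0 hr0)
  have hsm : s⁻¹ m = u * (m * rt p κ) := by
    rw [hu, div_mul_cancel₀ _ (mul_ne_zero hm0 hr0)]
  have hufix : ∀ h : GK K, χ h = 0 → h u = u := by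
    intro h hh
    have e1 : h (s⁻¹ m) = zz ζ ^ (y h).val * zz ζ ^ (kp hζ κ h).val * s⁻¹ m := by
      have e2 : h (s⁻¹ m) = s⁻¹ ((s * h * s⁻¹) m) := by
        rw [← AlgEquiv.mul_apply, ← AlgEquiv.mul_apply]
        congr 1
        group
      rw [e2, hm' _ (hker h hh), hconj h hh, map_mul, map_pow, (s⁻¹ : GK K).commutes,
        pw_add (zz_prim hζ).pow_eq_one]
    have e3 : zz ζ ^ (y h).val ≠ 0 := pow_ne_zero _ hz0
    have e4 : zz ζ ^ (kp hζ κ h).val ≠ 0 := pow_ne_zero _ hz0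
    rw [hu, map_div₀, map_mul, e1, hm' h hh, kp_rt hζ]
    generalize zz ζ ^ (y h).val = a at e3 ⊢
    generalize zz ζ ^ (kp hζ κ h).val = b at e4 ⊢
    generalize s⁻¹ m = c
    field_simp
  have hMfix : ∀ h : GK K, χ h = 0 → h (m ^ p) = m ^ p := by
    intro h hh
    rw [map_pow, hm' h hh, mul_pow, ← pow_mul, mul_comm (y h).val p, pow_mul,
      (zz_prim hζ).pow_eq_one, one_pow, one_mul]
  have hgal := fld_gal hχ.c hχ.m
  have hfin := fld_fin hχ.c hχ.m
  have hnum := NumberField.of_module_finite K (fld hχ.m)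
  set U : fld hχ.m := ⟨u, mem_fld hχ.m hufix⟩ with hU
  set MM : fld hχ.m := ⟨m ^ p, mem_fld hχ.m hMfix⟩ with hMM
  set γ : fld hχ.m ≃ₐ[K] fld hχ.m := AlgEquiv.restrictNormal (s⁻¹ : GK K) (fld hχ.m) with hγd
  have hγ : ∀ z : fld hχ.m, ((γ z : fld hχ.m) : AlgebraicClosure K) = s⁻¹ (z : AlgebraicClosure K) :=
    fun z => AlgEquiv.restrictNormal_commutes (s⁻¹ : GK K) (fld hχ.m) z
  have hγn : ∀ (n : ℕ) (z : fld hχ.m), (((γ ^ n) z : fld hχ.m) : AlgebraicClosure K) =
      ((s⁻¹ : GK K) ^ n) (z : AlgebraicClosure K) := by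
    intro n
    induction n with
    | zero => intro z; rw [pow_zero, pow_zero]; rfl
    | succ n ih =>
      intro z
      rw [pow_succ, pow_succ, AlgEquiv.mul_apply, AlgEquiv.mul_apply, ih, hγ]
  have hMM0 : MM ≠ 0 := by
    intro h
    have h1 := congrArg (fun z : fld hχ.m => (z : AlgebraicClosure K)) h
    exact pow_ne_zero p hm0 h1
  have hrel : γ MM = MM * algebraMap K (fld hχ.m) κ * U ^ p := by
    apply Subtype.ext
    rw [hγ]
    show s⁻¹ (m ^ p) = m ^ p * algebraMap K (AlgebraicClosure K) κ * u ^ p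
    rw [map_pow, hsm, mul_pow, mul_pow, rt_pow]
    ring
  have hind : ∀ n : ℕ, (γ ^ n) MM = MM * (algebraMap K (fld hχ.m) κ) ^ n *
      (∏ i ∈ Finset.range n, (γ ^ i) U) ^ p := by
    intro n
    induction n with
    | zero => simp
    | succ n ih =>
      rw [pow_succ, AlgEquiv.mul_apply, hrel, map_mul, map_mul, map_pow, ih, AlgEquiv.commutes,
        Finset.prod_range_succ, mul_pow, pow_succ]
      ring
  have hpe : (γ ^ p) MM = MM := by
    apply Subtype.ext
    rw [hγn]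
    refine fld_triv hχ.m ?_ MM
    rw [hχpow, hχsi, CharP.cast_eq_zero, zero_mul]
  have hone : (algebraMap K (fld hχ.m) κ * ∏ i ∈ Finset.range p, (γ ^ i) U) ^ p = 1 := by
    have h1 := hind p
    rw [hpe, mul_assoc, ← mul_pow] at h1
    exact (mul_eq_left₀ hMM0).1 h1.symm
  obtain ⟨w, hwI, hw⟩ := exists_place (fld hχ.m) (Qv_max v) (Qv_comap v)
    (fun σ hσ z => fld_triv hχ.m (hun σ hσ) z)
  have hres : ∀ a : 𝓞 (fld hχ.m), (s⁻¹ : GK K) • (algebraMap (𝓞 (fld hχ.m)) (OO K) a) =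
      algebraMap (𝓞 (fld hχ.m)) (OO K) (γ • a) := by
    intro a
    apply RingOfIntegers.ext
    rw [coe_smul]
    exact (hγ (a : fld hχ.m)).symm
  have hinv : ∀ z : fld hχ.m, w.valuation (fld hχ.m) (γ z) = w.valuation (fld hχ.m) z :=
    val_inv (fld hχ.m) w γ (fun a => by
      rw [hwI, Ideal.mem_comap, Ideal.mem_comap, ← hres]
      exact mem_Dec.1 ((Dec (Qv v)).inv_mem hs) _)
  have hinvn : ∀ (n : ℕ) (z : fld hχ.m), w.valuation (fld hχ.m) ((γ ^ n) z) =
      w.valuation (fld hχ.m) z := by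
    intro n
    induction n with
    | zero => intro z; rw [pow_zero]; rfl
    | succ n ih => intro z; rw [pow_succ, AlgEquiv.mul_apply, ih, hinv]
  have h1 : (w.valuation (fld hχ.m) (algebraMap K (fld hχ.m) κ *
      ∏ i ∈ Finset.range p, (γ ^ i) U)) ^ p = 1 := by
    rw [← map_pow, hone, map_one]
  have h2 := eq_one_of_pow hp.out.ne_zero h1
  rw [map_mul, hw, map_prod, Finset.prod_congr rfl (fun i _ => hinvn i U), Finset.prod_const,
    Finset.card_range] at h2
  rw [od_dvd_iff v hp.out.ne_zero]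
  refine ⟨(w.valuation (fld hχ.m) U)⁻¹, ?_⟩
  rw [inv_pow]
  exact eq_inv_of_mul_eq_one_left h2

end Pool.Agent.NH7.BK
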