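import Pool.Agent.NH7.BK.Stms

/-!
# Selmer groups of residually trivial representations: the Selmer group drops (C5)
-/

set_option autoImplicit false
set_option linter.unusedSectionVars false
set_option linter.unusedVariables false

namespace Pool.Agent.NH7.BK

open NumberField IsDedekindDomain Pool.Agent.W401.Cheb Pool.Agent.NH7.Sch Filter Topology
open Pool.Agent.NH7.GU (Cyc Chr HS Qv fr Hm Unr H0 HL Cq cl mem_H0 mem_HL Qv_max Qv_comap)

namespace DropAux

section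

variable {K : Type} [Field K] [NumberField K] {p : ℕ} [hp : Fact p.Prime] {ζ : K}
  (hζ : IsPrimitiveRoot ζ p)

theorem pn {v : HS K} (hv : (p : 𝓞 K) ∉ v.asIdeal) : (p : OO K) ∉ Qv v := by
  intro h
  apply hv
  rw [← Qv_comap v, Ideal.mem_comap, map_natCast]
  exact h

theorem kpHm (κ : Kˣ) : Hm p (kp hζ κ) := ⟨kp_cont hζ κ, kp_mul_right hζ κ⟩

/-- the values at two Frobenius elements -/
noncomputable def L (T : Finset (HS K)) (lam : HS K → GK K → ZMod p) (v₁ v₂ : HS K) :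
    Sel hζ T lam →ₗ[ZMod p] (ZMod p × ZMod p) where
  toFun x := ((x : GK K → ZMod p) (fr v₁), (x : GK K → ZMod p) (fr v₂))
  map_add' x y := rfl
  map_smul' a x := rfl

theorem surj {T : Finset (HS K)} {lam : HS K → GK K → ZMod p} {v₁ v₂ : HS K}
    (h : ∀ a b : ZMod p, (∀ x ∈ Sel hζ T lam, a * x (fr v₁) + b * x (fr v₂) = 0) →
      a = 0 ∧ b = 0) :
    Function.Surjective (L hζ T lam v₁ v₂) := by
  rw [← LinearMap.range_eq_top]
  by_contra hne
  obtain ⟨f, hf0, hf⟩ := Submodule.exists_le_ker_of_lt_top _ (lt_top_iff_ne_top.2 hne)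
  have h1 : ∀ a b : ZMod p, f (a, b) = f (1, 0) * a + f (0, 1) * b := by
    intro a b
    have e : ((a, b) : ZMod p × ZMod p) = a • ((1, 0) : ZMod p × ZMod p) + b • (0, 1) := by
      simp
    rw [e, map_add, map_smul, map_smul, smul_eq_mul, smul_eq_mul]
    ring
  obtain ⟨h2, h3⟩ := h (f (1, 0)) (f (0, 1)) (fun x hx => by
    rw [← h1]
    exact hf ⟨⟨x, hx⟩, rfl⟩)
  apply hf0
  refine LinearMap.ext fun ⟨a, b⟩ => ?_
  rw [h1, h2, h3]
  simp

theorem card {T : Finset (HS K)} {lam : HS K → GK K → ZMod p} {v₁ v₂ : HS K}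
    (hfin : Finite (Sel hζ T lam))
    (h : ∀ a b : ZMod p, (∀ x ∈ Sel hζ T lam, a * x (fr v₁) + b * x (fr v₂) = 0) →
      a = 0 ∧ b = 0) :
    Nat.card (Sel hζ T lam) = Nat.card (LinearMap.ker (L hζ T lam v₁ v₂)) * (p * p) := by
  rw [Submodule.card_eq_card_quotient_mul_card (LinearMap.ker (L hζ T lam v₁ v₂))]
  have e := Nat.card_congr ((L hζ T lam v₁ v₂).quotKerEquivOfSurjective (surj hζ h)).toEquiv
  rw [e, Nat.card_prod, Nat.card_zmod]

end

end DropAux

open DropAux in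
theorem s_drop (h : Pool.Agent.NH7.GU.S_frv) : S_drop := by
  intro K _ _ p _ ζ hζ T lam hfin v₁ v₂ v₃ κ p1 p2 p3 n1 n2 n3 n12 n13 n23 hκ hdiv hcl hind χ hχ
    T' lam' hT' hlam hlam'
  classical
  obtain ⟨κ₀, hκ₀L, hκ₀d, hχe⟩ := hχ
  have hχk : χ = kp hζ κ₀ := funext hχe
  subst hχk
  -- the orders of `κ`
  have od1 : (p : ℤ) ∣ 1 + od v₁ κ := by
    have h1 := hdiv v₁ n1
    simpa [Finsupp.single_apply, n12, n12.symm, n13, n13.symm] using h1
  have od2 : (p : ℤ) ∣ 1 + od v₂ κ := by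
    have h1 := hdiv v₂ n2
    simpa [Finsupp.single_apply, n12, n12.symm, n23, n23.symm] using h1
  have od3 : (p : ℤ) ∣ 1 + od v₃ κ := by
    have h1 := hdiv v₃ n3
    simpa [Finsupp.single_apply, n13, n13.symm, n23, n23.symm] using h1
  have od0 : ∀ v, v ∉ T' → (p : ℤ) ∣ od v κ := by
    intro v hv
    rw [hT'] at hv
    push Not at hv
    have h1 := hdiv v hv.1
    simpa [Finsupp.single_apply, hv.2.1, hv.2.1.symm, hv.2.2.1, hv.2.2.1.symm, hv.2.2.2,
      hv.2.2.2.symm] using h1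
  have hnT : ∀ v, v ∉ T' → v ∉ T := fun v hv h1 => hv ((hT' v).2 (Or.inl h1))
  have hnew : ∀ v ∈ T', v ∉ T → (p : ℤ) ∣ 1 + od v κ := by
    intro v hv hv'
    rcases (hT' v).1 hv with h1 | rfl | rfl | rfl
    · exact absurd h1 hv'
    · exact od1
    · exact od2
    · exact od3
  have hpnew : ∀ v ∈ T', v ∉ T → (p : 𝓞 K) ∉ v.asIdeal := by
    intro v hv hv'
    rcases (hT' v).1 hv with h1 | rfl | rfl | rfl
    · exact absurd h1 hv'
    · exact p1
    · exact p2
    · exact p3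
  -- ramified at the new primes
  have hram : ∀ v ∈ T', v ∉ T → ∃ g ∈ Inr (Qv v), kp hζ κ₀ g + kp hζ κ g ≠ 0 := by
    intro v hv hv'
    by_contra hcon
    push Not at hcon
    have h1 : (p : ℤ) ∣ od v (κ₀ * κ) :=
      od_dvd_of_inr hζ (Qv_max v) (Qv_comap v) fun g hg => by rw [kp_mul_left, hcon g hg]
    rw [od_mul] at h1
    have h2 := dvd_sub (hnew v hv hv') ((dvd_add_right (hκ₀d v hv')).1 h1)
    rw [add_sub_cancel_right] at h2
    have h3 : (p : ℤ) ∣ ((1 : ℕ) : ℤ) := by exact_mod_cast h2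
    exact (Fact.out : p.Prime).one_lt.ne' (Nat.dvd_one.1 (Int.natCast_dvd_natCast.1 h3))
  have hκL : κ ∈ HL hζ T lam := fun v hv => ⟨0, fun g hg => by
    rw [hκ v hv g hg, zero_mul]⟩
  have hval : ∀ g, (kp hζ κ₀ + kp hζ κ) g = kp hζ κ₀ g + kp hζ κ g := fun g => rfl
  have htS : (kp hζ κ₀ + kp hζ κ) ∈ Sel hζ T' lam' := by
    refine ⟨κ₀ * κ, fun v hv => ?_, fun v hv => ?_, fun g => ?_⟩
    · by_cases hvT : v ∈ T
      · obtain ⟨a, ha⟩ := hκ₀L v hvT
        refine ⟨a, fun g hg => ?_⟩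
        rw [kp_mul_left, ha g hg, hκ v hvT g hg, add_zero, hlam v hvT g hg]
      · refine ⟨1, fun g hg => ?_⟩
        rw [hlam' v hv hvT g hg, one_mul, kp_mul_left]
    · rw [od_mul]
      exact dvd_add (hκ₀d v (hnT v hv)) (od0 v hv)
    · rw [hval, kp_mul_left]
  refine ⟨?_, htS, hram⟩
  -- the relations in the class group
  have hmk : ∀ a b c : ℤ, a • cl p T (HL hζ T lam) v₁ + b • cl p T (HL hζ T lam) v₂ +
      c • cl p T (HL hζ T lam) v₃ = QuotientAddGroup.mk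
        (a • Finsupp.single v₁ 1 + b • Finsupp.single v₂ 1 + c • Finsupp.single v₃ 1) := by
    intro a b c
    rfl
  have hzero : ∀ (a b c : ℤ) (k : Kˣ), k ∈ HL hζ T lam → (∀ v ∉ T', (p : ℤ) ∣ od v k) →
      (p : ℤ) ∣ a + od v₁ k → (p : ℤ) ∣ b + od v₂ k → (p : ℤ) ∣ c + od v₃ k →
      a • cl p T (HL hζ T lam) v₁ + b • cl p T (HL hζ T lam) v₂ +
      c • cl p T (HL hζ T lam) v₃ = 0 := by
    intro a b c k hk h0 h1 h2 h3
    rw [hmk, QuotientAddGroup.eq_zero_iff]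
    refine ⟨k, hk, fun v hv => ?_⟩
    by_cases e1 : v = v₁
    · subst e1
      simpa [Finsupp.single_apply, n12, n12.symm, n13, n13.symm] using h1
    by_cases e2 : v = v₂
    · subst e2
      simpa [Finsupp.single_apply, n12, n12.symm, n23, n23.symm] using h2
    by_cases e3 : v = v₃
    · subst e3
      simpa [Finsupp.single_apply, n13, n13.symm, n23, n23.symm] using h3
    have h4 : v ∉ T' := by
      rw [hT']
      push Not
      exact ⟨hv, e1, e2, e3⟩
    have h5 := h0 v h4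
    simpa [Finsupp.single_apply, e1, e2, e3, Ne.symm e1, Ne.symm e2, Ne.symm e3] using h5
  have hrel := hzero 1 1 1 κ hκL od0 od1 od2 od3
  rw [one_smul, one_smul, one_smul] at hrel
  -- the decomposition of the elements
  have hdec : ∀ x : Sel hζ T' lam', ∃ (ρ : ZMod p) (y : LinearMap.ker (L hζ T lam v₁ v₂)),
      (x : GK K → ZMod p) = ((y : Sel hζ T lam) : GK K → ZMod p) +
        ρ • (kp hζ κ₀ + kp hζ κ) := by
    rintro ⟨x, hx⟩
    obtain ⟨k, hkL', hk0, hk⟩ := hx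
    have hxk : x = kp hζ k := funext hk
    subst hxk
    have hkL : k ∈ HL hζ T lam := by
      intro v hv
      obtain ⟨a, ha⟩ := hkL' v ((hT' v).2 (Or.inl hv))
      exact ⟨a, fun g hg => by rw [ha g hg, hlam v hv g hg]⟩
    have h1 := hzero (-od v₁ k) (-od v₂ k) (-od v₃ k) k hkL hk0
      (by rw [neg_add_cancel]; exact dvd_zero _)
      (by rw [neg_add_cancel]; exact dvd_zero _) (by rw [neg_add_cancel]; exact dvd_zero _)
    have h2 : (-od v₁ k + od v₃ k) • cl p T (HL hζ T lam) v₁ +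
        (-od v₂ k + od v₃ k) • cl p T (HL hζ T lam) v₂ = 0 := by
      have e : (-od v₁ k + od v₃ k) • cl p T (HL hζ T lam) v₁ +
          (-od v₂ k + od v₃ k) • cl p T (HL hζ T lam) v₂ =
          ((-od v₁ k) • cl p T (HL hζ T lam) v₁ + (-od v₂ k) • cl p T (HL hζ T lam) v₂ +
            (-od v₃ k) • cl p T (HL hζ T lam) v₃) + od v₃ k • (cl p T (HL hζ T lam) v₁ +
            cl p T (HL hζ T lam) v₂ + cl p T (HL hζ T lam) v₃) := by
        module
      rw [e, h1, hrel, smul_zero, add_zero]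
    obtain ⟨r1, r2⟩ := hcl _ _ h2
    -- `ρ = - od v₃ k`
    set ρ : ℤ := -od v₃ k with hρ
    have hy : ∀ g, (kp hζ k - (ρ : ZMod p) • (kp hζ κ₀ + kp hζ κ)) g =
        kp hζ (k * (κ₀ * κ) ^ (-ρ)) g := by
      intro g
      change kp hζ k g - (ρ : ZMod p) * (kp hζ κ₀ g + kp hζ κ g) = _
      rw [kp_mul_left, kp_zpow, kp_mul_left]
      push_cast
      ring
    have hod : ∀ v ∉ T, (p : ℤ) ∣ od v (k * (κ₀ * κ) ^ (-ρ)) := by
      intro v hv'
      have e : od v (k * (κ₀ * κ) ^ (-ρ)) = od v k - ρ * od v κ₀ - ρ * od v κ := by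
        rw [od_mul, od_zpow, od_mul]
        ring
      rw [e]
      by_cases hv : v ∈ T'
      · have h3 := hnew v hv hv'
        have h4 : (p : ℤ) ∣ od v k + ρ := by
          rcases (hT' v).1 hv with h1 | rfl | rfl | rfl
          · exact absurd h1 hv'
          · have := (dvd_neg (a := (p : ℤ))).2 r1
            have e : -(-od v k + od v₃ k) = od v k + ρ := by rw [hρ]; ring
            rwa [e] at this
          · have := (dvd_neg (a := (p : ℤ))).2 r2
            have e : -(-od v k + od v₃ k) = od v k + ρ := by rw [hρ]; ring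
            rwa [e] at this
          · rw [hρ, add_neg_cancel]
            exact dvd_zero _
        have e : od v k - ρ * od v κ₀ - ρ * od v κ =
            (od v k + ρ) - ρ * (1 + od v κ) - ρ * od v κ₀ := by
          ring
        rw [e]
        exact dvd_sub (dvd_sub h4 (h3.mul_left _)) ((hκ₀d v hv').mul_left _)
      · exact dvd_sub (dvd_sub (hk0 v hv) ((hκ₀d v hv').mul_left _)) ((od0 v hv).mul_left _)
    have hyeq : (kp hζ k - (ρ : ZMod p) • (kp hζ κ₀ + kp hζ κ)) =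
        kp hζ (k * (κ₀ * κ) ^ (-ρ)) := funext hy
    have hyHm : Hm p (kp hζ k - (ρ : ZMod p) • (kp hζ κ₀ + kp hζ κ)) := by
      rw [hyeq]
      exact kpHm hζ _
    have hyval : ∀ g, (kp hζ k - (ρ : ZMod p) • (kp hζ κ₀ + kp hζ κ)) g =
        kp hζ k g - (ρ : ZMod p) * (kp hζ κ₀ g + kp hζ κ g) := fun g => rfl
    have hyUnr : ∀ v ∈ T', v ∉ T → Unr v (kp hζ k - (ρ : ZMod p) • (kp hζ κ₀ + kp hζ κ)) := by
      intro v hv hv' g hg
      rw [hy]
      exact kp_inr_zero hζ (Qv_max v) (Qv_comap v) (pn (hpnew v hv hv')) (hod v hv') hg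
    have hySel : (kp hζ k - (ρ : ZMod p) • (kp hζ κ₀ + kp hζ κ)) ∈ Sel hζ T lam :=
      ⟨k * (κ₀ * κ) ^ (-ρ), Subgroup.mul_mem _ hkL
        (Subgroup.zpow_mem _ (Subgroup.mul_mem _ hκ₀L hκL) _), hod, hy⟩
    have hyfr : ∀ v ∈ T', v ∉ T →
        (kp hζ k - (ρ : ZMod p) • (kp hζ κ₀ + kp hζ κ)) (fr v) = 0 := by
      intro v hv hv'
      obtain ⟨a, ha⟩ := hkL' v hv
      obtain ⟨g0, hg0, hg1⟩ := hram v hv hv'
      have h3 := hyUnr v hv hv' g0 hg0
      rw [hyval, ha g0 (Inr_le _ hg0), hlam' v hv hv' g0 (Inr_le _ hg0), ← sub_mul] at h3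
      have h4 : a - (ρ : ZMod p) = 0 := (mul_eq_zero.1 h3).resolve_right hg1
      obtain ⟨g, hg, hg2⟩ := (h K p 0 Pool.Agent.NH7.GU.Hm.zero v (fun _ _ => rfl)).2.2
      rw [← hg2 _ hyHm (hyUnr v hv hv'), hyval, ha g hg, hlam' v hv hv' g hg, ← sub_mul, h4,
        zero_mul]
    have m1 : v₁ ∈ T' := (hT' v₁).2 (Or.inr (Or.inl rfl))
    have m2 : v₂ ∈ T' := (hT' v₂).2 (Or.inr (Or.inr (Or.inl rfl)))
    refine ⟨(ρ : ZMod p), ⟨⟨_, hySel⟩, ?_⟩, ?_⟩
    · rw [LinearMap.mem_ker]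
      exact Prod.ext (hyfr v₁ m1 n1) (hyfr v₂ m2 n2)
    · exact (sub_add_cancel _ _).symm
  choose ρ y hρy using hdec
  have hinj : Function.Injective (fun x : Sel hζ T' lam' => (ρ x, y x)) := by
    intro x x' hxx
    obtain ⟨e1, e2⟩ := Prod.ext_iff.1 hxx
    apply Subtype.ext
    rw [hρy x, hρy x']
    have e1' : ρ x = ρ x' := e1
    have e2' : y x = y x' := e2
    rw [e1', e2']
  have h1 := Nat.card_le_card_of_injective _ hinj
  rw [Nat.card_prod, Nat.card_zmod] at h1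
  rw [card hζ hfin hind]
  calc Nat.card (Sel hζ T' lam') * p ≤
      (p * Nat.card (LinearMap.ker (L hζ T lam v₁ v₂))) * p := Nat.mul_le_mul_right _ h1
    _ = _ := by ring

end Pool.Agent.NH7.BK
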