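import Pool.Agent.NH7.BK.Stms

/-!
# B2: the elements congruent to `1` modulo a high power of `v` are local `p`-th powers above `p`

Variation of `GU/H0wP.lean`: `(p ^ 3) = v ^ m * J`, `c ∈ J`, `c ∉ v`; with `b ^ p = x` and
`T = c * (b - 1) / (1 - ζ)` one has `∏ (T + c * (1 - ζ ^ i) / (1 - ζ)) = c ^ (p - 1) * (c * (x - 1)) / (1 - ζ) ^ p`,
so `T` is integral and congruent to an element fixed by the decomposition group.
-/

set_option autoImplicit false
set_option linter.unusedSectionVars false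

namespace Pool.Agent.NH7.BK

open NumberField IsDedekindDomain Pool.Agent.W401.Cheb Pool.Agent.NH7.Sch Filter Topology
open Pool.Agent.NH7.GU (Cyc Chr HS Qv fr Hm Unr H0 HL Cq cl mem_H0 mem_HL Qv_max Qv_comap)

namespace H0v

open Finset

section ring

variable {R : Type} [CommRing R] [IsDomain R] {p : ℕ} [hp : Fact p.Prime] {z : R}

/-- the geometric sum -/
def ss (z : R) (i : ℕ) : R := ∑ j ∈ range i, z ^ j

theorem lam_ss (z : R) (i : ℕ) : (1 - z) * ss z i = 1 - z ^ i := by
  unfold ss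
  exact mul_neg_geom_sum z i

theorem lam_ne (hz : IsPrimitiveRoot z p) : (1 - z) ≠ 0 := by
  intro h
  have h1 : z = 1 := (sub_eq_zero.1 h).symm
  have h2 := hz.pow_inj (i := 0) (j := 1) hp.out.pos hp.out.one_lt (by rw [h1]; simp)
  exact zero_ne_one h2

theorem ss_unit (hz : IsPrimitiveRoot z p) {a : ℕ} (h0 : a ≠ 0) (ha : a < p) :
    ∃ u : R, ss z a * u = 1 := by
  have hc : a.Coprime p := by
    rw [Nat.coprime_comm, Nat.Prime.coprime_iff_not_dvd hp.out]
    exact Nat.not_dvd_of_pos_of_lt (Nat.pos_of_ne_zero h0) ha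
  obtain ⟨b, hb⟩ := Nat.exists_mul_mod_eq_one_of_coprime hc hp.out.one_lt
  refine ⟨ss (z ^ a) b, ?_⟩
  apply mul_left_cancel₀ (lam_ne hz)
  rw [← mul_assoc, lam_ss, lam_ss, ← pow_mul, mul_one]
  have h1 : z ^ (a * b) = z := by
    rw [pow_eq_pow_mod _ hz.pow_eq_one, hb.2, pow_one]
  rw [h1]

theorem p_eq (hz : IsPrimitiveRoot z p) :
    (p : R) = (1 - z) ^ (p - 1) * ∏ k ∈ range (p - 1), ss z (k + 1) := by
  have hp1 : p - 1 + 1 = p := Nat.sub_add_cancel hp.out.one_lt.le
  have h1 := IsPrimitiveRoot.prod_one_sub_pow_eq_order (n := p - 1) (μ := z) (by rwa [hp1])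
  have h2 : ((p - 1 : ℕ) : R) + 1 = (p : R) := by
    exact_mod_cast congrArg (fun n : ℕ => (n : R)) hp1
  rw [← h2, ← h1]
  have h3 : ∀ k ∈ range (p - 1), 1 - z ^ (k + 1) = (1 - z) * ss z (k + 1) :=
    fun k _ => (lam_ss z (k + 1)).symm
  rw [Finset.prod_congr rfl h3, Finset.prod_mul_distrib, Finset.prod_const, Finset.card_range]

theorem prod_eq (hz : IsPrimitiveRoot z p) (b : R) :
    b ^ p - 1 = ∏ i ∈ range p, (b - z ^ i) := by
  have h := X_pow_sub_C_eq_prod hz hp.out.pos (one_pow p)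
  have h1 := congrArg (Polynomial.eval b) h
  simpa [Polynomial.eval_prod] using h1

end ring

/-- the power of `v` in `(p ^ 3)` -/
theorem exists_c {K : Type} [Field K] [NumberField K] (p : ℕ) [hp : Fact p.Prime] (v : HS K) :
    ∃ (m : ℕ) (c : 𝓞 K), c ∉ v.asIdeal ∧
      ∀ u : 𝓞 K, u ∈ v.asIdeal ^ m → (p : 𝓞 K) ^ 3 ∣ c * u := by
  have hp0 : (p : 𝓞 K) ≠ 0 := by exact_mod_cast hp.out.ne_zero
  have hI : (Ideal.span {(p : 𝓞 K) ^ 3} : Ideal (𝓞 K)) ≠ 0 := by
    rw [Ne, Ideal.zero_eq_bot, Ideal.span_singleton_eq_bot]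
    exact pow_ne_zero 3 hp0
  obtain ⟨m, J, hJ, hIJ⟩ := WfDvdMonoid.max_power_factor hI v.irreducible
  rw [Ideal.dvd_iff_le] at hJ
  obtain ⟨c, hcJ, hcv⟩ := Set.not_subset.1 hJ
  refine ⟨m, c, hcv, fun u hu => ?_⟩
  rw [← Ideal.mem_span_singleton, hIJ, mul_comm c u]
  exact Ideal.mul_mem_mul hu hcJ

end H0v

open H0v in
theorem s_h0v : S_h0v := by
  intro K _ _ p hp ζ hζ v hpv
  obtain ⟨m0, c0, hc0, hcm⟩ := exists_c p v
  refine ⟨m0, ?_⟩
  intro x hx hxm g hg
  have hdvd := hcm _ hxm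
  set Q := Qv v with hQdef
  have hQm : Q.IsMaximal := Qv_max v
  have hQp : Q.IsPrime := hQm.isPrime
  have hpQ : (p : OO K) ∈ Q := by
    have h1 : (p : 𝓞 K) ∈ Q.comap (algebraMap (𝓞 K) (OO K)) := by
      rw [hQdef, Qv_comap]; exact hpv
    rw [Ideal.mem_comap, map_natCast] at h1
    exact h1
  set c : OO K := algebraMap (𝓞 K) (OO K) c0 with hc
  have hcQ : c ∉ Q := by
    intro h
    apply hc0
    have h1 : c0 ∈ Q.comap (algebraMap (𝓞 K) (OO K)) := Ideal.mem_comap.2 h
    rwa [hQdef, Qv_comap] at h1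
  have hgc : g • c = c := by
    apply RingOfIntegers.ext
    rw [coe_smul]
    exact g.commutes (c0 : K)
  have hz : IsPrimitiveRoot (zi hζ) p := by
    have h1 : IsPrimitiveRoot ((algebraMap (OO K) (AlgebraicClosure K)) (zi hζ)) p := zz_prim hζ
    exact h1.of_map_of_injective RingOfIntegers.coe_injective
  set z : OO K := zi hζ with hzdef
  have hgz : g • z = z := by
    apply RingOfIntegers.ext
    rw [coe_smul, hzdef, coe_zi]
    exact g.commutes ζ
  -- the root
  have hb := rt_pow (p := p) (ui x hx)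
  have hint : IsIntegral ℤ (rt p (ui x hx)) := by
    refine IsIntegral.of_pow hp.out.pos ?_
    rw [hb]
    exact ((RingOfIntegers.isIntegral_coe x).map
      (Algebra.ofId K (AlgebraicClosure K) |>.restrictScalars ℤ))
  set B : OO K := ⟨rt p (ui x hx), hint⟩ with hB
  have hBp : B ^ p = algebraMap (𝓞 K) (OO K) x := by
    apply RingOfIntegers.ext
    have e1 : ((B ^ p : OO K) : AlgebraicClosure K) = rt p (ui x hx) ^ p := rfl
    rw [e1, hb]
    rfl
  obtain ⟨y0, hy0⟩ := hdvd
  set y : OO K := algebraMap (𝓞 K) (OO K) y0 with hy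
  have hBy : c * (B ^ p - 1) = (p : OO K) ^ 3 * y := by
    have h1 := congrArg (algebraMap (𝓞 K) (OO K)) hy0
    rw [map_mul, map_sub, map_one, map_mul, map_pow, map_natCast, ← hBp] at h1
    exact h1
  set S : OO K := ∏ k ∈ Finset.range (p - 1), ss z (k + 1) with hS
  have hpS : (p : OO K) = (1 - z) ^ (p - 1) * S := p_eq hz
  -- the uniformizer
  have hone : (1 : OO K) ∉ Q := fun h => hQm.ne_top ((Ideal.eq_top_iff_one Q).2 h)
  have hunit : ∀ a : ℕ, a ≠ 0 → a < p → ss z a ∉ Q := by
    intro a h0 ha h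
    obtain ⟨u, hu⟩ := ss_unit hz h0 ha
    apply hone
    rw [← hu]
    exact Q.mul_mem_right _ h
  have hlam : 1 - z ∈ Q := by
    rw [hpS] at hpQ
    rcases hQp.mem_or_mem hpQ with h | h
    · exact hQp.mem_of_pow_mem _ h
    · exfalso
      obtain ⟨k, hk, hk2⟩ := (Ideal.IsPrime.prod_mem_iff (p := Q)).1 h
      have hk' := Finset.mem_range.1 hk
      exact hunit (k + 1) (Nat.succ_ne_zero k) (by omega) hk2
  set m : OO K := c ^ (p - 1) * ((1 - z) ^ (2 * p - 3) * S ^ 3 * y) with hm
  have hp2 := hp.out.two_le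
  have hmQ : m ∈ Q := by
    rw [hm, mul_assoc ((1 - z) ^ (2 * p - 3))]
    exact Q.mul_mem_left _ (Q.mul_mem_right _ (Q.pow_mem_of_mem hlam _ (by omega)))
  have hlne := lam_ne hz
  have hlne' : ((1 - z : OO K) : AlgebraicClosure K) ≠ 0 := by
    intro h
    exact hlne (RingOfIntegers.ext h)
  -- the element `t`
  set t : AlgebraicClosure K := ((c * (B - 1) : OO K) : AlgebraicClosure K) /
    ((1 - z : OO K) : AlgebraicClosure K) with ht
  have hlt : ((1 - z : OO K) : AlgebraicClosure K) * t =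
      ((c * (B - 1) : OO K) : AlgebraicClosure K) := by
    rw [ht, mul_div_cancel₀ _ hlne']
  have hprod : ∏ i ∈ Finset.range p, (t + ((c * ss z i : OO K) : AlgebraicClosure K)) =
      (m : AlgebraicClosure K) := by
    apply mul_left_cancel₀ (pow_ne_zero p hlne')
    have h1 : ∀ i ∈ Finset.range p, ((c * (B - z ^ i) : OO K) : AlgebraicClosure K) =
        ((1 - z : OO K) : AlgebraicClosure K) *
          (t + ((c * ss z i : OO K) : AlgebraicClosure K)) := by
      intro i _
      rw [mul_add, hlt, ← map_mul, ← map_add]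
      congr 1
      have h2 := lam_ss z i
      linear_combination (-c) * h2
    have h2 : ((c ^ p * (B ^ p - 1) : OO K) : AlgebraicClosure K) =
        ∏ i ∈ Finset.range p, ((c * (B - z ^ i) : OO K) : AlgebraicClosure K) := by
      rw [show c ^ p * (B ^ p - 1) = ∏ i ∈ Finset.range p, (c * (B - z ^ i)) by
        rw [Finset.prod_mul_distrib, Finset.prod_const, Finset.card_range, prod_eq hz B]]
      exact map_prod (algebraMap (OO K) (AlgebraicClosure K)) _ _
    rw [Finset.prod_congr rfl h1, Finset.prod_mul_distrib, Finset.prod_const,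
      Finset.card_range] at h2
    rw [← h2, ← map_pow (algebraMap (OO K) (AlgebraicClosure K)),
      ← map_mul (algebraMap (OO K) (AlgebraicClosure K))]
    congr 1
    have e : ((1 - z) ^ (p - 1) * S) ^ 3 = (1 - z) ^ p * (1 - z) ^ (2 * p - 3) * S ^ 3 := by
      rw [mul_pow, ← pow_mul, ← pow_add]
      congr 2
      omega
    have e2 : c ^ p = c ^ (p - 1) * c := by
      rw [← pow_succ]
      congr 1
      omega
    rw [e2, mul_assoc, hBy, hpS, e, hm]
    ring
  have hti : IsIntegral ℤ t := by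
    have h1 : IsIntegral (OO K) t := by
      let P : Polynomial (OO K) := ∏ i ∈ Finset.range p, (Polynomial.X + Polynomial.C (c * ss z i))
      have hPm : P.Monic := Polynomial.monic_prod_of_monic _ _ fun i _ =>
        Polynomial.monic_X_add_C _
      have hPd : P.natDegree = p := by
        rw [Polynomial.natDegree_prod_of_monic _ _ fun i _ => Polynomial.monic_X_add_C _,
          Finset.sum_congr rfl fun i _ => Polynomial.natDegree_X_add_C (c * ss z i)]
        simp
      refine ⟨P - Polynomial.C m, ?_, ?_⟩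
      · apply hPm.sub_of_left
        refine lt_of_le_of_lt Polynomial.degree_C_le ?_
        rw [Polynomial.degree_eq_natDegree hPm.ne_zero, hPd]
        exact_mod_cast hp.out.pos
      · rw [Polynomial.eval₂_sub, Polynomial.eval₂_C, Polynomial.eval₂_finsetProd, sub_eq_zero]
        refine Eq.trans ?_ hprod
        refine Finset.prod_congr rfl fun i _ => ?_
        rw [Polynomial.eval₂_add, Polynomial.eval₂_X, Polynomial.eval₂_C]
    exact isIntegral_trans (R := ℤ) (A := OO K) t h1
  set T : OO K := ⟨t, hti⟩ with hT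
  have hlT : (1 - z) * T = c * (B - 1) := RingOfIntegers.ext hlt
  have hprodT : ∏ i ∈ Finset.range p, (T + c * ss z i) = m := by
    apply RingOfIntegers.ext
    refine Eq.trans ?_ hprod
    exact map_prod (algebraMap (OO K) (AlgebraicClosure K)) _ _
  rw [← hprodT] at hmQ
  obtain ⟨i, -, hiQ⟩ := (Ideal.IsPrime.prod_mem_iff (p := Q)).1 hmQ
  have hgs : g • ss z i = ss z i := by
    unfold ss
    rw [Finset.smul_sum]
    refine Finset.sum_congr rfl fun j _ => ?_
    rw [smul_pow', hgz]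
  have hg2 : g • T - T ∈ Q := by
    have h1 := (hg (T + c * ss z i)).1 hiQ
    rw [smul_add, smul_mul', hgs, hgc] at h1
    have h2 := Q.sub_mem h1 hiQ
    rwa [add_sub_add_right_eq_sub] at h2
  set a := kp hζ (ui x hx) g with ha
  have hgB : g • B = z ^ a.val * B := RingOfIntegers.ext (kp_rt hζ (ui x hx) g)
  have hgT : g • T - T = - (ss z a.val * (c * B)) := by
    apply mul_left_cancel₀ hlne
    have h1 : g • ((1 - z) * T) = g • (c * (B - 1)) := by rw [hlT]
    rw [smul_mul', smul_mul', smul_sub, smul_sub, hgz, hgB, hgc, smul_one] at h1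
    have h2 := lam_ss z a.val
    rw [mul_sub, h1, hlT]
    linear_combination (c * B) * h2
  have hBQ : c * B ∉ Q := by
    intro h
    have hB2 := (hQp.mem_or_mem h).resolve_left hcQ
    apply hcQ
    have h1 : c = c * B ^ p - (p : OO K) ^ 3 * y := by rw [← hBy]; ring
    rw [h1]
    exact Q.sub_mem (Q.mul_mem_left _ (Q.pow_mem_of_mem hB2 _ hp.out.pos))
      (Q.mul_mem_right _ (Q.pow_mem_of_mem hpQ _ (by norm_num)))
  rw [hgT, neg_mem_iff] at hg2
  have hsa := (hQp.mem_or_mem hg2).resolve_right hBQ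
  by_contra hne
  have h0 : a.val ≠ 0 := fun h => hne ((ZMod.val_eq_zero a).1 h)
  exact hunit a.val h0 (ZMod.val_lt a) hsa

end Pool.Agent.NH7.BK
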