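import Pool.Agent.NH7.BK.Stms

/-!
# Cocycles with values in `ℚ_p^N` are integral up to a power of `p`
-/

set_option autoImplicit false

namespace Pool.Agent.NH7.BK

theorem s_int : S_int := by
  intro p hp N H _ _ c hc
  obtain ⟨B, hB⟩ := isCompact_univ.exists_bound_of_continuousOn hc.continuousOn
  have hp1 : (1 : ℝ) < (p : ℝ) := by exact_mod_cast hp.out.one_lt
  obtain ⟨k, hk⟩ := pow_unbounded_of_one_lt B hp1
  have hb : ∀ x j, ‖(p : ℚ_[p]) ^ k * c x j‖ ≤ 1 := by
    intro x j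
    have h1 : ‖c x j‖ ≤ B := (norm_le_pi_norm (c x) j).trans (hB x (Set.mem_univ x))
    have h2 : ‖(p : ℚ_[p])‖ = (p : ℝ)⁻¹ := Padic.norm_p
    rw [norm_mul, norm_pow, h2, inv_pow]
    have h3 : (0 : ℝ) < (p : ℝ) ^ k := pow_pos (by linarith) k
    rw [inv_mul_le_iff₀ h3, mul_one]
    linarith
  refine ⟨k, fun x j => ⟨(p : ℚ_[p]) ^ k * c x j, hb x j⟩, ?_, fun x j => rfl⟩
  apply continuous_pi
  intro j
  apply Continuous.subtype_mk
  exact continuous_const.mul ((continuous_apply j).comp hc)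

end Pool.Agent.NH7.BK
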