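import Pool.Agent.NH7.BK.Stms

/-! # The lifting condition for the `O`-valued cocycles -/

set_option autoImplicit false
set_option linter.unusedSectionVars false

namespace Pool.Agent.NH7.BK

open NumberField IsDedekindDomain Pool.Agent.W401.Cheb Pool.Agent.NH7.Sch Filter Topology
open Pool.Agent.NH7.GU (Cyc Chr HS Qv fr Hm Unr H0 HL Cq cl mem_H0 mem_HL)

namespace Lift9

variable {p : ℕ} [hp : Fact p.Prime] {O : Type} [CommRing O] [Algebra ℤ_[p] O] (C : Cyc p O)

theorem ev_zero {x : O} (h : (C.z - 1) ∣ x) : C.ev x = 0 := by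
  obtain ⟨y, rfl⟩ := h
  rw [map_mul, map_sub, C.ev_z, map_one, sub_self, zero_mul]

theorem ev_zero_of_sq {x : O} (h : (C.z - 1) ^ 2 ∣ (C.z - 1) * x) : C.ev x = 0 := by
  obtain ⟨y, hy⟩ := h
  apply ev_zero
  refine ⟨y, ?_⟩
  have h1 : (C.z - 1) * (x - (C.z - 1) * y) = 0 := by linear_combination hy
  have h2 := C.inj _ h1
  linear_combination h2

/-- the standard representatives -/
def T (O : Type) [CommRing O] (a : ZMod p) : O := ((a.val : ℕ) : O)

theorem ev_T (a : ZMod p) : C.ev (T O a) = a := by
  rw [T, map_natCast, ZMod.natCast_zmod_val]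

theorem p_sq (h2 : p ≠ 2) : (C.z - 1) ^ 2 ∣ (p : O) := by
  have h := C.sq (p : ℤ_[p]) dvd_rfl (fun h => absurd h h2)
  rwa [map_natCast] at h

theorem T_add (h2 : p ≠ 2) (a b : ZMod p) : (C.z - 1) ^ 2 ∣ (T O a + T O b - T O (a + b) : O) := by
  have h1 : a.val + b.val = (a + b).val + p * ((a.val + b.val) / p) := by
    rw [ZMod.val_add]
    exact (Nat.mod_add_div _ _).symm
  have h3 : (T O a + T O b - T O (a + b) : O) = (p : O) * (((a.val + b.val) / p : ℕ) : O) := by
    have h4 := congrArg (fun n : ℕ => (n : O)) h1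
    simp only [Nat.cast_add, Nat.cast_mul] at h4
    unfold T
    linear_combination h4
  rw [h3]
  exact (p_sq C h2).mul_right _

theorem z_pow_exp (n : ℕ) : (C.z - 1) ^ 2 ∣ C.z ^ n - 1 - (n : O) * (C.z - 1) := by
  induction n with
  | zero => simp
  | succ n ih =>
    obtain ⟨r, hr⟩ := ih
    refine ⟨r * C.z + n, ?_⟩
    push_cast
    rw [pow_succ]
    linear_combination C.z * hr

theorem map_one_dvd {G : Type} [Group G] [TopologicalSpace G] {d : Pl G} {N : ℕ} (h2 : p ≠ 2)
    (R : Rp p d N) (g : G) (u : Fin N → O) (j : Fin N) :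
    (C.z - 1) ^ 2 ∣ (R.mO O g).mulVec u j - u j := by
  have h1 : (R.mO O g).mulVec u j - u j =
      ∑ k, (algebraMap ℤ_[p] O ((R.ρ g - 1) j k)) * u k := by
    have h3 : u j = ∑ k, ((1 : Matrix (Fin N) (Fin N) O) j k) * u k := by
      have := congrFun (Matrix.one_mulVec u) j
      rw [← this]
      simp only [Matrix.mulVec, dotProduct]
    rw [h3]
    simp only [Matrix.mulVec, dotProduct, Rp.mO, Matrix.map_apply]
    rw [← Finset.sum_sub_distrib]
    refine Finset.sum_congr rfl fun k _ => ?_
    rw [Matrix.sub_apply, map_sub, sub_mul]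
    congr 2
    rw [Matrix.one_apply, Matrix.one_apply]
    split_ifs <;> simp
  rw [h1]
  refine Finset.dvd_sum fun k _ => ?_
  exact (C.sq _ (R.one g j k) (fun h => absurd h h2)).mul_right _

end Lift9

open Lift9 in
theorem s_lift : S_lift := by
  intro p _ O _ _ C G _ _ _ d c N R F h2 hF j
  have hY : ∀ g, ∃ Y : O, F g j - T O (C.ev (F g j)) = (C.z - 1) * Y := by
    intro g
    apply C.ker
    rw [map_sub, ev_T, sub_self]
  choose Y hY using hY
  refine ⟨fun g => C.ev (Y g), ?_, ?_⟩
  · rw [continuous_iff_continuousAt]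
    intro g
    have h1 : ∀ᶠ h in 𝓝 g, C.ev (Y g) = C.ev (Y h) := by
      filter_upwards [hF.cont 2 g] with h hh
      have h3 := hh j
      have h4 : C.ev (F h j) = C.ev (F g j) := by
        have h5 : C.ev (F h j - F g j) = 0 :=
          ev_zero C ((dvd_pow_self _ (by norm_num)).trans h3)
        rw [map_sub, sub_eq_zero] at h5
        exact h5
      have h6 : C.ev (Y h - Y g) = 0 := by
        apply ev_zero_of_sq C
        have h7 : (C.z - 1) * (Y h - Y g) = F h j - F g j := by
          have a1 := hY h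
          have a2 := hY g
          rw [h4] at a1
          linear_combination a2 - a1
        rw [h7]
        exact h3
      rw [map_sub, sub_eq_zero] at h6
      exact h6.symm
    exact tendsto_const_nhds.congr' h1
  · intro g h
    have hm : F (g * h) j = F g j + C.z ^ (c.χ g).val * (R.mO O g).mulVec (F h) j := by
      rw [hF.mul g h]
      simp only [Pi.add_apply, Pi.smul_apply, smul_eq_mul]
    have h3 := map_one_dvd C h2 R g (F h) j
    have h4 : C.ev ((R.mO O g).mulVec (F h) j) = C.ev (F h j) := by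
      have := ev_zero C ((dvd_pow_self _ (by norm_num)).trans h3)
      rw [map_sub, sub_eq_zero] at this
      exact this
    have h5 : C.ev (F (g * h) j) = C.ev (F g j) + C.ev (F h j) := by
      rw [hm, map_add, map_mul, map_pow, C.ev_z, one_pow, one_mul, h4]
    have h6 : C.ev (Y (g * h) - Y g - Y h - ((c.χ g).val : O) * F h j) = 0 := by
      apply ev_zero_of_sq C
      have a0 := hY (g * h)
      have a1 := hY g
      have a2 := hY h
      rw [h5] at a0
      have h7 : (C.z - 1) * (Y (g * h) - Y g - Y h - ((c.χ g).val : O) * F h j) =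
          C.z ^ (c.χ g).val * ((R.mO O g).mulVec (F h) j - F h j) +
          (C.z ^ (c.χ g).val - 1 - ((c.χ g).val : O) * (C.z - 1)) * F h j +
          (T O (C.ev (F g j)) + T O (C.ev (F h j)) - T O (C.ev (F g j) + C.ev (F h j))) := by
        linear_combination a1 + a2 - a0 + hm
      rw [h7]
      exact dvd_add (dvd_add (h3.mul_left _) ((z_pow_exp C _).mul_right _)) (T_add C h2 _ _)
    rw [map_sub, map_sub, map_sub, map_mul, map_natCast, ZMod.natCast_zmod_val] at h6
    show C.ev (Y (g * h)) = C.ev (Y g) + C.ev (Y h) + c.χ g * C.ev (F h j)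
    linear_combination h6

end Pool.Agent.NH7.BK
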