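import Pool.Agent.NH7.BK.Stms

/-!
# Going up for Bloch-Kato Selmer groups: the induction (C6)
-/

set_option autoImplicit false
set_option linter.unusedSectionVars false

namespace Pool.Agent.NH7.BK

open NumberField IsDedekindDomain Pool.Agent.W401.Cheb Pool.Agent.NH7.Sch Filter Topology
open Pool.Agent.NH7.GU (Cyc Chr HS Qv fr Hm Unr H0 HL Cq cl mem_H0 mem_HL Qv_max Qv_comap)

namespace Loop

section loop

variable {K : Type} [Field K] [NumberField K] {p : ℕ} [hp : Fact p.Prime]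

theorem HL_congr {ζ : K} (hζ : IsPrimitiveRoot ζ p) {S : Finset (HS K)}
    {lam lam' : HS K → GK K → ZMod p}
    (h : ∀ v ∈ S, ∀ g ∈ Dec (Qv v), lam v g = lam' v g) : HL hζ S lam = HL hζ S lam' := by
  ext κ
  rw [mem_HL, mem_HL]
  constructor
  · intro h1 v hv
    obtain ⟨a, ha⟩ := h1 v hv
    exact ⟨a, fun g hg => by rw [ha g hg, h v hv g hg]⟩
  · intro h1 v hv
    obtain ⟨a, ha⟩ := h1 v hv
    exact ⟨a, fun g hg => by rw [ha g hg, h v hv g hg]⟩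

theorem Sel_congr {ζ : K} (hζ : IsPrimitiveRoot ζ p) {S : Finset (HS K)}
    {lam lam' : HS K → GK K → ZMod p}
    (h : ∀ v ∈ S, ∀ g ∈ Dec (Qv v), lam v g = lam' v g) : Sel hζ S lam = Sel hζ S lam' := by
  ext x
  rw [mem_Sel, mem_Sel, HL_congr hζ h]

open Classical in
/-- the local conditions of a state of the induction -/
noncomputable def lamf (S₀ : Finset (HS K)) (lam : HS K → GK K → ZMod p) (χ : GK K → ZMod p)
    (v : HS K) : GK K → ZMod p := if v ∈ S₀ then lam v else χ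

theorem lamf_mem {S₀ : Finset (HS K)} {lam : HS K → GK K → ZMod p} {χ : GK K → ZMod p} {v : HS K}
    (h : v ∈ S₀) : lamf S₀ lam χ v = lam v := if_pos h

theorem lamf_not {S₀ : Finset (HS K)} {lam : HS K → GK K → ZMod p} {χ : GK K → ZMod p} {v : HS K}
    (h : v ∉ S₀) : lamf S₀ lam χ v = χ := if_neg h

/-- a state of the induction -/
structure LState {ζ : K} (hζ : IsPrimitiveRoot ζ p) (S₀ U : Finset (HS K))
    (lam : HS K → GK K → ZMod p) (χ₀ : GK K → ZMod p)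
    (S : Finset (HS K)) (χ : GK K → ZMod p) : Prop where
  sub : S₀ ⊆ S
  ne : S₀ ≠ S
  disj : Disjoint S U
  mem : χ ∈ Sel hζ S (lamf S₀ lam χ)
  eq : ∀ v ∈ S₀, ∀ g ∈ Dec (Qv v), χ g = χ₀ g
  eqU : ∀ v ∈ U, ∀ g ∈ Dec (Qv v), χ g = χ₀ g
  ram : ∀ v ∈ S, v ∉ S₀ → ∃ g ∈ Inr (Qv v), χ g ≠ 0

theorem od_of_H0 {ζ : K} (hζ : IsPrimitiveRoot ζ p) {U : Finset (HS K)} {κ : Kˣ}
    (hκ : κ ∈ H0 hζ U) {v : HS K} (hv : v ∈ U) : (p : ℤ) ∣ od v κ :=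
  od_dvd_of_inr hζ (Qv_max v) (Qv_comap v) fun g hg => mem_H0 hζ |>.1 hκ v hv g (Inr_le _ hg)

theorem loop_start (h3 : Pool.Agent.NH7.GU.S_aux) [IsTotallyComplex K] {ζ : K}
    (hζ : IsPrimitiveRoot ζ p) {S₀ U : Finset (HS K)} (hd : Disjoint S₀ U)
    (hp0 : ∀ v : HS K, (p : 𝓞 K) ∈ v.asIdeal → v ∈ S₀ ∨ v ∈ U)
    {lam : HS K → GK K → ZMod p} {χ₀ : GK K → ZMod p} (hχ : χ₀ ∈ Sel hζ S₀ lam) :
    ∃ (S : Finset (HS K)) (χ : GK K → ZMod p), LState hζ S₀ U lam χ₀ S χ := by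
  classical
  obtain ⟨v₁, v₂, κ, hv1, hv2, h12, hκ, hod⟩ := h3 K p ζ hζ (S₀ ∪ U) (fun v hv =>
    Finset.mem_union.2 (hp0 v hv))
  rw [mem_Sel] at hχ
  obtain ⟨κ₀, hκ₀, hod₀, hχ₀⟩ := hχ
  rw [Finset.mem_union, not_or] at hv1 hv2
  have hκS : ∀ v ∈ S₀, ∀ g ∈ Dec (Qv v), kp hζ κ g = 0 := fun v hv =>
    hκ v (Finset.mem_union_left _ hv)
  have hκU : ∀ v ∈ U, ∀ g ∈ Dec (Qv v), kp hζ κ g = 0 := fun v hv =>
    hκ v (Finset.mem_union_right _ hv)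
  have hS' : ∀ v, v ∈ insert v₁ (insert v₂ S₀) ↔ v = v₁ ∨ v = v₂ ∨ v ∈ S₀ := by
    intro v
    rw [Finset.mem_insert, Finset.mem_insert]
  refine ⟨insert v₁ (insert v₂ S₀), χ₀ + kp hζ κ, ?_, ?_, ?_, ?_, ?_, ?_, ?_⟩
  · intro v hv
    exact (hS' v).2 (Or.inr (Or.inr hv))
  · intro h
    apply hv1.1
    rw [h]
    exact (hS' v₁).2 (Or.inl rfl)
  · rw [Finset.disjoint_left]
    intro v hv hvU
    rcases (hS' v).1 hv with h | h | h
    · exact hv1.2 (h ▸ hvU)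
    · exact hv2.2 (h ▸ hvU)
    · exact Finset.disjoint_left.1 hd h hvU
  · rw [mem_Sel]
    refine ⟨κ₀ * κ, ?_, fun v hv => ?_, fun g => ?_⟩
    · rw [mem_HL]
      intro v hv
      by_cases hv0 : v ∈ S₀
      · obtain ⟨a, ha⟩ := (mem_HL hζ).1 hκ₀ v hv0
        refine ⟨a, fun g hg => ?_⟩
        rw [lamf_mem hv0, kp_mul_left, ha g hg, hκS v hv0 g hg, add_zero]
      · refine ⟨1, fun g _ => ?_⟩
        rw [lamf_not hv0, one_mul, Pi.add_apply, kp_mul_left, hχ₀]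
    · rw [hS'] at hv
      push Not at hv
      obtain ⟨h1, h2, h0⟩ := hv
      rw [od_mul]
      refine dvd_add (hod₀ v h0) ?_
      by_cases hvU : v ∈ U
      · exact od_of_H0 hζ (U := U) ((mem_H0 hζ).2 hκU) hvU
      · have := hod v (by rw [Finset.mem_union, not_or]; exact ⟨h0, hvU⟩)
        rwa [Finsupp.add_apply, Finsupp.single_eq_of_ne h1,
          Finsupp.single_eq_of_ne h2, add_zero, zero_add] at this
    · rw [Pi.add_apply, kp_mul_left, hχ₀]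
  · intro v hv g hg
    rw [Pi.add_apply, hκS v hv g hg, add_zero]
  · intro v hv g hg
    rw [Pi.add_apply, hκU v hv g hg, add_zero]
  · intro v hv hv0
    by_contra hcon
    push Not at hcon
    have hvU : v ∉ U := by
      rcases (hS' v).1 hv with h | h | h
      · exact h ▸ hv1.2
      · exact h ▸ hv2.2
      · exact absurd h hv0
    have h5 : ∀ g ∈ Inr (Qv v), kp hζ (κ₀ * κ) g = 0 := by
      intro g hg
      have := hcon g hg
      rwa [Pi.add_apply, hχ₀, ← kp_mul_left] at this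
    have h6 := od_dvd_of_inr hζ (Qv_max v) (Qv_comap v) h5
    rw [od_mul] at h6
    have h6' := (Int.dvd_add_right (hod₀ v hv0)).1 h6
    have h7 := (Int.dvd_add_left h6').1 (hod v (by
      rw [Finset.mem_union, not_or]; exact ⟨hv0, hvU⟩))
    have h8 : (Finsupp.single v₁ 1 + Finsupp.single v₂ 1 : HS K →₀ ℤ) v = 1 := by
      rcases (hS' v).1 hv with h | h | h
      · rw [h, Finsupp.add_apply, Finsupp.single_eq_same, Finsupp.single_eq_of_ne h12, add_zero]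
      · rw [h, Finsupp.add_apply, Finsupp.single_eq_same, Finsupp.single_eq_of_ne h12.symm, zero_add]
      · exact absurd h hv0
    rw [h8] at h7
    have h9 := Int.le_of_dvd one_pos h7
    have := hp.out.two_le
    omega

theorem loop_step (h1 : S_pick) (h2 : S_drop) (h4 : S_sfin) [IsTotallyComplex K] {ζ : K}
    (hζ : IsPrimitiveRoot ζ p) {S₀ U : Finset (HS K)} {𝔞 : Ideal (𝓞 K)} (hp2 : p ≠ 2)
    (hp0 : ∀ v : HS K, (p : 𝓞 K) ∈ v.asIdeal → v ∈ S₀ ∨ v ∈ U)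
    (ha1 : 𝔞 ∣ Ideal.span {(p : 𝓞 K)}) (ha2 : ∀ v : HS K, 𝔞 ≤ v.asIdeal → v ∈ S₀)
    (ha3 : p ^ (Module.finrank ℚ K / 2) ≤ Ideal.absNorm 𝔞)
    (hcl : ∀ n : HS K →₀ ℤ, ∃ κ : Kˣ, ∀ v ∉ S₀, n v = od v κ)
    {lam : HS K → GK K → ZMod p} {χ₀ : GK K → ZMod p} {S : Finset (HS K)} {χ : GK K → ZMod p}
    (hs : LState hζ S₀ U lam χ₀ S χ) (hc : p ^ 2 ≤ Nat.card (Sel hζ S (lamf S₀ lam χ))) :
    ∃ (S' : Finset (HS K)) (χ' : GK K → ZMod p), LState hζ S₀ U lam χ₀ S' χ' ∧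
      Nat.card (Sel hζ S' (lamf S₀ lam χ')) < Nat.card (Sel hζ S (lamf S₀ lam χ)) := by
  classical
  have hpS : ∀ v : HS K, (p : 𝓞 K) ∈ v.asIdeal → v ∈ S ∨ v ∈ U := fun v hv =>
    (hp0 v hv).imp (fun h => hs.sub h) id
  obtain ⟨v₁, v₂, v₃, κ, a1, a2, a3, u1, u2, u3, a12, a13, a23, hκ, hκU, hod, hind, hind2⟩ :=
    h1 K p ζ hζ S U 𝔞 hp2 hs.disj hpS ha1 (fun v hv => hs.sub (ha2 v hv)) ha3 (fun n => by
      obtain ⟨κ, hκ⟩ := hcl n
      exact ⟨κ, fun v hv => hκ v fun h => hv (hs.sub h)⟩) (lamf S₀ lam χ) hc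
  have hnp : ∀ v : HS K, v ∉ S → v ∉ U → (p : 𝓞 K) ∉ v.asIdeal := fun v h h' hv =>
    (hpS v hv).elim h h'
  have hS' : ∀ v, v ∈ insert v₁ (insert v₂ (insert v₃ S)) ↔ v ∈ S ∨ v = v₁ ∨ v = v₂ ∨ v = v₃ := by
    intro v
    rw [Finset.mem_insert, Finset.mem_insert, Finset.mem_insert]
    tauto
  have hfin := h4 K p ζ hζ S (lamf S₀ lam χ)
  obtain ⟨b1, b2, b3⟩ := h2 K p ζ hζ S (lamf S₀ lam χ) hfin v₁ v₂ v₃ κ (hnp _ a1 u1) (hnp _ a2 u2)
    (hnp _ a3 u3) a1 a2 a3 a12 a13 a23 hκ hod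
    hind hind2 χ hs.mem (insert v₁ (insert v₂ (insert v₃ S))) (lamf S₀ lam (χ + kp hζ κ)) hS'
    (fun v hv g hg => by
      by_cases hv0 : v ∈ S₀
      · rw [lamf_mem hv0, lamf_mem hv0]
      · rw [lamf_not hv0, lamf_not hv0, Pi.add_apply, (mem_H0 hζ).1 hκ v hv g hg, add_zero])
    (fun v _ hv g _ => by
      rw [lamf_not (fun h => hv (hs.sub h)), Pi.add_apply])
  refine ⟨insert v₁ (insert v₂ (insert v₃ S)), χ + kp hζ κ, ⟨?_, ?_, ?_, b2, ?_, ?_, ?_⟩, ?_⟩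
  · intro v hv
    exact (hS' v).2 (Or.inl (hs.sub hv))
  · intro h
    apply hs.ne
    refine Finset.Subset.antisymm hs.sub fun v hv => ?_
    rw [h]
    exact (hS' v).2 (Or.inl hv)
  · rw [Finset.disjoint_left]
    intro v hv hvU
    rcases (hS' v).1 hv with h | h | h | h
    · exact Finset.disjoint_left.1 hs.disj h hvU
    · exact u1 (h ▸ hvU)
    · exact u2 (h ▸ hvU)
    · exact u3 (h ▸ hvU)
  · intro v hv g hg
    rw [Pi.add_apply, (mem_H0 hζ).1 hκ v (hs.sub hv) g hg, add_zero, hs.eq v hv g hg]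
  · intro v hv g hg
    rw [Pi.add_apply, (mem_H0 hζ).1 hκU v hv g hg, add_zero, hs.eqU v hv g hg]
  · intro v hv hv0
    by_cases hvS : v ∈ S
    · obtain ⟨g, hg, hne⟩ := hs.ram v hvS hv0
      refine ⟨g, hg, ?_⟩
      rw [Pi.add_apply, (mem_H0 hζ).1 hκ v hvS g (Inr_le _ hg), add_zero]
      exact hne
    · obtain ⟨g, hg, hne⟩ := b3 v hv hvS
      exact ⟨g, hg, hne⟩
  · have hfin' := h4 K p ζ hζ (insert v₁ (insert v₂ (insert v₃ S))) (lamf S₀ lam (χ + kp hζ κ))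
    have h5 : 0 < Nat.card (Sel hζ (insert v₁ (insert v₂ (insert v₃ S)))
      (lamf S₀ lam (χ + kp hζ κ))) := Nat.card_pos
    have h6 := hp.out.two_le
    nlinarith

theorem loop_end (h1 : S_pick) (h2 : S_drop) (h3 : Pool.Agent.NH7.GU.S_aux) (h4 : S_sfin)
    [IsTotallyComplex K] {ζ : K}
    (hζ : IsPrimitiveRoot ζ p) {S₀ U : Finset (HS K)} {𝔞 : Ideal (𝓞 K)} (hp2 : p ≠ 2)
    (hd : Disjoint S₀ U)
    (hp0 : ∀ v : HS K, (p : 𝓞 K) ∈ v.asIdeal → v ∈ S₀ ∨ v ∈ U)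
    (ha1 : 𝔞 ∣ Ideal.span {(p : 𝓞 K)}) (ha2 : ∀ v : HS K, 𝔞 ≤ v.asIdeal → v ∈ S₀)
    (ha3 : p ^ (Module.finrank ℚ K / 2) ≤ Ideal.absNorm 𝔞)
    (hcl : ∀ n : HS K →₀ ℤ, ∃ κ : Kˣ, ∀ v ∉ S₀, n v = od v κ)
    {lam : HS K → GK K → ZMod p} {χ₀ : GK K → ZMod p} (hχ : χ₀ ∈ Sel hζ S₀ lam) :
    ∃ (S : Finset (HS K)) (χ : GK K → ZMod p), LState hζ S₀ U lam χ₀ S χ ∧
      Nat.card (Sel hζ S (lamf S₀ lam χ)) < p ^ 2 := by
  have key : ∀ (N : ℕ) (S : Finset (HS K)) (χ : GK K → ZMod p), LState hζ S₀ U lam χ₀ S χ →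
      Nat.card (Sel hζ S (lamf S₀ lam χ)) = N →
      ∃ (S : Finset (HS K)) (χ : GK K → ZMod p), LState hζ S₀ U lam χ₀ S χ ∧
        Nat.card (Sel hζ S (lamf S₀ lam χ)) < p ^ 2 := by
    intro N
    induction N using Nat.strong_induction_on with
    | _ N ih =>
      intro S χ hs hN
      rcases lt_or_ge (Nat.card (Sel hζ S (lamf S₀ lam χ))) (p ^ 2) with h | h
      · exact ⟨S, χ, hs, h⟩
      · obtain ⟨S', χ', hs', hlt⟩ := loop_step h1 h2 h4 hζ hp2 hp0 ha1 ha2 ha3 hcl hs h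
        exact ih _ (by rw [← hN]; exact hlt) S' χ' hs' rfl
  obtain ⟨S, χ, hs⟩ := loop_start h3 hζ hd hp0 hχ
  exact key _ S χ hs rfl

end loop

end Loop

open Loop in
theorem s_loop (h1 : S_pick) (h2 : S_drop) (h3 : Pool.Agent.NH7.GU.S_aux) (h4 : S_sfin) :
    S_loop := by
  intro K _ _ _ p hp ζ hζ S₀ U 𝔞 hp2 hd hp0 ha1 ha2 ha3 hcl lam χ₀ hχ
  obtain ⟨S, χ, hs, hc⟩ := loop_end h1 h2 h3 h4 hζ hp2 hd hp0 ha1 ha2 ha3 hcl hχ
  obtain ⟨κ, hκ, hκod, hχκ⟩ := mem_Sel hζ |>.1 hs.mem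
  have hχf : χ = kp hζ κ := funext hχκ
  refine ⟨S, χ, hs.sub, hs.ne, hs.disj, ?_, hs.eq, hs.eqU, hs.ram, ?_, ?_⟩
  · rw [hχf]
    exact ⟨kp_cont hζ κ, kp_mul_right hζ κ⟩
  · intro v hv hvU g hg
    rw [hχf]
    refine kp_inr_zero hζ (Qv_max v) (Qv_comap v) (not_mem_Q (Qv_comap v) ?_) (hκod v hv) hg
    intro h
    rcases hp0 v h with h | h
    · exact hv (hs.sub h)
    · exact hvU h
  intro lam' hl1 hl2 x hx
  have hcong : Sel hζ S lam' = Sel hζ S (lamf S₀ lam χ) := by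
    apply Sel_congr
    intro v hv g hg
    by_cases hv0 : v ∈ S₀
    · rw [lamf_mem hv0, hl1 v hv0 g hg]
    · rw [lamf_not hv0, hl2 v hv hv0 g hg]
  rw [hcong] at hx
  have hfin := h4 K p ζ hζ S (lamf S₀ lam χ)
  -- `χ` is not zero
  have hχ0 : χ ≠ 0 := by
    intro h0
    apply hs.ne
    refine Finset.Subset.antisymm hs.sub fun v hv => ?_
    by_contra hv0
    obtain ⟨g, -, hne⟩ := hs.ram v hv hv0
    exact hne (by rw [h0]; rfl)
  have hmf : Module.Finite (ZMod p) (Sel hζ S (lamf S₀ lam χ)) := inferInstance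
  have hrank : Module.finrank (ZMod p) (Sel hζ S (lamf S₀ lam χ)) ≤ 1 := by
    have h5 := Module.natCard_eq_pow_finrank (K := ZMod p) (V := Sel hζ S (lamf S₀ lam χ))
    rw [Nat.card_zmod] at h5
    rw [h5] at hc
    have := (Nat.pow_lt_pow_iff_right hp.out.one_lt).1 hc
    omega
  obtain ⟨w, hw⟩ := finrank_le_one_iff.1 hrank
  obtain ⟨c, hc'⟩ := hw ⟨χ, hs.mem⟩
  obtain ⟨e, he⟩ := hw ⟨x, hx⟩
  have hc0 : c ≠ 0 := by
    rintro rfl
    apply hχ0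
    rw [zero_smul] at hc'
    exact (congrArg Subtype.val hc').symm
  refine ⟨e * c⁻¹, fun g => ?_⟩
  have e1 : c * (w : GK K → ZMod p) g = χ g := congrFun (congrArg Subtype.val hc') g
  have e2 : e * (w : GK K → ZMod p) g = x g := congrFun (congrArg Subtype.val he) g
  rw [← e1, ← e2]
  field_simp

end Pool.Agent.NH7.BK
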