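import Pool.Agent.NH7.BK.Stms

/-!
# Selmer groups of residually trivial representations: a modulus for `H0`, supported in `T` (B3)
-/

set_option autoImplicit false
set_option linter.unusedSectionVars false

namespace Pool.Agent.NH7.BK

open NumberField IsDedekindDomain Pool.Agent.W401.Cheb Pool.Agent.NH7.Sch Filter Topology
open Pool.Agent.NH7.GU (Cyc Chr HS Qv fr Hm Unr H0 HL Cq cl mem_H0 mem_HL)

theorem s_mod (h1 : Pool.Agent.NH7.GU.S_h0t) (h2 : S_h0v) : S_mod := by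
  intro K _ _ p hp ζ hζ T
  have hex : ∀ v : HS K, ∃ m : ℕ, 1 ≤ m ∧ ∀ (x : 𝓞 K) (hx : x ≠ 0), x - 1 ∈ v.asIdeal ^ m →
      ∀ g ∈ Dec (Qv v), kp hζ (ui x hx) g = 0 := by
    intro v
    by_cases hpv : (p : 𝓞 K) ∈ v.asIdeal
    · obtain ⟨m, hm⟩ := h2 K p ζ hζ v hpv
      refine ⟨m + 1, by omega, fun x hx h => hm x hx ?_⟩
      exact Ideal.pow_le_pow_right (Nat.le_succ m) h
    · refine ⟨1, le_rfl, fun x hx h => h1 K p ζ hζ v hpv x hx ?_⟩
      rwa [pow_one] at h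
  choose m hm1 hm using hex
  refine ⟨∏ v ∈ T, v.asIdeal ^ m v, ?_, ?_, ?_⟩
  · rw [← Ideal.zero_eq_bot]
    exact Finset.prod_ne_zero_iff.2 fun v _ => pow_ne_zero _ v.ne_bot
  · intro v hv
    obtain ⟨w, hw, hle⟩ := (Ideal.IsPrime.prod_le v.isPrime).1 hv
    have h3 := w.isMaximal.eq_of_le v.isPrime.ne_top (v.isPrime.le_of_pow_le hle)
    rw [← HeightOneSpectrum.ext h3]
    exact hw
  · intro x hx hxm
    rw [mem_H0]
    intro v hv g hg
    refine hm v x hx ?_ g hg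
    have h3 : ∏ w ∈ T, w.asIdeal ^ m w ≤ v.asIdeal ^ m v :=
      Ideal.dvd_iff_le.1 (Finset.dvd_prod_of_mem (fun w : HS K => w.asIdeal ^ m w) hv)
    exact h3 hxm

end Pool.Agent.NH7.BK
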