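import Pool.Agent.NH7.BK.Stms

/-!
# Selmer groups of residually trivial representations: C1, Selmer groups are finite
-/

set_option autoImplicit false
set_option linter.unusedSectionVars false

namespace Pool.Agent.NH7.BK

open NumberField IsDedekindDomain Pool.Agent.W401.Cheb Pool.Agent.NH7.Sch Filter Topology
open Pool.Agent.NH7.GU (Cyc Chr HS Qv fr Hm Unr H0 HL Cq cl mem_H0 mem_HL)

theorem s_sfin (h1 : Pool.Agent.NH7.GU.S_sun) (h2 : Pool.Agent.NH7.GU.S_cls) : S_sfin := by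
  intro K _ _ _ p _ ζ hζ T lam
  classical
  obtain ⟨T', hTT, hcl⟩ := h2 K T
  obtain ⟨B, -, hB⟩ := h1 K p ζ hζ T' hcl
  have hpow : ∀ (s : Kˣ) (g : GK K) (n : ℕ), kp hζ (s ^ n) g = n * kp hζ s g := by
    intro s g n
    induction n with
    | zero => rw [pow_zero, kp_one_left, Nat.cast_zero, zero_mul]
    | succ n ih => rw [pow_succ, kp_mul_left, ih]; push_cast; ring
  have hsub : ((Sel hζ T lam : Submodule (ZMod p) (GK K → ZMod p)) : Set (GK K → ZMod p)) ⊆
      (fun b : Kˣ => (kp hζ b : GK K → ZMod p)) '' (B : Set Kˣ) := by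
    intro x hx
    obtain ⟨κ, -, hx2, hx3⟩ := (mem_Sel hζ).1 hx
    obtain ⟨b, hb, s, hs⟩ := hB κ fun v hv => hx2 v fun h => hv (hTT h)
    refine ⟨b, hb, ?_⟩
    funext g
    rw [hx3 g, hs, kp_mul_left, hpow, ZMod.natCast_self, zero_mul, add_zero]
  exact ((B.finite_toSet.image _).subset hsub).to_subtype

end Pool.Agent.NH7.BK
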