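import Pool.Agent.NH7.BK.Stms

/-!
# BK7-A3: the strict decomposition groups on which `χ` is not trivial
-/

set_option autoImplicit false
set_option linter.unusedSectionVars false

namespace Pool.Agent.NH7.BK

open Filter Topology
open Pool.Agent.NH7.GU (Cyc Chr)

namespace StrP

variable {p : ℕ} [hp : Fact p.Prime] {G : Type} [Group G] [TopologicalSpace G]

theorem chi_one (c : Chr p G) : c.χ 1 = 0 := by
  have h := c.m 1 1
  rw [mul_one] at h
  exact left_eq_add.1 h

theorem chi_inv (c : Chr p G) (g : G) : c.χ g⁻¹ = -c.χ g := by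
  have h := c.m g⁻¹ g
  rw [inv_mul_cancel, chi_one] at h
  exact eq_neg_of_add_eq_zero_left h.symm

theorem chi_pow (c : Chr p G) (s : G) (k : ℕ) : c.χ (s ^ k) = k * c.χ s := by
  induction k with
  | zero => rw [pow_zero, chi_one, Nat.cast_zero, zero_mul]
  | succ k ih => rw [pow_succ, c.m, ih, Nat.cast_succ]; ring

variable {O : Type} [CommRing O] [Algebra ℤ_[p] O]

theorem inj_pow (C : Cyc p O) (n : ℕ) (x : O) (h : (C.z - 1) ^ n * x = 0) : x = 0 := by
  induction n with
  | zero => rwa [pow_zero, one_mul] at h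
  | succ n ih =>
    apply ih
    apply C.inj
    rw [← mul_assoc, ← pow_succ']
    exact h

theorem inj_vec (C : Cyc p O) {N : ℕ} (n : ℕ) (x : Fin N → O) (h : (C.z - 1) ^ n • x = 0) :
    x = 0 := by
  funext j
  exact inj_pow C n _ (congrFun h j)

variable {d : Pl G} {N : ℕ}

theorem mO_mul (R : Rp p d N) (g h : G) : R.mO O (g * h) = R.mO O g * R.mO O h := by
  unfold Rp.mO
  rw [map_mul, Matrix.map_mul]

theorem mO_sub (R : Rp p d N) (g : G) (i j : Fin N) :
    algebraMap ℤ_[p] O ((R.ρ g - 1) i j) = R.mO O g i j - (1 : Matrix (Fin N) (Fin N) O) i j := by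
  rw [Matrix.sub_apply, map_sub]
  congr 1
  rw [Matrix.one_apply, Matrix.one_apply]
  split_ifs
  · exact map_one _
  · exact map_zero _

theorem ev_mO (C : Cyc p O) (R : Rp p d N) (g : G) (i j : Fin N) :
    C.ev (R.mO O g i j) = (1 : Matrix (Fin N) (Fin N) (ZMod p)) i j := by
  have h1 : C.ev (algebraMap ℤ_[p] O ((R.ρ g - 1) i j)) = 0 := by
    obtain ⟨y, hy⟩ := R.one g i j
    rw [hy, C.ev_int, map_mul, map_natCast, CharP.cast_eq_zero, zero_mul]
  rw [mO_sub, map_sub, sub_eq_zero] at h1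
  rw [h1, Matrix.one_apply, Matrix.one_apply]
  split_ifs
  · exact map_one _
  · exact map_zero _

/-- the matrix `U` -/
theorem exU (C : Cyc p O) (hp2 : p ≠ 2) (R : Rp p d N) (s : G) :
    ∃ U : Matrix (Fin N) (Fin N) O, C.z • R.mO O s - 1 = (C.z - 1) • U ∧ IsUnit U.det := by
  have h1 : ∀ i j, ∃ y, R.mO O s i j - (1 : Matrix (Fin N) (Fin N) O) i j = (C.z - 1) ^ 2 * y := by
    intro i j
    rw [← mO_sub]
    exact C.sq _ (R.one s i j) fun h => absurd h hp2
  choose y hy using h1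
  refine ⟨Matrix.of fun i j => R.mO O s i j + (C.z - 1) * y i j, ?_, ?_⟩
  · ext i j
    rw [Matrix.sub_apply, Matrix.smul_apply, Matrix.smul_apply, Matrix.of_apply, smul_eq_mul,
      smul_eq_mul]
    linear_combination hy i j
  · apply C.unit
    rw [RingHom.map_det]
    have h2 : C.ev.mapMatrix (Matrix.of fun i j => R.mO O s i j + (C.z - 1) * y i j) = 1 := by
      ext i j
      rw [RingHom.mapMatrix_apply, Matrix.map_apply, Matrix.of_apply, map_add, map_mul, map_sub,
        C.ev_z, map_one, sub_self, zero_mul, add_zero, ev_mO]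
    rw [h2, Matrix.det_one]
    exact one_ne_zero

/-- the fixed vectors -/
def W (R : Rp p d N) (c : Chr p G) (O : Type) [CommRing O] [Algebra ℤ_[p] O] (D : Subgroup G) :
    Submodule O (Fin N → O) where
  carrier := {w | ∀ h ∈ D, c.χ h = 0 → (R.mO O h).mulVec w = w}
  add_mem' := by
    intro a b ha hb h hh hc
    rw [Matrix.mulVec_add, ha h hh hc, hb h hh hc]
  zero_mem' := by
    intro h _ _
    exact Matrix.mulVec_zero _
  smul_mem' := by
    intro a b hb h hh hc
    rw [Matrix.mulVec_smul, hb h hh hc]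

theorem mem_W {R : Rp p d N} {c : Chr p G} {D : Subgroup G} {w : Fin N → O} :
    w ∈ W R c O D ↔ ∀ h ∈ D, c.χ h = 0 → (R.mO O h).mulVec w = w := Iff.rfl

theorem W_rho (R : Rp p d N) (c : Chr p G) (D : Subgroup G) {s : G} (hs : s ∈ D)
    {w : Fin N → O} (hw : w ∈ W R c O D) : (R.mO O s).mulVec w ∈ W R c O D := by
  rw [mem_W] at hw ⊢
  intro h hh hc
  have h1 := hw (s⁻¹ * h * s) (D.mul_mem (D.mul_mem (D.inv_mem hs) hh) hs) (by
    rw [c.m, c.m, chi_inv, hc]
    ring)
  have h2 : R.mO O h * R.mO O s = R.mO O s * R.mO O (s⁻¹ * h * s) := by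
    rw [← mO_mul, ← mO_mul]
    congr 1
    group
  rw [Matrix.mulVec_mulVec, h2, ← Matrix.mulVec_mulVec, h1]

/-- Cayley-Hamilton: a vector whose image by a matrix with unit determinant lies in a stable
submodule lies in this submodule -/
theorem back (U : Matrix (Fin N) (Fin N) O) (hU : IsUnit U.det) (V : Submodule O (Fin N → O))
    (hV : ∀ w ∈ V, U.mulVec w ∈ V) (t : Fin N → O) (ht : U.mulVec t ∈ V) : t ∈ V := by
  have hpow : ∀ (k : ℕ), ∀ w ∈ V, (U ^ k).mulVec w ∈ V := by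
    intro k
    induction k with
    | zero =>
      intro w hw
      rw [pow_zero, Matrix.one_mulVec]
      exact hw
    | succ k ih =>
      intro w hw
      rw [pow_succ, ← Matrix.mulVec_mulVec]
      exact ih _ (hV w hw)
  have hpol : ∀ (P : Polynomial O), ∀ w ∈ V, (Polynomial.aeval U P).mulVec w ∈ V := by
    intro P w hw
    induction P using Polynomial.induction_on' with
    | add P Q hP hQ =>
      rw [map_add, Matrix.add_mulVec]
      exact V.add_mem hP hQ
    | monomial n a =>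
      rw [Polynomial.aeval_monomial, ← Algebra.smul_def, Matrix.smul_mulVec]
      exact V.smul_mem _ (hpow n w hw)
  have h1 := Matrix.aeval_self_charpoly U
  rw [← Polynomial.divX_mul_X_add U.charpoly, map_add, map_mul, Polynomial.aeval_X,
    Polynomial.aeval_C] at h1
  have h2 : (Polynomial.aeval U U.charpoly.divX).mulVec (U.mulVec t) +
      U.charpoly.coeff 0 • t = 0 := by
    have h3 := congrArg (fun A : Matrix (Fin N) (Fin N) O => A.mulVec t) h1
    rw [Matrix.add_mulVec, ← Matrix.mulVec_mulVec, Matrix.zero_mulVec, Algebra.algebraMap_eq_smul_one,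
      Matrix.smul_mulVec, Matrix.one_mulVec] at h3
    exact h3
  have h4 : U.charpoly.coeff 0 • t ∈ V := by
    have h5 := V.neg_mem (hpol U.charpoly.divX _ ht)
    rwa [← eq_neg_of_add_eq_zero_right h2] at h5
  have h6 : IsUnit (U.charpoly.coeff 0) := by
    rw [Matrix.det_eq_sign_charpoly_coeff] at hU
    exact isUnit_of_mul_isUnit_right hU
  obtain ⟨u, hu⟩ := h6
  rw [← hu] at h4
  have h7 := V.smul_mem ((u⁻¹ : Oˣ) : O) h4
  rwa [smul_smul, Units.inv_mul, one_smul] at h7

end StrP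

open StrP in
/-- A3. The condition at the strict decomposition groups, on which `χ` is not trivial. -/
theorem s_str (hb : S_bt) : S_str := by
  intro p hp O _ _ C G _ _ _ d c N R F hp2 hF k ⟨s0, hs0, hc0⟩
  obtain ⟨s, hs, hcs⟩ : ∃ s ∈ d.D k, c.χ s = 1 := by
    refine ⟨s0 ^ ((c.χ s0)⁻¹).val, (d.D k).pow_mem hs0 _, ?_⟩
    rw [chi_pow, ZMod.natCast_zmod_val, inv_mul_cancel₀ hc0]
  obtain ⟨U, hU1, hU2⟩ := exU C hp2 R s
  obtain ⟨t, ht⟩ : ∃ t : Fin N → O, U.mulVec t = F s := by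
    refine ⟨U⁻¹.mulVec (F s), ?_⟩
    rw [Matrix.mulVec_mulVec, Matrix.mul_nonsing_inv _ hU2, Matrix.one_mulVec]
  obtain ⟨b, hb1, hb2, hb3⟩ := hb p O C G d c N R t hp2
  have hMU : ∀ w : Fin N → O, C.z • (R.mO O s).mulVec w - w = (C.z - 1) • U.mulVec w := by
    intro w
    have h1 := congrArg (fun A : Matrix (Fin N) (Fin N) O => A.mulVec w) hU1
    rw [Matrix.sub_mulVec, Matrix.smul_mulVec, Matrix.one_mulVec, Matrix.smul_mulVec] at h1
    exact h1
  have hv1 : (1 : ZMod p).val = 1 := ZMod.val_one p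
  have hbs : b s = F s := by
    have h1 := hb1 s
    rw [hcs, hv1, pow_one, hMU, ht, ← sub_eq_zero, ← smul_sub] at h1
    have h2 := inj_vec C 1 _ (by rwa [pow_one])
    exact sub_eq_zero.1 h2
  obtain ⟨E, hE⟩ : ∃ E : G → Fin N → O, ∀ g, E g = F g - b g := ⟨_, fun _ => rfl⟩
  have hEm : ∀ g h, E (g * h) = E g + C.z ^ (c.χ g).val • (R.mO O g).mulVec (E h) := by
    intro g h
    rw [hE, hE, hE, hF.mul, hb3.mul, Matrix.mulVec_sub, smul_sub]
    abel
  have hEs : E s = 0 := by rw [hE, hbs, sub_self]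
  have hm0 : ∀ g h, c.χ g = 0 → E (g * h) = E g + (R.mO O g).mulVec (E h) := by
    intro g h hg
    rw [hEm, hg, ZMod.val_zero, pow_zero, one_smul]
  obtain ⟨n1, t1, hn1⟩ := hF.strict k
  obtain ⟨n2, t2, hn2⟩ := hb3.strict k
  obtain ⟨t', ht'⟩ : ∃ t' : Fin N → O, t' = (C.z - 1) ^ n2 • t1 - (C.z - 1) ^ n1 • t2 := ⟨_, rfl⟩
  have hn : ∀ g ∈ d.D k, c.χ g = 0 →
      (C.z - 1) ^ (n1 + n2) • E g = (R.mO O g).mulVec t' - t' := by
    intro g hg hg0
    have e1 := hn1 g hg hg0
    have e2 := hn2 g hg hg0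
    rw [ht', Matrix.mulVec_sub, Matrix.mulVec_smul, Matrix.mulVec_smul, hE, smul_sub]
    have e3 : (C.z - 1) ^ (n1 + n2) • F g = (C.z - 1) ^ n2 • ((R.mO O g).mulVec t1 - t1) := by
      rw [← e1, smul_smul, ← pow_add, add_comm n2]
    have e4 : (C.z - 1) ^ (n1 + n2) • b g = (C.z - 1) ^ n1 • ((R.mO O g).mulVec t2 - t2) := by
      rw [← e2, smul_smul, ← pow_add]
    rw [e3, e4, smul_sub, smul_sub]
    abel
  -- the conjugates
  have hconj : ∀ h ∈ d.D k, c.χ h = 0 → E (s * h * s⁻¹) = C.z • (R.mO O s).mulVec (E h) := by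
    intro h hh hh0
    have hx0 : c.χ (s * h * s⁻¹) = 0 := by
      rw [c.m, c.m, chi_inv, hh0]
      ring
    have e1 := hEm s h
    rw [hEs, zero_add, hcs, hv1, pow_one] at e1
    have e2 := hm0 (s * h * s⁻¹) s hx0
    rw [inv_mul_cancel_right, hEs, Matrix.mulVec_zero, add_zero, e1] at e2
    exact e2.symm
  have hMt : U.mulVec t' ∈ W R c O (d.D k) := by
    rw [mem_W]
    intro h' hh' hh0'
    obtain ⟨h, hh⟩ : ∃ h, h = s⁻¹ * h' * s := ⟨_, rfl⟩
    have hhD : h ∈ d.D k := by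
      rw [hh]
      exact (d.D k).mul_mem ((d.D k).mul_mem ((d.D k).inv_mem hs) hh') hs
    have hh0 : c.χ h = 0 := by
      rw [hh, c.m, c.m, chi_inv, hh0']
      ring
    have hsh : s * h * s⁻¹ = h' := by
      rw [hh]
      group
    have e1 := hconj h hhD hh0
    rw [hsh] at e1
    have e2 := hn h' hh' hh0'
    rw [e1, smul_comm, ← Matrix.mulVec_smul, hn h hhD hh0] at e2
    have e3 : R.mO O s * R.mO O h = R.mO O h' * R.mO O s := by
      rw [← mO_mul, ← mO_mul, ← hsh, inv_mul_cancel_right]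
    rw [Matrix.mulVec_sub, Matrix.mulVec_mulVec, e3, ← Matrix.mulVec_mulVec, smul_sub] at e2
    -- e2 : z • mO h' (mO s t') - z • mO s t' = mO h' t' - t'
    have e4 : (R.mO O h').mulVec (C.z • (R.mO O s).mulVec t' - t') =
        C.z • (R.mO O s).mulVec t' - t' := by
      rw [Matrix.mulVec_sub, Matrix.mulVec_smul]
      have e5 : C.z • (R.mO O h').mulVec ((R.mO O s).mulVec t') - (R.mO O h').mulVec t' -
          (C.z • (R.mO O s).mulVec t' - t') =
          (C.z • (R.mO O h').mulVec ((R.mO O s).mulVec t') - C.z • (R.mO O s).mulVec t') -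
            ((R.mO O h').mulVec t' - t') := by abel
      rw [← sub_eq_zero, e5, e2, sub_self]
    rw [hMU, Matrix.mulVec_smul, ← sub_eq_zero, ← smul_sub] at e4
    exact sub_eq_zero.1 (inj_vec C 1 _ (by rwa [pow_one]))
  have hstab : ∀ w ∈ W R c O (d.D k), U.mulVec w ∈ W R c O (d.D k) := by
    intro w hw
    have h1 : (C.z - 1) • U.mulVec w ∈ W R c O (d.D k) := by
      rw [← hMU]
      exact Submodule.sub_mem _ (Submodule.smul_mem _ _ (W_rho R c _ hs hw)) hw
    rw [mem_W] at h1 ⊢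
    intro h hh hc
    have h2 := h1 h hh hc
    rw [Matrix.mulVec_smul, ← sub_eq_zero, ← smul_sub] at h2
    exact sub_eq_zero.1 (inj_vec C 1 _ (by rwa [pow_one]))
  have htW := back U hU2 _ hstab t' hMt
  rw [mem_W] at htW
  have hE0 : ∀ h ∈ d.D k, c.χ h = 0 → E h = 0 := by
    intro h hh hc
    have h1 := hn h hh hc
    rw [htW h hh hc, sub_self] at h1
    exact inj_vec C _ _ h1
  have hEpow : ∀ n : ℕ, E (s ^ n) = 0 := by
    intro n
    induction n with
    | zero =>
      rw [pow_zero]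
      exact hE0 1 (d.D k).one_mem (chi_one c)
    | succ n ih => rw [pow_succ, hEm, ih, hEs, Matrix.mulVec_zero, smul_zero, add_zero]
  have hED : ∀ g ∈ d.D k, E g = 0 := by
    intro g hg
    have h1 : g = (g * (s ^ (c.χ g).val)⁻¹) * s ^ (c.χ g).val := by group
    have h2 : c.χ (g * (s ^ (c.χ g).val)⁻¹) = 0 := by
      rw [c.m, chi_inv, chi_pow, hcs, ZMod.natCast_zmod_val]
      ring
    rw [h1, hEm, hE0 _ ((d.D k).mul_mem hg ((d.D k).inv_mem ((d.D k).pow_mem hs _))) h2, hEpow,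
      Matrix.mulVec_zero, smul_zero, add_zero]
  refine ⟨fun j => C.ev (t j), fun g hg j => ?_⟩
  have h1 := hED g hg
  rw [hE] at h1
  rw [sub_eq_zero.1 h1, hb2, mul_comm]

end Pool.Agent.NH7.BK
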