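import Pool.Agent.NH7.BK.Stms

/-!
# The condition at the tame inertia groups on which `χ` is not trivial

Proof of `S_tame` (from `S_bt`), and common lemmas (also used for `S_str`).
-/

set_option autoImplicit false
set_option linter.unusedSectionVars false

namespace Pool.Agent.NH7.BK

open NumberField IsDedekindDomain Pool.Agent.W401.Cheb Pool.Agent.NH7.Sch Filter Topology
open Pool.Agent.NH7.GU (Cyc Chr HS Qv fr Hm Unr H0 HL Cq cl mem_H0 mem_HL)

section common

variable {p : ℕ} [hp : Fact p.Prime] {G : Type} [Group G] [TopologicalSpace G] {d : Pl G} {N : ℕ}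
variable {O : Type} [CommRing O] [Algebra ℤ_[p] O]

theorem chi_one (c : Chr p G) : c.χ 1 = 0 := c.mem_ker.1 c.ker.one_mem

theorem chi_inv (c : Chr p G) (g : G) : c.χ g⁻¹ = - c.χ g := by
  have h := c.m g⁻¹ g
  rw [inv_mul_cancel, chi_one] at h
  exact eq_neg_of_add_eq_zero_left h.symm

theorem chi_pow (c : Chr p G) (g : G) (n : ℕ) : c.χ (g ^ n) = n * c.χ g := by
  induction n with
  | zero => rw [pow_zero, chi_one, Nat.cast_zero, zero_mul]
  | succ n ih => rw [pow_succ, c.m, ih]; push_cast; ring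

theorem chi_conj (c : Chr p G) (g h : G) : c.χ (g * h * g⁻¹) = c.χ h := by
  rw [c.m, c.m, chi_inv]
  ring

theorem mO_one_of (R : Rp p d N) {g : G} (h : R.ρ g = 1) : R.mO O g = 1 := by
  rw [Rp.mO, h]
  exact Matrix.map_one _ (map_zero _) (map_one _)

theorem mO_one (R : Rp p d N) : R.mO O (1 : G) = 1 := mO_one_of R (map_one _)

/-- the cocycle law -/
def IsC (C : Cyc p O) (c : Chr p G) (R : Rp p d N) (F : G → Fin N → O) : Prop :=
  ∀ g h, F (g * h) = F g + C.z ^ (c.χ g).val • (R.mO O g).mulVec (F h)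

theorem IsC.sub {C : Cyc p O} {c : Chr p G} {R : Rp p d N} {F b : G → Fin N → O}
    (hF : IsC C c R F) (hb : IsC C c R b) : IsC C c R (fun g => F g - b g) := by
  intro g h
  simp only
  rw [hF, hb, Matrix.mulVec_sub, smul_sub]
  abel

theorem IsC.one {C : Cyc p O} {c : Chr p G} {R : Rp p d N} {F : G → Fin N → O}
    (hF : IsC C c R F) : F 1 = 0 := by
  have h := hF 1 1
  rw [mul_one, chi_one, ZMod.val_zero, pow_zero, one_smul, mO_one, Matrix.one_mulVec] at h
  exact left_eq_add.1 h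

theorem IsC.pow {C : Cyc p O} {c : Chr p G} {R : Rp p d N} {F : G → Fin N → O}
    (hF : IsC C c R F) {s : G} (hs : F s = 0) (n : ℕ) : F (s ^ n) = 0 := by
  induction n with
  | zero => rw [pow_zero, hF.one]
  | succ n ih => rw [pow_succ, hF, ih, hs, Matrix.mulVec_zero, smul_zero, add_zero]

/-- every element is a product of an element of the kernel and a power of `s` -/
theorem split_ker (c : Chr p G) (D : Subgroup G) {s : G} (hs : s ∈ D) (h0 : c.χ s ≠ 0) {g : G}
    (hg : g ∈ D) : ∃ (h : G) (n : ℕ), h ∈ D ∧ c.χ h = 0 ∧ g = h * s ^ n := by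
  refine ⟨g * (s ^ (c.χ g / c.χ s).val)⁻¹, (c.χ g / c.χ s).val,
    D.mul_mem hg (D.inv_mem (D.pow_mem hs _)), ?_, ?_⟩
  · rw [c.m, chi_inv, chi_pow, ZMod.natCast_val, ZMod.cast_id', id, div_mul_cancel₀ _ h0]
    ring
  · rw [inv_mul_cancel_right]

theorem IsC.zero_on {C : Cyc p O} {c : Chr p G} {R : Rp p d N} {F : G → Fin N → O}
    (hF : IsC C c R F) (D : Subgroup G) {s : G} (hs : s ∈ D) (h0 : c.χ s ≠ 0) (hFs : F s = 0)
    (hker : ∀ h ∈ D, c.χ h = 0 → F h = 0) : ∀ g ∈ D, F g = 0 := by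
  intro g hg
  obtain ⟨h, n, h1, h2, h3⟩ := split_ker c D hs h0 hg
  rw [h3, hF, hF.pow hFs, hker h h1 h2, Matrix.mulVec_zero, smul_zero, add_zero]

/-- an element on which `χ` takes the value one -/
theorem exists_chi_one (c : Chr p G) (D : Subgroup G) (h : ∃ g ∈ D, c.χ g ≠ 0) :
    ∃ g ∈ D, c.χ g = 1 := by
  obtain ⟨g, hg, h0⟩ := h
  refine ⟨g ^ ((c.χ g)⁻¹).val, D.pow_mem hg _, ?_⟩
  rw [chi_pow, ZMod.natCast_val, ZMod.cast_id', id, inv_mul_cancel₀ h0]

theorem inj_vec (C : Cyc p O) {x : Fin N → O} (h : (C.z - 1) • x = 0) : x = 0 := by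
  funext j
  apply C.inj
  have := congrFun h j
  simpa using this

theorem inj_pow_vec (C : Cyc p O) (n : ℕ) {x : Fin N → O} (h : (C.z - 1) ^ n • x = 0) : x = 0 := by
  induction n with
  | zero => rwa [pow_zero, one_smul] at h
  | succ n ih =>
    apply ih
    apply inj_vec C
    rw [smul_smul, ← pow_succ', h]

end common

theorem s_tame (hb : S_bt) : S_tame := by
  intro p hp O _ _ C G _ _ _ d c N R F hp2 hF i hi
  obtain ⟨τ, hτ, h1⟩ := exists_chi_one c (d.I i) hi
  obtain ⟨b, hb1, hb2, hb3⟩ := hb p O C G d c N R (F τ) hp2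
  have : Fact (1 < p) := ⟨hp.out.one_lt⟩
  have h0 : c.χ τ ≠ 0 := by rw [h1]; exact one_ne_zero
  have hv : (c.χ τ).val = 1 := by rw [h1]; exact ZMod.val_one p
  have hC : IsC C c R (fun g => F g - b g) := IsC.sub hF.mul hb3.mul
  have hbτ : F τ - b τ = 0 := by
    apply inj_vec C
    rw [smul_sub, hb1, hv, pow_one, mO_one_of R (R.triv i τ hτ), Matrix.one_mulVec, sub_smul,
      one_smul, sub_self]
  have hI : ∀ g ∈ d.I i, F g - b g = 0 := by
    refine hC.zero_on (d.I i) hτ h0 hbτ ?_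
    intro h k1 k2
    rw [hF.away i h k1 k2, hb3.away i h k1 k2, sub_zero]
  have hz : ∀ g ∈ d.DI i, F g - b g = 0 := by
    intro g hg
    have hx := d.I_nor i g hg τ hτ
    have e1 := hC g τ
    have e2 := hC (g * τ * g⁻¹) g
    rw [inv_mul_cancel_right] at e2
    simp only at e1 e2
    rw [hbτ, Matrix.mulVec_zero, smul_zero, add_zero] at e1
    rw [hI _ hx, zero_add, e1, chi_conj, hv, pow_one, mO_one_of R (R.triv i _ hx),
      Matrix.one_mulVec] at e2
    apply inj_vec C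
    rw [sub_smul, one_smul, ← e2, sub_self]
  refine ⟨fun j => C.ev (F τ j), fun g hg j => ?_⟩
  rw [sub_eq_zero.1 (hz g hg), hb2, mul_comm]

end Pool.Agent.NH7.BK
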