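import Pool.Agent.NH7.BK.Fin
import Pool.Agent.NH7.GU.All
import Pool.Agent.NH7.BK.BtP
import Pool.Agent.NH7.BK.ClsP
import Pool.Agent.NH7.BK.CmpP
import Pool.Agent.NH7.BK.CorOP
import Pool.Agent.NH7.BK.CorP
import Pool.Agent.NH7.BK.CorZP
import Pool.Agent.NH7.BK.CritP
import Pool.Agent.NH7.BK.CtP
import Pool.Agent.NH7.BK.CupP
import Pool.Agent.NH7.BK.DropP
import Pool.Agent.NH7.BK.H0vP
import Pool.Agent.NH7.BK.IntP
import Pool.Agent.NH7.BK.LiftP
import Pool.Agent.NH7.BK.LocP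
import Pool.Agent.NH7.BK.LoopP
import Pool.Agent.NH7.BK.ModP
import Pool.Agent.NH7.BK.PickP
import Pool.Agent.NH7.BK.SfinP
import Pool.Agent.NH7.BK.StrP
import Pool.Agent.NH7.BK.TameP

/-!
# Selmer groups of residually trivial representations: all parts
-/

set_option autoImplicit false

namespace Pool.Agent.NH7.BK

theorem t_crit : S_crit := s_crit s_bt (s_tame s_bt) (s_str s_bt) s_lift

theorem t_cmp : S_cmp :=
  s_cmp Pool.Agent.NH7.GU.s_cyc t_crit (s_corO s_cor) (s_corZ s_cor)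

theorem t_mod : S_mod := s_mod Pool.Agent.NH7.GU.s_h0t s_h0v

theorem t_sfin : S_sfin := s_sfin Pool.Agent.NH7.GU.t_sun Pool.Agent.NH7.GU.s_cls

theorem t_drop : S_drop := s_drop Pool.Agent.NH7.GU.t_frv

theorem t_ct : S_ct :=
  s_ct t_mod Pool.Agent.NH7.GU.s_cfin Pool.Agent.NH7.GU.t_sun (s_loc t_mod) t_sfin

theorem t_pick : S_pick :=
  s_pick t_mod Pool.Agent.NH7.GU.s_cfin Pool.Agent.NH7.GU.t_an t_ct
    Pool.Agent.NH7.GU.t_ch t_sfin

theorem t_loop : S_loop :=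
  s_loop t_pick t_drop
    (Pool.Agent.NH7.GU.s_aux Pool.Agent.NH7.GU.t_mod Pool.Agent.NH7.GU.s_cfin
      Pool.Agent.NH7.GU.t_an) t_sfin

end Pool.Agent.NH7.BK
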