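import Pool.Agent.NH7.BK.Stms
import Pool.Agent.NH7.GU.Fin

/-!
# Selmer groups of residually trivial representations: the characters with trivial residual Selmer
group
-/

set_option autoImplicit false
set_option linter.unusedSectionVars false

namespace Pool.Agent.NH7.BK

open NumberField IsDedekindDomain Pool.Agent.W401.Cheb Pool.Agent.NH7.Sch Filter Topology
open Pool.Agent.NH7.GU (Cyc Chr HS Qv fr Hm Unr H0 HL Cq cl mem_H0 mem_HL Qv_max Qv_comap
  exists_under mem_under hm_conj hm_one hm_inv fin_ram)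

variable {K : Type} [Field K] [NumberField K] {p : ℕ} [hp : Fact p.Prime] {ζ : K}

theorem comap_mv (g : GK K) (Q : Ideal (OO K)) :
    (mv g Q).comap (algebraMap (𝓞 K) (OO K)) = Q.comap (algebraMap (𝓞 K) (OO K)) := by
  ext x
  rw [Ideal.mem_comap, Ideal.mem_comap, mem_mv]
  have h : g⁻¹ • algebraMap (𝓞 K) (OO K) x = algebraMap (𝓞 K) (OO K) x := by
    apply RingOfIntegers.ext
    rw [coe_smul]
    exact AlgEquiv.commutes _ _
  rw [h]

/-- the maximal ideals above the primes outside `S` -/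
abbrev Out (S : Set (HS K)) : Type :=
  {Q : Ideal (OO K) // Q.IsMaximal ∧ ∃ v : HS K,
    Q.comap (algebraMap (𝓞 K) (OO K)) = v.asIdeal ∧ v ∉ S}

/-- the maximal ideals above the primes in `S` which do not divide `𝔟` -/
abbrev Str (S : Set (HS K)) (𝔟 : Ideal (𝓞 K)) : Type :=
  {Q : Ideal (OO K) // Q.IsMaximal ∧ ∃ v : HS K,
    Q.comap (algebraMap (𝓞 K) (OO K)) = v.asIdeal ∧ v ∈ S ∧ ¬ 𝔟 ≤ v.asIdeal}

/-- the inertia and decomposition groups -/
noncomputable def plK (S : Set (HS K)) (𝔟 : Ideal (𝓞 K)) : Pl (GK K) where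
  ι := Out S
  I := fun Q => Inr Q.1
  DI := fun Q => Dec Q.1
  I_le := fun Q => Inr_le Q.1
  I_nor := fun Q g hg x hx => Inr_norm hg hx
  I_conj := fun Q g => ⟨⟨mv g Q.1, mv_max g Q.2.1, by
    obtain ⟨v, hv, hvS⟩ := Q.2.2
    exact ⟨v, by rw [comap_mv]; exact hv, hvS⟩⟩, fun x => Inr_mv g x⟩
  κ := Str S 𝔟
  D := fun Q => Dec Q.1
  D_conj := fun Q g => ⟨⟨mv g Q.1, mv_max g Q.2.1, by
    obtain ⟨v, hv, hvS⟩ := Q.2.2
    exact ⟨v, by rw [comap_mv]; exact hv, hvS⟩⟩, fun x => Dec_mv g x⟩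

open Classical in
/-- the local conditions at the primes of `T₀` -/
noncomputable def lam0 (χ : GK K → ZMod p) (v : HS K) : GK K → ZMod p :=
  if ∃ g ∈ Dec (Qv v), χ g ≠ 0 then χ
  else if h : ∃ y : GK K → ZMod p, Hm p y ∧ Unr v y ∧ y (fr v) ≠ 0 then Classical.choose h
  else 0

/-- **The characters with trivial residual Selmer group** -/
theorem main_char [IsTotallyComplex K] (hζ : IsPrimitiveRoot ζ p) (hp2 : p ≠ 2)
    (hfrv : Pool.Agent.NH7.GU.S_frv) (hcls : S_cls) (hloop : S_loop) (hcup : S_cup)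
    (S : Finset (HS K)) (hpS : ∀ v : HS K, (p : 𝓞 K) ∈ v.asIdeal → v ∈ S) (B : Finset (HS K))
    (𝔞 𝔟 : Ideal (𝓞 K)) (hab : 𝔞 * 𝔟 = Ideal.span {(p : 𝓞 K)}) (hcop : IsCoprime 𝔞 𝔟)
    (hN : Ideal.absNorm 𝔟 ≤ Ideal.absNorm 𝔞) {χ₀ : GK K → ZMod p} (h0 : Hm p χ₀)
    (hs : ∀ v ∈ S, ∃ g ∈ Dec (Qv v), χ₀ g ≠ 0) (hu : ∀ v : HS K, 𝔟 ≤ v.asIdeal → Unr v χ₀) :
    ∃ χ : GK K → ZMod p, Hm p χ ∧ (∀ v, v ∈ B ∨ v ∈ S → ∀ g ∈ Dec (Qv v), χ g = χ₀ g) ∧
      (∃ v, v ∉ B ∧ v ∉ S ∧ ∃ g ∈ Inr (Qv v), χ g ≠ 0) ∧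
      ∀ c : Chr p (GK K), c.χ = χ → Min (plK (S : Set (HS K)) 𝔟) c := by
  classical
  obtain ⟨Tr, hTr⟩ := fin_ram hζ h0
  have hpne : (p : 𝓞 K) ≠ 0 := by
    have := hp.out.ne_zero
    exact_mod_cast this
  have hp0 : Ideal.span {(p : 𝓞 K)} ≠ ⊥ := by
    rwa [Ne, Ideal.span_singleton_eq_bot]
  have hb0 : 𝔟 ≠ ⊥ := by
    rintro rfl
    rw [Ideal.mul_bot] at hab
    exact hp0 hab.symm
  have hpb : ∀ v : HS K, 𝔟 ≤ v.asIdeal → (p : 𝓞 K) ∈ v.asIdeal := by
    intro v hv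
    have h1 : (p : 𝓞 K) ∈ 𝔞 * 𝔟 := by
      rw [hab]
      exact Ideal.mem_span_singleton_self _
    exact hv ((Ideal.mul_le_right : 𝔞 * 𝔟 ≤ 𝔟) h1)
  have hUf : {v : HS K | 𝔟 ≤ v.asIdeal}.Finite := by
    refine (Ideal.finite_factors hb0).subset fun v hv => ?_
    rw [Set.mem_ofPred_eq, Ideal.dvd_iff_le]
    exact hv
  set U : Finset (HS K) := hUf.toFinset with hU
  have hmU : ∀ v, v ∈ U ↔ 𝔟 ≤ v.asIdeal := fun v => by
    rw [hU, Set.Finite.mem_toFinset]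
    exact Iff.rfl
  have hdis : Disjoint ((S ∪ B ∪ Tr) \ U) U := Finset.sdiff_disjoint
  obtain ⟨T₀, hT, hTU, hT0⟩ := hcls K ((S ∪ B ∪ Tr) \ U) U hdis
  have hmT : ∀ v, v ∈ S ∪ B ∪ Tr → v ∉ U → v ∈ T₀ := fun v hv hvU =>
    hT (Finset.mem_sdiff.2 ⟨hv, hvU⟩)
  have hST : ∀ v ∈ S, v ∉ U → v ∈ T₀ := fun v hv => hmT v
    (Finset.mem_union_left _ (Finset.mem_union_left _ hv))
  have hBT : ∀ v ∈ B, v ∉ U → v ∈ T₀ := fun v hv => hmT v
    (Finset.mem_union_left _ (Finset.mem_union_right _ hv))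
  have hTS : ∀ v ∉ T₀, Unr v χ₀ := fun v hv => by
    by_cases hvU : v ∈ U
    · exact hu v ((hmU v).1 hvU)
    · exact hTr v fun h => hv (hmT v (Finset.mem_union_right _ h) hvU)
  have hnot : ∀ v ∈ T₀, v ∉ U := fun v hv h => Finset.disjoint_left.1 hTU hv h
  set lam : HS K → GK K → ZMod p := lam0 χ₀ with hlam
  have hχ₀ : χ₀ ∈ Sel hζ T₀ lam := by
    obtain ⟨κ, hκ⟩ := kp_surj hζ h0.c h0.m
    refine ⟨κ, fun v _ => ?_, fun v hv => ?_, fun g => by rw [hκ]⟩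
    · by_cases h : ∃ g ∈ Dec (Qv v), χ₀ g ≠ 0
      · refine ⟨1, fun g _ => ?_⟩
        rw [hlam, lam0, if_pos h, one_mul, hκ]
      · push Not at h
        exact ⟨0, fun g hg => by rw [zero_mul, hκ]; exact h g hg⟩
    · exact od_dvd_of_inr hζ (Qv_max v) (Qv_comap v) fun σ hσ => by
        rw [hκ]
        exact hTS v hv σ hσ
  have hNa : p ^ (Module.finrank ℚ K / 2) ≤ Ideal.absNorm 𝔞 := by
    have h1 : Ideal.absNorm 𝔞 * Ideal.absNorm 𝔟 = p ^ Module.finrank ℚ K := by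
      rw [← map_mul, hab, Ideal.absNorm_span_singleton]
      have h4 : Algebra.norm ℤ (p : 𝓞 K) = (p : ℤ) ^ Module.finrank ℤ (𝓞 K) := by
        have := Algebra.norm_algebraMap (S := 𝓞 K) (p : ℤ)
        simpa using this
      rw [h4, Int.natAbs_pow, Int.natAbs_natCast, RingOfIntegers.rank]
    have h2 : (p ^ (Module.finrank ℚ K / 2)) ^ 2 ≤ (Ideal.absNorm 𝔞) ^ 2 := by
      calc (p ^ (Module.finrank ℚ K / 2)) ^ 2 = p ^ (Module.finrank ℚ K / 2 * 2) := by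
            rw [← pow_mul]
        _ ≤ p ^ Module.finrank ℚ K := Nat.pow_le_pow_right hp.out.pos (Nat.div_mul_le_self _ _)
        _ = Ideal.absNorm 𝔞 * Ideal.absNorm 𝔟 := h1.symm
        _ ≤ Ideal.absNorm 𝔞 * Ideal.absNorm 𝔞 := Nat.mul_le_mul_left _ hN
        _ = (Ideal.absNorm 𝔞) ^ 2 := (sq _).symm
    exact (Nat.pow_le_pow_iff_left (by norm_num)).1 h2
  obtain ⟨T, χ, hTT, hne, hdT, hχ, hres, hresU, hram, hunr, hsel⟩ :=
    hloop K p ζ hζ T₀ U 𝔞 hp2 hTU (fun v hv => by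
      by_cases hvU : v ∈ U
      · exact Or.inr hvU
      · exact Or.inl (hST v (hpS v hv) hvU)) ⟨𝔟, hab.symm⟩ (fun v hv => by
      have hpv : (p : 𝓞 K) ∈ v.asIdeal := by
        have h1 : (p : 𝓞 K) ∈ 𝔞 * 𝔟 := by
          rw [hab]
          exact Ideal.mem_span_singleton_self _
        exact hv ((Ideal.mul_le_left : 𝔞 * 𝔟 ≤ 𝔞) h1)
      refine hST v (hpS v hpv) fun hvU => ?_
      have h1 := (hmU v).1 hvU
      have h2 : (⊤ : Ideal (𝓞 K)) ≤ v.asIdeal := by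
        rw [← Ideal.isCoprime_iff_sup_eq.1 hcop]
        exact sup_le hv h1
      exact v.isPrime.ne_top (top_le_iff.1 h2)) hNa hT0 lam χ₀ hχ₀
  have hdec : ∀ v, v ∈ T₀ ∨ v ∈ U → ∀ g ∈ Dec (Qv v), χ g = χ₀ g := fun v hv =>
    hv.elim (hres v) (hresU v)
  have hSB : ∀ v, v ∈ B ∨ v ∈ S → v ∈ T₀ ∨ v ∈ U := fun v hv => by
    by_cases hvU : v ∈ U
    · exact Or.inr hvU
    · exact Or.inl (hv.elim (fun h => hBT v h hvU) fun h => hST v h hvU)
  refine ⟨χ, hχ, fun v hv => hdec v (hSB v hv), ?_, ?_⟩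
  · obtain ⟨v, hv, hv0⟩ := Finset.exists_of_ssubset (hTT.ssubset_of_ne hne)
    have hvU : v ∉ U := fun h => Finset.disjoint_left.1 hdT hv h
    exact ⟨v, fun h => (hSB v (Or.inl h)).elim hv0 hvU, fun h => (hSB v (Or.inr h)).elim hv0 hvU,
      hram v hv hv0⟩
  rintro c rfl x hx1 hx2 ha hb hc ⟨y, hy1, hy2⟩
  have hx : Hm p x := ⟨hx1, hx2⟩
  obtain ⟨κ, hκ⟩ := kp_surj hζ hx.c hx.m
  have hout : ∀ v, v ∉ S → ∃ i : (plK (S : Set (HS K)) 𝔟).ι,
      (plK (S : Set (HS K)) 𝔟).I i = Inr (Qv v) ∧ (plK (S : Set (HS K)) 𝔟).DI i = Dec (Qv v) :=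
    fun v hv => ⟨⟨Qv v, Qv_max v, v, Qv_comap v, hv⟩, rfl, rfl⟩
  have hstr : ∀ v, v ∈ S → v ∉ U → ∃ k : (plK (S : Set (HS K)) 𝔟).κ,
      (plK (S : Set (HS K)) 𝔟).D k = Dec (Qv v) :=
    fun v hv hvU => ⟨⟨Qv v, Qv_max v, v, Qv_comap v, hv, fun h => hvU ((hmU v).2 h)⟩, rfl⟩
  refine hsel (fun v => if v ∈ T₀ then lam v else c.χ) (fun v hv g _ => by rw [if_pos hv])
    (fun v _ hv g _ => by rw [if_neg hv]) x ⟨κ, fun v hv => ?_, fun v hv => ?_, fun g => by
      rw [hκ]⟩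
  · beta_reduce
    simp only [hκ]
    by_cases hv0 : v ∈ T₀
    · rw [if_pos hv0]
      by_cases hvS : v ∈ S
      · obtain ⟨k, hk⟩ := hstr v hvS (hnot v hv0)
        obtain ⟨a, ha'⟩ := hc k
        refine ⟨a, fun g hg => ?_⟩
        rw [hlam, lam0, if_pos (hs v hvS), ← hres v hv0 g hg]
        exact ha' g (by rw [hk]; exact hg)
      · obtain ⟨i, hi1, hi2⟩ := hout v hvS
        by_cases hI : ∀ g ∈ Inr (Qv v), c.χ g = 0
        · have hxI : Unr v x := fun g hg => ha i (by rw [hi1]; exact hI) g (by rw [hi1]; exact hg)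
          obtain ⟨-, h5, -⟩ := hfrv K p x hx v hxI
          by_cases h : ∃ g ∈ Dec (Qv v), χ₀ g ≠ 0
          · have hχI : Unr v χ₀ := fun g hg => by
              rw [← hres v hv0 g (Inr_le _ hg)]
              exact hI g hg
            have hf0 : χ₀ (fr v) ≠ 0 := by
              intro h6
              obtain ⟨g, hg, hg0⟩ := h
              exact hg0 ((hfrv K p χ₀ h0 v hχI).2.1 h6 g hg)
            refine ⟨x (fr v) / χ₀ (fr v), fun g hg => ?_⟩
            rw [hlam, lam0, if_pos h]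
            have h7 : Hm p (x + (-(x (fr v) / χ₀ (fr v))) • χ₀) := hx.add (h0.smul _)
            have h8 : Unr v (x + (-(x (fr v) / χ₀ (fr v))) • χ₀) := fun g hg => by
              rw [Pi.add_apply, Pi.smul_apply, hxI g hg, hχI g hg, smul_zero, add_zero]
            have h9 := (hfrv K p _ h7 v h8).2.1 (by
              rw [Pi.add_apply, Pi.smul_apply, smul_eq_mul]
              field_simp
              ring) g hg
            rw [Pi.add_apply, Pi.smul_apply, smul_eq_mul] at h9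
            linear_combination h9
          · by_cases h6 : ∃ y : GK K → ZMod p, Hm p y ∧ Unr v y ∧ y (fr v) ≠ 0
            · obtain ⟨h7, h8, h9⟩ := Classical.choose_spec h6
              set y' := Classical.choose h6 with hy'
              refine ⟨x (fr v) / y' (fr v), fun g hg => ?_⟩
              rw [hlam, lam0, if_neg h, dif_pos h6, ← hy']
              have k7 : Hm p (x + (-(x (fr v) / y' (fr v))) • y') := hx.add (h7.smul _)
              have k8 : Unr v (x + (-(x (fr v) / y' (fr v))) • y') := fun g hg => by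
                rw [Pi.add_apply, Pi.smul_apply, hxI g hg, h8 g hg, smul_zero, add_zero]
              have k9 := (hfrv K p _ k7 v k8).2.1 (by
                rw [Pi.add_apply, Pi.smul_apply, smul_eq_mul]
                field_simp
                ring) g hg
              rw [Pi.add_apply, Pi.smul_apply, smul_eq_mul] at k9
              linear_combination k9
            · refine ⟨0, fun g hg => ?_⟩
              rw [zero_mul]
              refine h5 ?_ g hg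
              by_contra h7
              exact h6 ⟨x, hx, hxI, h7⟩
        · push Not at hI
          obtain ⟨g, hg, hg0⟩ := hI
          have h : ∃ g ∈ Dec (Qv v), χ₀ g ≠ 0 :=
            ⟨g, Inr_le _ hg, by rwa [← hres v hv0 g (Inr_le _ hg)]⟩
          obtain ⟨a, ha'⟩ := hb i ⟨g, by rw [hi1]; exact hg, hg0⟩
          refine ⟨a, fun g hg => ?_⟩
          rw [hlam, lam0, if_pos h, ← hres v hv0 g hg]
          exact ha' g (by rw [hi2]; exact hg)
    · rw [if_neg hv0]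
      have hvU : v ∉ U := fun h => Finset.disjoint_left.1 hdT hv h
      have hvS : v ∉ S := fun h => hv0 (hST v h hvU)
      obtain ⟨i, hi1, hi2⟩ := hout v hvS
      obtain ⟨a, ha'⟩ := hb i (by rw [hi1]; exact hram v hv hv0)
      exact ⟨a, fun g hg => ha' g (by rw [hi2]; exact hg)⟩
  · by_cases hvU : v ∈ U
    · have hvS : v ∈ S := hpS v (hpb v ((hmU v).1 hvU))
      refine hcup K p ζ hζ v c.χ hχ (fun g hg => ?_) ?_ κ y hy1 fun g h => ?_
      · rw [hresU v hvU g (Inr_le _ hg)]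
        exact hu v ((hmU v).1 hvU) g hg
      · obtain ⟨g, hg, hg0⟩ := hs v hvS
        exact ⟨g, hg, by rwa [hresU v hvU g hg]⟩
      · rw [hκ]
        exact hy2 g h
    · have hv0 : v ∉ T₀ := fun h => hv (hTT h)
      have hvS : v ∉ S := fun h => hv0 (hST v h hvU)
      obtain ⟨i, hi1, hi2⟩ := hout v hvS
      refine od_dvd_of_inr hζ (Qv_max v) (Qv_comap v) fun σ hσ => ?_
      rw [hκ]
      exact ha i (by rw [hi1]; exact hunr v hv hvU) σ (by rw [hi1]; exact hσ)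

end Pool.Agent.NH7.BK
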