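import Pool.Agent.NH7.GU.Stms

/-!
# Selmer groups of residually trivial representations in cyclic extensions: definitions

`p` is an odd prime. For a representation `ρ` of `G` with values in `GL_N(ℤ_p)` which is congruent to
`1` modulo `p` and a character `χ : G → ℤ/p` the cocycles of `ρ` over the kernel of `χ` with local
conditions are compared with those over `G`.
-/

set_option autoImplicit false
set_option linter.unusedSectionVars false

namespace Pool.Agent.NH7.BK

open NumberField IsDedekindDomain Pool.Agent.W401.Cheb Pool.Agent.NH7.Sch Filter Topology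
open Pool.Agent.NH7.GU (Cyc Chr HS Qv fr Hm Unr H0 HL Cq cl mem_H0 mem_HL)

/-! ### The abstract part -/

section abs

/-- a group with inertia groups `I i` (at the places outside `S`) in decomposition groups `DI i`, and
with decomposition groups `D k` (at the places of `S` with the strict condition) -/
structure Pl (G : Type) [Group G] where
  ι : Type
  I : ι → Subgroup G
  DI : ι → Subgroup G
  I_le : ∀ i, I i ≤ DI i
  I_nor : ∀ i, ∀ g ∈ DI i, ∀ x ∈ I i, g * x * g⁻¹ ∈ I i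
  I_conj : ∀ (i : ι) (g : G), ∃ j, ∀ x, x ∈ I i ↔ g * x * g⁻¹ ∈ I j
  κ : Type
  D : κ → Subgroup G
  D_conj : ∀ (k : κ) (g : G), ∃ j, ∀ x, x ∈ D k ↔ g * x * g⁻¹ ∈ D j

/-- a continuous representation congruent to `1` modulo `p`, trivial on the groups `I i` -/
structure Rp (p : ℕ) [Fact p.Prime] {G : Type} [Group G] [TopologicalSpace G] (d : Pl G)
    (N : ℕ) where
  ρ : G →* Matrix (Fin N) (Fin N) ℤ_[p]
  cont : Continuous ρ
  one : ∀ g i j, (p : ℤ_[p]) ∣ (ρ g - 1) i j
  triv : ∀ i, ∀ g ∈ d.I i, ρ g = 1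

variable {p : ℕ} [hp : Fact p.Prime] {G : Type} [Group G] [TopologicalSpace G] {d : Pl G} {N : ℕ}

/-- the matrix of `g` over a `ℤ_p`-algebra -/
noncomputable def Rp.mO (R : Rp p d N) (O : Type) [CommRing O] [Algebra ℤ_[p] O] (g : G) :
    Matrix (Fin N) (Fin N) O :=
  (R.ρ g).map (algebraMap ℤ_[p] O)

/-- a vector over a `ℤ_p`-algebra -/
noncomputable def toO (O : Type) [CommRing O] [Algebra ℤ_[p] O] (x : Fin N → ℤ_[p]) : Fin N → O :=
  fun j => algebraMap ℤ_[p] O (x j)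

/-- continuous cocycles of `ρ` on the subgroup `H` -/
structure CocV (R : Rp p d N) (H : Subgroup G) (f : G → Fin N → ℤ_[p]) : Prop where
  cont : Continuous fun x : H => f x
  mul : ∀ g ∈ H, ∀ h ∈ H, f (g * h) = f g + (R.ρ g).mulVec (f h)

/-- the cocycles on `H` with the local conditions: trivial on the groups `I i`, trivial up to torsion
on the groups `D k` -/
structure SelV (R : Rp p d N) (H : Subgroup G) (f : G → Fin N → ℤ_[p]) : Prop where
  coc : CocV R H f
  away : ∀ i, ∀ g ∈ d.I i, g ∈ H → f g = 0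
  strict : ∀ k, ∃ (m : ℕ) (z : Fin N → ℤ_[p]), ∀ g ∈ d.D k, g ∈ H →
    (p : ℤ_[p]) ^ m • f g = (R.ρ g).mulVec z - z

/-- `χ` generates the residual Selmer group -/
def Min (d : Pl G) (c : Chr p G) : Prop :=
  ∀ x : G → ZMod p, Continuous x → (∀ g h, x (g * h) = x g + x h) →
    (∀ i, (∀ g ∈ d.I i, c.χ g = 0) → ∀ g ∈ d.I i, x g = 0) →
    (∀ i, (∃ g ∈ d.I i, c.χ g ≠ 0) → ∃ a : ZMod p, ∀ g ∈ d.DI i, x g = a * c.χ g) →
    (∀ k, ∃ a : ZMod p, ∀ g ∈ d.D k, x g = a * c.χ g) →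
    (∃ y : G → ZMod p, Continuous y ∧ ∀ g h, y (g * h) = y g + y h + c.χ g * x h) →
    ∃ a : ZMod p, ∀ g, x g = a * c.χ g

variable {O : Type} [CommRing O] [Algebra ℤ_[p] O]

/-- the `O`-valued cocycles for `χ ρ` with the local conditions, up to torsion -/
structure IsV (C : Cyc p O) (c : Chr p G) (R : Rp p d N) (F : G → Fin N → O) : Prop where
  cont : ∀ (n : ℕ) (g : G), ∀ᶠ h in 𝓝 g, ∀ j, (C.z - 1) ^ n ∣ F h j - F g j
  mul : ∀ g h, F (g * h) = F g + C.z ^ (c.χ g).val • (R.mO O g).mulVec (F h)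
  away : ∀ i, ∀ g ∈ d.I i, c.χ g = 0 → F g = 0
  strict : ∀ k, ∃ (n : ℕ) (t : Fin N → O), ∀ g ∈ d.D k, c.χ g = 0 →
    (C.z - 1) ^ n • F g = (R.mO O g).mulVec t - t

end abs

/-! ### The arithmetic part -/

section arith

variable {K : Type} [Field K] [NumberField K] {p : ℕ} [hp : Fact p.Prime] {ζ : K}
  (hζ : IsPrimitiveRoot ζ p)

/-- the Selmer group: the Kummer characters of the `κ` with the conditions given by `lam` at the
primes in `T` and with order divisible by `p` at all other primes -/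
def Sel (T : Finset (HS K)) (lam : HS K → GK K → ZMod p) :
    Submodule (ZMod p) (GK K → ZMod p) where
  carrier := {x | ∃ κ ∈ HL hζ T lam, (∀ v ∉ T, (p : ℤ) ∣ od v κ) ∧ ∀ g, x g = kp hζ κ g}
  add_mem' := by
    rintro x y ⟨κ, h1, h2, h3⟩ ⟨μ, k1, k2, k3⟩
    refine ⟨κ * μ, Subgroup.mul_mem _ h1 k1, fun v hv => ?_, fun g => ?_⟩
    · rw [od_mul]
      exact dvd_add (h2 v hv) (k2 v hv)
    · rw [Pi.add_apply, h3, k3, kp_mul_left]
  zero_mem' := ⟨1, Subgroup.one_mem _, fun v _ => by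
    have h : od v (1 : Kˣ) = 0 := by
      have := od_mul v (1 : Kˣ) 1
      rw [one_mul] at this
      omega
    rw [h]; simp, fun g => by rw [kp_one_left]; rfl⟩
  smul_mem' := by
    rintro a x ⟨κ, h1, h2, h3⟩
    refine ⟨κ ^ a.val, Subgroup.pow_mem _ h1 _, fun v hv => ?_, fun g => ?_⟩
    · rw [od_pow]
      exact (h2 v hv).mul_left _
    · rw [Pi.smul_apply, smul_eq_mul, h3, kp_pow, ZMod.natCast_zmod_val]

theorem mem_Sel {T : Finset (HS K)} {lam : HS K → GK K → ZMod p} {x : GK K → ZMod p} :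
    x ∈ Sel hζ T lam ↔ ∃ κ ∈ HL hζ T lam, (∀ v ∉ T, (p : ℤ) ∣ od v κ) ∧
      ∀ g, x g = kp hζ κ g := Iff.rfl

end arith

end Pool.Agent.NH7.BK
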