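import Pool.Agent.NH7.BK.Asm

/-!
# Selmer groups of residually trivial representations: the theorem in terms of characters
-/

set_option autoImplicit false
set_option linter.unusedSectionVars false

namespace Pool.Agent.NH7.BK

open NumberField IsDedekindDomain Pool.Agent.W401.Cheb Pool.Agent.NH7.Sch Filter Topology Matrix
open Pool.Agent.NH7.GU (Cyc Chr HS Qv fr Hm Unr H0 HL Cq cl mem_H0 mem_HL Qv_max Qv_comap
  exists_under mem_under hm_conj hm_one hm_inv fin_ram tot_complex)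

section vec

variable {p : ℕ} [hp : Fact p.Prime] {N : ℕ}

/-- vectors over `ℚ_p` -/
noncomputable def cQ (x : Fin N → ℤ_[p]) : Fin N → ℚ_[p] := fun j => ((x j : ℤ_[p]) : ℚ_[p])

/-- the action on `ℚ_p^N` -/
noncomputable def mQ (M : Matrix (Fin N) (Fin N) ℤ_[p]) (x : Fin N → ℚ_[p]) : Fin N → ℚ_[p] :=
  (M.map (algebraMap ℤ_[p] ℚ_[p])).mulVec x

theorem cQ_inj {x y : Fin N → ℤ_[p]} (h : cQ x = cQ y) : x = y := by
  funext j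
  have := congrFun h j
  exact Subtype.ext this

theorem cQ_mul (M : Matrix (Fin N) (Fin N) ℤ_[p]) (x : Fin N → ℤ_[p]) :
    cQ (M.mulVec x) = mQ M (cQ x) := by
  funext j
  have h := RingHom.map_mulVec (algebraMap ℤ_[p] ℚ_[p]) M x j
  exact h

theorem cQ_add (x y : Fin N → ℤ_[p]) : cQ (x + y) = cQ x + cQ y := by
  funext j
  simp [cQ]

theorem cQ_sub (x y : Fin N → ℤ_[p]) : cQ (x - y) = cQ x - cQ y := by
  funext j
  simp [cQ]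

theorem cQ_smul (k : ℕ) (x : Fin N → ℤ_[p]) :
    cQ ((p : ℤ_[p]) ^ k • x) = (p : ℚ_[p]) ^ k • cQ x := by
  funext j
  simp [cQ]

theorem cQ_zero : cQ (0 : Fin N → ℤ_[p]) = 0 := by
  funext j
  simp [cQ]

theorem mQ_smul (M : Matrix (Fin N) (Fin N) ℤ_[p]) (a : ℚ_[p]) (x : Fin N → ℚ_[p]) :
    mQ M (a • x) = a • mQ M x := by
  unfold mQ
  rw [Matrix.mulVec_smul]

theorem mQ_zero (M : Matrix (Fin N) (Fin N) ℤ_[p]) : mQ M (0 : Fin N → ℚ_[p]) = 0 := by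
  unfold mQ
  rw [Matrix.mulVec_zero]

theorem mQ_one (x : Fin N → ℚ_[p]) : mQ (1 : Matrix (Fin N) (Fin N) ℤ_[p]) x = x := by
  unfold mQ
  rw [Matrix.map_one _ (map_zero _) (map_one _), Matrix.one_mulVec]

theorem cQ_cont : Continuous (cQ : (Fin N → ℤ_[p]) → Fin N → ℚ_[p]) := by
  refine continuous_pi fun j => ?_
  exact continuous_subtype_val.comp (continuous_apply j)

/-- vectors over `ℚ_p` are integral up to a power of `p` -/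
theorem exists_int_vec (x : Fin N → ℚ_[p]) : ∃ k : ℕ, ∀ l : ℕ, k ≤ l →
    ∃ z : Fin N → ℤ_[p], cQ z = (p : ℚ_[p]) ^ l • x := by
  have h1 : ∀ a : ℚ_[p], ∃ k : ℕ, ∀ l : ℕ, k ≤ l → ‖(p : ℚ_[p]) ^ l * a‖ ≤ 1 := by
    intro a
    obtain ⟨k, hk⟩ := exists_nat_gt ‖a‖
    have hpk : (k : ℝ) < (p : ℝ) ^ k := by
      have := Nat.lt_pow_self hp.out.one_lt (n := k)
      exact_mod_cast this
    refine ⟨k, fun l hl => ?_⟩
    rw [norm_mul, norm_pow, Padic.norm_p, inv_pow, inv_mul_le_iff₀ (by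
      have := hp.out.pos
      positivity), mul_one]
    have hpl : (p : ℝ) ^ k ≤ (p : ℝ) ^ l :=
      pow_le_pow_right₀ (by exact_mod_cast hp.out.one_lt.le) hl
    linarith
  choose k hk using fun j => h1 (x j)
  refine ⟨∑ j, k j, fun l hl => ?_⟩
  have h2 : ∀ j, ‖(p : ℚ_[p]) ^ l * x j‖ ≤ 1 := fun j =>
    hk j l ((Finset.single_le_sum (fun i _ => Nat.zero_le (k i)) (Finset.mem_univ j)).trans hl)
  exact ⟨fun j => ⟨(p : ℚ_[p]) ^ l * x j, h2 j⟩, rfl⟩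

end vec

variable {K : Type} [Field K] [NumberField K] {p : ℕ} [hp : Fact p.Prime] {ζ : K} {N : ℕ}

/-- the representations -/
structure RepK (S : Set (HS K)) (ρ : GK K →* Matrix (Fin N) (Fin N) ℤ_[p]) : Prop where
  cont : Continuous ρ
  one : ∀ g i j, (p : ℤ_[p]) ∣ (ρ g - 1) i j
  unr : ∀ v ∉ S, ∀ Q : Ideal (OO K), Q.IsMaximal →
    Q.comap (algebraMap (𝓞 K) (OO K)) = v.asIdeal → ∀ g ∈ Inr Q, ρ g = 1

/-- continuous cocycles on the subgroup `H` with values in `ℚ_p^N` and with the local conditions -/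
structure SelQ (S : Set (HS K)) (𝔟 : Ideal (𝓞 K)) (ρ : GK K →* Matrix (Fin N) (Fin N) ℤ_[p])
    (H : Subgroup (GK K)) (c : H → Fin N → ℚ_[p]) : Prop where
  cont : Continuous c
  mul : ∀ σ τ, c (σ * τ) = c σ + mQ (ρ σ) (c τ)
  away : ∀ v ∉ S, ∀ Q : Ideal (OO K), Q.IsMaximal →
    Q.comap (algebraMap (𝓞 K) (OO K)) = v.asIdeal → ∃ x : Fin N → ℚ_[p],
      ∀ σ : H, (σ : GK K) ∈ Inr Q → c σ = mQ (ρ σ) x - x
  strict : ∀ v ∈ S, ¬ 𝔟 ≤ v.asIdeal → ∀ Q : Ideal (OO K), Q.IsMaximal →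
    Q.comap (algebraMap (𝓞 K) (OO K)) = v.asIdeal → ∃ x : Fin N → ℚ_[p],
      ∀ σ : H, (σ : GK K) ∈ Dec Q → c σ = mQ (ρ σ) x - x

/-- the representation as abstract data -/
def repD {S : Set (HS K)} (𝔟 : Ideal (𝓞 K)) {ρ : GK K →* Matrix (Fin N) (Fin N) ℤ_[p]}
    (h : RepK S ρ) : Rp p (plK S 𝔟) N where
  ρ := ρ
  cont := h.cont
  one := h.one
  triv := fun Q g hg => by
    obtain ⟨v, hv, hvS⟩ := Q.2.2
    exact h.unr v hvS Q.1 Q.2.1 hv g hg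

open Classical in
/-- extension by zero -/
noncomputable def ext0 {H : Subgroup (GK K)} (c : H → Fin N → ℤ_[p]) (g : GK K) : Fin N → ℤ_[p] :=
  if h : g ∈ H then c ⟨g, h⟩ else 0

theorem ext0_of {H : Subgroup (GK K)} (c : H → Fin N → ℤ_[p]) {g : GK K} (h : g ∈ H) :
    ext0 c g = c ⟨g, h⟩ := by
  rw [ext0, dif_pos h]

theorem p_ne : (p : ℚ_[p]) ≠ 0 := by
  have := hp.out.ne_zero
  exact_mod_cast this

/-- from `ℚ_p`-valued to `ℤ_p`-valued cocycles -/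
theorem selV_of_selQ (hint : S_int) {S : Set (HS K)} {𝔟 : Ideal (𝓞 K)}
    {ρ : GK K →* Matrix (Fin N) (Fin N) ℤ_[p]} (hρ : RepK S ρ) {H : Subgroup (GK K)}
    (hH : IsClosed (H : Set (GK K))) {c : H → Fin N → ℚ_[p]} (h : SelQ S 𝔟 ρ H c) :
    ∃ (k : ℕ) (f : GK K → Fin N → ℤ_[p]), SelV (repD 𝔟 hρ) H f ∧
      ∀ σ : H, cQ (f σ) = (p : ℚ_[p]) ^ k • c σ := by
  have : CompactSpace H := isCompact_iff_compactSpace.1 hH.isCompact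
  obtain ⟨k, f, hf, hfc⟩ := hint p N H c h.cont
  have hfc' : ∀ σ, cQ (f σ) = (p : ℚ_[p]) ^ k • c σ := fun σ => by
    funext j
    exact hfc σ j
  refine ⟨k, ext0 f, ⟨⟨?_, fun g hg t ht => ?_⟩, fun i g hg hgH => ?_, fun i => ?_⟩, fun σ => by
    rw [ext0_of f σ.2]
    exact hfc' σ⟩
  · have : (fun x : H => ext0 f x) = f := funext fun x => ext0_of f x.2
    rw [this]
    exact hf
  · rw [ext0_of f hg, ext0_of f ht, ext0_of f (H.mul_mem hg ht)]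
    apply cQ_inj
    rw [cQ_add]
    have e1 : cQ ((repD 𝔟 hρ).ρ g *ᵥ f ⟨t, ht⟩) = mQ (ρ g) (cQ (f ⟨t, ht⟩)) := cQ_mul _ _
    have e2 : (⟨g * t, H.mul_mem hg ht⟩ : H) = ⟨g, hg⟩ * ⟨t, ht⟩ := rfl
    rw [e1, e2, hfc', hfc', hfc', h.mul, mQ_smul, smul_add]
  · obtain ⟨v, hv, hvS⟩ := i.2.2
    obtain ⟨x, hx⟩ := h.away v hvS i.1 i.2.1 hv
    rw [ext0_of f hgH]
    apply cQ_inj
    have e1 : ρ g = 1 := hρ.unr v hvS i.1 i.2.1 hv g hg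
    have e2 := hx ⟨g, hgH⟩ hg
    rw [hfc', e2]
    beta_reduce
    rw [show ρ ((⟨g, hgH⟩ : H) : GK K) = 1 from e1, mQ_one, sub_self, smul_zero, cQ_zero]
  · obtain ⟨v, hv, hvS, hvb⟩ := i.2.2
    obtain ⟨x, hx⟩ := h.strict v hvS hvb i.1 i.2.1 hv
    obtain ⟨m, hm⟩ := exists_int_vec x
    obtain ⟨z, hz⟩ := hm (m + k) (Nat.le_add_right _ _)
    refine ⟨m, z, fun g hg hgH => ?_⟩
    rw [ext0_of f hgH]
    apply cQ_inj
    have e1 : cQ ((repD 𝔟 hρ).ρ g *ᵥ z) = mQ (ρ g) (cQ z) := cQ_mul _ _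
    rw [cQ_smul, cQ_sub, e1, hz, hfc', hx ⟨g, hgH⟩ hg, mQ_smul, smul_smul, ← pow_add,
      smul_sub]

/-- from `ℤ_p`-valued to `ℚ_p`-valued cocycles -/
theorem selQ_of_selV {S : Set (HS K)} {𝔟 : Ideal (𝓞 K)}
    {ρ : GK K →* Matrix (Fin N) (Fin N) ℤ_[p]} (hρ : RepK S ρ) {H : Subgroup (GK K)}
    {f : GK K → Fin N → ℤ_[p]} (h : SelV (repD 𝔟 hρ) H f) (k : ℕ) :
    SelQ S 𝔟 ρ H fun σ => ((p : ℚ_[p]) ^ k)⁻¹ • cQ (f σ) := by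
  refine ⟨?_, fun σ τ => ?_, fun v hv Q hQ hQv => ⟨0, fun σ hσ => ?_⟩, fun v hv hvb Q hQ hQv => ?_⟩
  · exact (cQ_cont.comp h.coc.cont).const_smul (((p : ℚ_[p]) ^ k)⁻¹)
  · have e := h.coc.mul _ σ.2 _ τ.2
    have e1 : cQ ((repD 𝔟 hρ).ρ σ *ᵥ f τ) = mQ (ρ σ) (cQ (f τ)) := cQ_mul _ _
    beta_reduce
    rw [Subgroup.coe_mul, e, cQ_add, e1, mQ_smul, smul_add]
  · have e := h.away ⟨Q, hQ, v, hQv, hv⟩ σ hσ σ.2
    beta_reduce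
    rw [e, cQ_zero, smul_zero, mQ_zero, sub_zero]
  · obtain ⟨m, z, hz⟩ := h.strict ⟨Q, hQ, v, hQv, hv, hvb⟩
    refine ⟨((p : ℚ_[p]) ^ (k + m))⁻¹ • cQ z, fun σ hσ => ?_⟩
    have e := congrArg cQ (hz σ hσ σ.2)
    have e1 : cQ ((repD 𝔟 hρ).ρ σ *ᵥ z) = mQ (ρ σ) (cQ z) := cQ_mul _ _
    rw [cQ_smul, cQ_sub, e1] at e
    beta_reduce
    rw [mQ_smul, ← smul_sub, ← e, smul_smul]
    congr 1
    have := p_ne (p := p)
    rw [pow_add]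
    field_simp

/-- **The theorem in terms of characters** -/
theorem main_sel (hp2 : p ≠ 2) (hζ : IsPrimitiveRoot ζ p)
    (hcnj : Pool.Agent.NH7.GU.S_cnj) (hfrv : Pool.Agent.NH7.GU.S_frv)
    (hcls : S_cls) (hloop : S_loop) (hcup : S_cup) (hcmp : S_cmp) (hint : S_int)
    {S : Set (HS K)} (hS : S.Finite) (hpS : ∀ v : HS K, (p : 𝓞 K) ∈ v.asIdeal → v ∈ S)
    {B : Set (HS K)} (hB : B.Finite)
    (𝔞 𝔟 : Ideal (𝓞 K)) (hab : 𝔞 * 𝔟 = Ideal.span {(p : 𝓞 K)}) (hcop : IsCoprime 𝔞 𝔟)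
    (hN : Ideal.absNorm 𝔟 ≤ Ideal.absNorm 𝔞) {χ₀ : GK K → ZMod p} (h0 : Hm p χ₀)
    (hs : ∀ v ∈ S, ∃ g ∈ Dec (Qv v), χ₀ g ≠ 0) (hu : ∀ v : HS K, 𝔟 ≤ v.asIdeal → Unr v χ₀) :
    ∃ χ : GK K → ZMod p, ∃ _ : Continuous χ, ∃ hm : ∀ g h, χ (g * h) = χ g + χ h,
      (∃ σ, χ σ = 1) ∧
      (∀ v ∈ B, ∀ Q : Ideal (OO K), Q.IsMaximal →
        Q.comap (algebraMap (𝓞 K) (OO K)) = v.asIdeal → ∀ g ∈ Dec Q, χ g = χ₀ g) ∧
      (∃ v ∉ B, ∃ g ∈ Inr (Qv v), χ g ≠ 0) ∧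
      ∀ (N : ℕ) (ρ : GK K →* Matrix (Fin N) (Fin N) ℤ_[p]), RepK S ρ →
        ∀ c : kerX hm → Fin N → ℚ_[p], SelQ S 𝔟 ρ (kerX hm) c →
          ∃ c' : (⊤ : Subgroup (GK K)) → Fin N → ℚ_[p], SelQ S 𝔟 ρ ⊤ c' ∧ ∃ x : Fin N → ℚ_[p],
            ∀ (σ : kerX hm) (τ : (⊤ : Subgroup (GK K))), (τ : GK K) = σ →
              c σ = c' τ + (mQ (ρ σ) x - x) := by
  classical
  have := tot_complex hζ fun h => absurd h hp2
  obtain ⟨χ, hχ, hres, ⟨v, hvB, hvS, g, hg, hg0⟩, hsel⟩ :=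
    main_char hζ hp2 hfrv hcls hloop hcup hS.toFinset (fun v hv => hS.mem_toFinset.2 (hpS v hv))
      hB.toFinset 𝔞 𝔟 hab hcop hN h0 (fun v hv => hs v (hS.mem_toFinset.1 hv)) hu
  obtain ⟨σ, hσ⟩ := exists_X_one hχ.m hg0
  refine ⟨χ, hχ.c, hχ.m, ⟨σ, hσ⟩, fun v hv Q hQ hQv g hg => ?_,
    ⟨v, fun h => hvB (hB.mem_toFinset.2 h), g, hg, hg0⟩, fun N ρ hρ c hc => ?_⟩
  · obtain ⟨τ, hτ⟩ := hcnj K v Q (Qv v) hQ (Qv_max v) hQv (Qv_comap v)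
    have h1 : τ * g * τ⁻¹ ∈ Dec (Qv v) := by
      rw [hτ]
      exact (Dec_mv τ g).1 hg
    have h2 := hres v (Or.inl (hB.mem_toFinset.2 hv)) _ h1
    rwa [hm_conj hχ, hm_conj h0] at h2
  · let ch : Chr p (GK K) := ⟨χ, hχ.c, hχ.m, σ, hσ⟩
    have hmin : Min (plK S 𝔟) ch := by
      have := hsel ch rfl
      rwa [hS.coe_toFinset] at this
    have hkk : ch.ker = kerX hχ.m := Subgroup.ext fun g => Iff.rfl
    have hnon : ∀ k : (plK S 𝔟).κ, ∃ g ∈ (plK S 𝔟).D k, ch.χ g ≠ 0 := by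
      intro k
      obtain ⟨v, hv, hvS, -⟩ := k.2.2
      obtain ⟨τ, hτ⟩ := hcnj K v (Qv v) k.1 (Qv_max v) k.2.1 (Qv_comap v) hv
      obtain ⟨g, hg, hg0⟩ := hs v hvS
      refine ⟨τ * g * τ⁻¹, ?_, ?_⟩
      · change τ * g * τ⁻¹ ∈ Dec k.1
        rw [hτ]
        exact (Dec_mv τ g).1 hg
      · change χ (τ * g * τ⁻¹) ≠ 0
        rw [hm_conj hχ, hres v (Or.inr (hS.mem_toFinset.2 hvS)) g hg]
        exact hg0
    obtain ⟨k, f, hf, hfc⟩ := selV_of_selQ hint hρ (kerX_closed hχ.c hχ.m) hc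
    obtain ⟨F, hF, m, z, hz⟩ := hcmp p (GK K) (plK S 𝔟) ch hp2 hnon hmin N (repD 𝔟 hρ) f
      (by rw [hkk]; exact hf)
    refine ⟨_, selQ_of_selV hρ hF (m + k), ((p : ℚ_[p]) ^ (m + k))⁻¹ • cQ z, fun σ τ hστ => ?_⟩
    have e := congrArg cQ (hz σ (by rw [hkk]; exact σ.2))
    have e1 : cQ ((repD 𝔟 hρ).ρ σ *ᵥ z) = mQ (ρ σ) (cQ z) := cQ_mul _ _
    rw [cQ_smul, cQ_add, cQ_sub, e1, hfc, smul_smul, ← pow_add] at e
    beta_reduce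
    rw [hστ, mQ_smul, ← smul_sub, ← smul_add, ← e, smul_smul,
      inv_mul_cancel₀ (pow_ne_zero _ p_ne), one_smul]

end Pool.Agent.NH7.BK
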