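import Pool.Agent.NH7.BK.Stms
import Pool.Agent.NH7.GU.LocP

/-!
# The group of local classes (BK7-B4)
-/

set_option autoImplicit false
set_option linter.unusedSectionVars false

namespace Pool.Agent.NH7.BK.LocP

open NumberField IsDedekindDomain Pool.Agent.W401.Cheb Pool.Agent.NH7.Sch
open Pool.Agent.NH7.GU (HS Qv H0 Qv_max Qv_comap mem_H0)
open Pool.Agent.NH7.GU.LocP (crt unifs od_unifs deep p_ne span_ne sub_dvd exp_p card_ker_aux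
  card_units_mod ppow_mem od_dvd_H0 normal_form)

variable {K : Type} [Field K] [NumberField K] {p : ℕ} [hp : Fact p.Prime] {ζ : K}
  (hζ : IsPrimitiveRoot ζ p)

/-- the modulus `∏ v ^ N` -/
noncomputable def m1 (T : Finset (HS K)) (N : ℕ) : Ideal (𝓞 K) := ∏ v ∈ T, v.asIdeal ^ N

/-- the modulus `𝔞 ∏ v ^ N` -/
noncomputable def n1 (𝔞 : Ideal (𝓞 K)) (T : Finset (HS K)) (N : ℕ) : Ideal (𝓞 K) := 𝔞 * m1 T N

theorem mem_m1 {T : Finset (HS K)} {N : ℕ} {x : 𝓞 K} :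
    x ∈ m1 T N ↔ ∀ v ∈ T, x ∈ v.asIdeal ^ N := by
  unfold m1
  rw [← IsDedekindDomain.inf_pow_eq_prod_of_prime (s := T)
    (fun v : HS K => v.asIdeal) (fun _ => N) (fun v _ => v.prime)
    (fun v _ w _ h e => h (HeightOneSpectrum.ext e))]
  simp only [Submodule.mem_finsetInf]

theorem m1_ne (T : Finset (HS K)) (N : ℕ) : m1 T N ≠ ⊥ :=
  Finset.prod_ne_zero_iff.2 fun v _ => pow_ne_zero _ v.ne_bot

theorem n1_ne {𝔞 : Ideal (𝓞 K)} (ha : 𝔞 ≠ ⊥) (T : Finset (HS K)) (N : ℕ) : n1 𝔞 T N ≠ ⊥ :=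
  mul_ne_zero ha (m1_ne T N)

theorem n1_le (𝔞 : Ideal (𝓞 K)) (T : Finset (HS K)) (N : ℕ) : n1 𝔞 T N ≤ m1 T N :=
  Ideal.mul_le_right

theorem n1_supp {𝔞 : Ideal (𝓞 K)} {T : Finset (HS K)} {N : ℕ}
    (hT : ∀ v : HS K, 𝔞 ≤ v.asIdeal → v ∈ T) (v : HS K)
    (h : n1 𝔞 T N ≤ v.asIdeal) : v ∈ T := by
  unfold n1 m1 at h
  rcases v.isPrime.mul_le.1 h with h1 | h1
  · exact hT v h1
  · obtain ⟨w, hw, hwv⟩ := (v.isPrime.prod_le).1 h1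
    have h2 : w.asIdeal ≤ v.asIdeal := fun x hx =>
      v.isPrime.mem_of_pow_mem N (hwv (Ideal.pow_mem_pow hx N))
    have h3 : w.asIdeal = v.asIdeal := w.isMaximal.eq_of_le v.isPrime.ne_top h2
    rw [← HeightOneSpectrum.ext h3]
    exact hw

/-- the exponent -/
theorem exists_N {𝔞 : Ideal (𝓞 K)} (ha : 𝔞 ≠ ⊥) {T : Finset (HS K)}
    (hT : ∀ v : HS K, 𝔞 ≤ v.asIdeal → v ∈ T) :
    ∃ N : ℕ, m1 T N ≤ 𝔞 ∧
      ∀ v ∈ T, ∃ k : ℕ, k + 1 ≤ N ∧ (p : 𝓞 K) ∈ v.asIdeal ^ k ∧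
        (p : 𝓞 K) ∉ v.asIdeal ^ (k + 1) := by
  obtain ⟨N, hN⟩ := deep T 𝔞 ha hT
  choose k hk1 hk2 using fun v : HS K => exp_p (p := p) v
  refine ⟨N + T.sup (fun v => k v + 1), fun x hx => hN x fun v hv => ?_, fun v hv => ⟨k v, ?_,
    hk1 v, hk2 v⟩⟩
  · exact Ideal.pow_le_pow_right (Nat.le_add_right _ _) (mem_m1.1 hx v hv)
  · exact le_trans (Finset.le_sup (f := fun v => k v + 1) hv) (Nat.le_add_left _ _)

theorem pow_one_add {𝔞 : Ideal (𝓞 K)} {T : Finset (HS K)} {N : ℕ} (hap : (p : 𝓞 K) ∈ 𝔞)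
    (hN : m1 T N ≤ 𝔞) {μ : 𝓞 K} (hμ : μ ∈ m1 T N) : (1 + μ) ^ p - 1 ∈ n1 𝔞 T N := by
  obtain ⟨r, hr⟩ := exists_add_pow_prime_eq hp.out (1 : 𝓞 K) μ
  have e : (1 + μ) ^ p - 1 = μ ^ (p - 1) * μ + p * (μ * r) := by
    rw [hr, one_pow, ← pow_succ, Nat.sub_add_cancel hp.out.one_le]
    ring
  rw [e]
  apply Ideal.add_mem
  · apply Ideal.mul_mem_mul _ hμ
    exact Ideal.pow_mem_of_mem _ (hN hμ) _ (by have := hp.out.two_le; omega)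
  · exact Ideal.mul_mem_mul hap (Ideal.mul_mem_right _ _ hμ)

/-- the number of the elements congruent to zero -/
theorem card_ker {𝔞 : Ideal (𝓞 K)} (T : Finset (HS K)) (N : ℕ)
    (f : 𝓞 K ⧸ n1 𝔞 T N →+* 𝓞 K ⧸ m1 T N)
    (hf : Function.Surjective f) : Nat.card (RingHom.ker f) = Ideal.absNorm 𝔞 := by
  have h1 := card_ker_aux f hf
  have h2 : ∀ I : Ideal (𝓞 K), Nat.card (𝓞 K ⧸ I) = Ideal.absNorm I := fun I => rfl
  have h3 : Ideal.absNorm (n1 𝔞 T N) = Ideal.absNorm 𝔞 * Ideal.absNorm (m1 T N) := by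
    have h4 : n1 𝔞 T N = 𝔞 * m1 T N := rfl
    rw [h4, map_mul]
  rw [h2, h2, h3] at h1
  exact Nat.eq_of_mul_eq_mul_right
    (Nat.pos_of_ne_zero (fun h => m1_ne T N (Ideal.absNorm_eq_zero_iff.1 h))) h1

include hζ in
/-- there are many elements of order `p` -/
theorem card_tors {𝔞 : Ideal (𝓞 K)} (ha : 𝔞 ≠ ⊥) (hap : (p : 𝓞 K) ∈ 𝔞) (T : Finset (HS K))
    (hT : ∀ v : HS K, 𝔞 ≤ v.asIdeal → v ∈ T) (N : ℕ) (hN : m1 T N ≤ 𝔞)
    (hN3 : ∀ v ∈ T, ∃ k : ℕ, k + 1 ≤ N ∧ (p : 𝓞 K) ∈ v.asIdeal ^ k ∧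
        (p : 𝓞 K) ∉ v.asIdeal ^ (k + 1)) :
    Ideal.absNorm 𝔞 * p ^ T.card ≤ Nat.card {x : 𝓞 K ⧸ n1 𝔞 T N // x ^ p = 1} := by
  classical
  have hfin : Finite (𝓞 K ⧸ n1 𝔞 T N) := Ideal.finiteQuotientOfFreeOfNeBot _ (n1_ne ha T N)
  obtain ⟨N', hN1⟩ := deep T (n1 𝔞 T N) (n1_ne ha T N) (n1_supp hT)
  have hz := hζ.toInteger_isPrimitiveRoot
  have hsd : ∀ {i j : ZMod p}, i ≠ j →
    hζ.toInteger ^ i.val - hζ.toInteger ^ j.val ∣ (p : 𝓞 K) := fun h => sub_dvd hζ h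
  set z := hζ.toInteger with hzdef
  clear_value z
  have hE : ∀ a : T → ZMod p, ∃ y : 𝓞 K, ∀ v (hv : v ∈ T),
      y - z ^ (a ⟨v, hv⟩).val ∈ v.asIdeal ^ (N + N') := by
    intro a
    obtain ⟨y, hy⟩ := crt T (N + N') (fun v => if hv : v ∈ T then z ^ (a ⟨v, hv⟩).val else 0)
    refine ⟨y, fun v hv => ?_⟩
    have h1 := hy v hv
    rwa [dif_pos hv] at h1
  choose E hE using hE
  set f := Ideal.Quotient.factor (n1_le 𝔞 T N) with hf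
  have hsurj : Function.Surjective f := Ideal.Quotient.factor_surjective _
  have hEp : ∀ a, (Ideal.Quotient.mk (n1 𝔞 T N) (E a)) ^ p = 1 := by
    intro a
    rw [← map_pow, ← map_one (Ideal.Quotient.mk (n1 𝔞 T N)), Ideal.Quotient.eq]
    apply hN1
    intro v hv
    have h1 : E a ^ p - 1 = E a ^ p - (z ^ (a ⟨v, hv⟩).val) ^ p := by
      rw [← pow_mul, mul_comm, pow_mul, hz.pow_eq_one, one_pow]
    rw [h1]
    obtain ⟨c, hc⟩ := sub_dvd_pow_sub_pow (E a) (z ^ (a ⟨v, hv⟩).val) p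
    rw [hc]
    exact Ideal.mul_mem_right _ _ (Ideal.pow_le_pow_right (Nat.le_add_left _ _) (hE a v hv))
  have hker : ∀ r : 𝓞 K ⧸ n1 𝔞 T N, f r = 0 →
      ∃ μ ∈ m1 T N, r = Ideal.Quotient.mk (n1 𝔞 T N) μ := by
    intro r hr
    obtain ⟨μ, rfl⟩ := Ideal.Quotient.mk_surjective r
    rw [hf, Ideal.Quotient.factor_mk, Ideal.Quotient.eq_zero_iff_mem] at hr
    exact ⟨μ, hr, rfl⟩
  have hkp : ∀ r : 𝓞 K ⧸ n1 𝔞 T N, f r = 0 → (1 + r) ^ p = 1 := by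
    intro r hr
    obtain ⟨μ, hμ, rfl⟩ := hker r hr
    rw [← map_one (Ideal.Quotient.mk (n1 𝔞 T N)), ← map_add, ← map_pow, Ideal.Quotient.eq]
    exact pow_one_add hap hN hμ
  let ψ : (RingHom.ker f) × (T → ZMod p) → {x : 𝓞 K ⧸ n1 𝔞 T N // x ^ p = 1} := fun ra =>
    ⟨(1 + (ra.1 : 𝓞 K ⧸ n1 𝔞 T N)) * Ideal.Quotient.mk (n1 𝔞 T N) (E ra.2), by
      rw [mul_pow, hkp _ (RingHom.mem_ker.1 ra.1.2), hEp, one_mul]⟩
  have hψ : Function.Injective ψ := by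
    rintro ⟨r, a⟩ ⟨r', a'⟩ h
    have h1 : (1 + (r : 𝓞 K ⧸ n1 𝔞 T N)) * Ideal.Quotient.mk (n1 𝔞 T N) (E a) =
      (1 + (r' : 𝓞 K ⧸ n1 𝔞 T N)) * Ideal.Quotient.mk (n1 𝔞 T N) (E a') :=
        congrArg Subtype.val h
    have h2 := congrArg f h1
    rw [map_mul, map_mul, map_add, map_add, RingHom.mem_ker.1 r.2, RingHom.mem_ker.1 r'.2, map_one,
      add_zero, one_mul, one_mul, hf, Ideal.Quotient.factor_mk, Ideal.Quotient.factor_mk,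
      Ideal.Quotient.eq] at h2
    have haa : a = a' := by
      funext v
      by_contra hne
      obtain ⟨k, hkN, hk1, hk2⟩ := hN3 v.1 v.2
      apply hk2
      have h3 : E a - E a' ∈ v.1.asIdeal ^ (k + 1) :=
        Ideal.pow_le_pow_right hkN (mem_m1.1 h2 v.1 v.2)
      have h4 : E a - z ^ (a v).val ∈ v.1.asIdeal ^ (k + 1) :=
        Ideal.pow_le_pow_right (hkN.trans (Nat.le_add_right _ _)) (hE a v.1 v.2)
      have h5 : E a' - z ^ (a' v).val ∈ v.1.asIdeal ^ (k + 1) :=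
        Ideal.pow_le_pow_right (hkN.trans (Nat.le_add_right _ _)) (hE a' v.1 v.2)
      have h6 : z ^ (a v).val - z ^ (a' v).val ∈ v.1.asIdeal ^ (k + 1) := by
        have h7 := Ideal.add_mem _ (Ideal.sub_mem _ h3 h4) h5
        rwa [show E a - E a' - (E a - z ^ (a v).val) + (E a' - z ^ (a' v).val) =
          z ^ (a v).val - z ^ (a' v).val by ring] at h7
      exact Ideal.mem_of_dvd _ (hsd hne) h6
    subst haa
    have hu : IsUnit (Ideal.Quotient.mk (n1 𝔞 T N) (E a)) :=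
      IsUnit.of_pow_eq_one (hEp a) hp.out.ne_zero
    have h3 := hu.mul_right_cancel h1
    have h4 : (r : 𝓞 K ⧸ n1 𝔞 T N) = r' := add_left_cancel h3
    rw [Prod.mk.injEq]
    exact ⟨Subtype.ext h4, rfl⟩
  have h1 := Nat.card_le_card_of_injective ψ hψ
  rw [Nat.card_prod, card_ker T N f hsurj, Nat.card_fun, Nat.card_zmod, Nat.card_eq_fintype_card,
    Fintype.card_coe] at h1
  exact h1

/-- an integral element of `H0` is a `p`-th power modulo `n1` -/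
theorem approx_n1 {𝔞 : Ideal (𝓞 K)} (ha : 𝔞 ≠ ⊥) {T : Finset (HS K)}
    (hT : ∀ v : HS K, 𝔞 ≤ v.asIdeal → v ∈ T) (N : ℕ) (x : 𝓞 K)
    (hx : x ≠ 0) (h : ui x hx ∈ H0 hζ T) : ∃ γ : 𝓞 K, γ ^ p - x ∈ n1 𝔞 T N := by
  classical
  obtain ⟨N', hN⟩ := deep T (n1 𝔞 T N) (n1_ne ha T N) (n1_supp hT)
  have h1 : ∀ v : HS K, v ∈ T → ∃ γ : 𝓞 K, γ ^ p - x ∈ v.asIdeal ^ N' := fun v hv =>
    approx hζ (Qv_max v) (Qv_comap v) (coe_ui x hx).symm (h v hv) N'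
  obtain ⟨γ, hγ⟩ := crt T N' (fun v => if hv : v ∈ T then (h1 v hv).choose else 0)
  refine ⟨γ, hN _ fun v hv => ?_⟩
  have h2 := hγ v hv
  rw [dif_pos hv] at h2
  have h3 := (h1 v hv).choose_spec
  obtain ⟨c, hc⟩ := sub_dvd_pow_sub_pow γ (h1 v hv).choose p
  have h4 := Ideal.add_mem _ (Ideal.mul_mem_right c _ h2) h3
  rw [← hc] at h4
  rwa [sub_add_sub_cancel] at h4

/-- two integers prime to `T` whose quotient is in `H0` have the same class modulo `p`-th powers -/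
theorem same_class {𝔞 : Ideal (𝓞 K)} (ha : 𝔞 ≠ ⊥) {T : Finset (HS K)}
    (hT : ∀ v : HS K, 𝔞 ≤ v.asIdeal → v ∈ T) (N : ℕ)
    (x y : 𝓞 K) (hx : x ≠ 0) (hy : y ≠ 0) (u w : (𝓞 K ⧸ n1 𝔞 T N)ˣ)
    (hu : (u : 𝓞 K ⧸ n1 𝔞 T N) = Ideal.Quotient.mk _ x)
    (hw : (w : 𝓞 K ⧸ n1 𝔞 T N) = Ideal.Quotient.mk _ y)
    (h : (ui x hx)⁻¹ * ui y hy ∈ H0 hζ T) :
    (u⁻¹ * w) ∈ (powMonoidHom p : (𝓞 K ⧸ n1 𝔞 T N)ˣ →* (𝓞 K ⧸ n1 𝔞 T N)ˣ).range := by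
  have hp1 := Nat.sub_add_cancel hp.out.one_le
  have h1 : ui (y * x ^ (p - 1)) (mul_ne_zero hy (pow_ne_zero _ hx)) ∈ H0 hζ T := by
    have h2 : ui (y * x ^ (p - 1)) (mul_ne_zero hy (pow_ne_zero _ hx)) =
        ((ui x hx)⁻¹ * ui y hy) * (ui x hx) ^ p := by
      rw [← ui_mul _ _ hy (pow_ne_zero _ hx), ← ui_pow]
      conv_rhs => rw [← hp1, pow_succ]
      rw [mul_comm (ui x hx)⁻¹, mul_assoc, mul_comm (ui x hx ^ (p - 1)), inv_mul_cancel_left]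
    rw [h2]
    exact (H0 hζ T).mul_mem h (ppow_mem hζ T _)
  obtain ⟨γ, hγ⟩ := approx_n1 hζ ha hT N _ _ h1
  have h2 : (Ideal.Quotient.mk (n1 𝔞 T N) γ) ^ p = ((w * u ^ (p - 1) : (𝓞 K ⧸ n1 𝔞 T N)ˣ) :
      𝓞 K ⧸ n1 𝔞 T N) := by
    rw [Units.val_mul, Units.val_pow_eq_pow_val, hu, hw, ← map_pow, ← map_pow, ← map_mul,
      Ideal.Quotient.eq]
    exact hγ
  have h3 : IsUnit (Ideal.Quotient.mk (n1 𝔞 T N) γ) := by
    apply (isUnit_pow_iff hp.out.ne_zero).1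
    rw [h2]
    exact Units.isUnit _
  obtain ⟨g, hg⟩ := h3
  have h4 : g ^ p = w * u ^ (p - 1) := by
    apply Units.ext
    rw [Units.val_pow_eq_pow_val, hg, h2]
  refine ⟨g * u⁻¹, ?_⟩
  have e0 : u⁻¹ ^ p = (u ^ (p - 1))⁻¹ * u⁻¹ := by
    rw [← inv_pow, ← pow_succ, hp1]
  rw [powMonoidHom_apply, mul_pow, h4, e0]
  have e : w * u ^ (p - 1) * ((u ^ (p - 1))⁻¹ * u⁻¹) = w * (u ^ (p - 1) * (u ^ (p - 1))⁻¹) * u⁻¹ := by
    ac_rfl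
  rw [e, mul_inv_cancel, mul_one, mul_comm]

/-- the lower bound -/
theorem lower {𝔞 : Ideal (𝓞 K)} (ha : 𝔞 ≠ ⊥) (hap : (p : 𝓞 K) ∈ 𝔞) {T : Finset (HS K)}
    (hT : ∀ v : HS K, 𝔞 ≤ v.asIdeal → v ∈ T)
    (hne : T.Nonempty) (hfin : Finite (Kˣ ⧸ H0 hζ T)) :
    p ^ (2 * T.card) * Ideal.absNorm 𝔞 ≤ Nat.card (Kˣ ⧸ H0 hζ T) := by
  classical
  obtain ⟨N, hN, hN3⟩ := exists_N (p := p) ha hT
  have hfinR : Finite (𝓞 K ⧸ n1 𝔞 T N) := Ideal.finiteQuotientOfFreeOfNeBot _ (n1_ne ha T N)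
  obtain ⟨P, hP⟩ := unifs T
  obtain ⟨v0, hv0⟩ := hne
  set Rg := (powMonoidHom p : (𝓞 K ⧸ n1 𝔞 T N)ˣ →* (𝓞 K ⧸ n1 𝔞 T N)ˣ).range with hRg
  have hx : ∀ c : (𝓞 K ⧸ n1 𝔞 T N)ˣ ⧸ Rg, ∃ (x : 𝓞 K) (hx : x ≠ 0), (∀ v ∈ T, x ∉ v.asIdeal) ∧
      ∃ u : (𝓞 K ⧸ n1 𝔞 T N)ˣ, (u : 𝓞 K ⧸ n1 𝔞 T N) = Ideal.Quotient.mk _ x ∧
        QuotientGroup.mk u = c := by
    intro c
    obtain ⟨u, rfl⟩ := QuotientGroup.mk_surjective c
    obtain ⟨x, hx⟩ := Ideal.Quotient.mk_surjective (I := n1 𝔞 T N) (u : 𝓞 K ⧸ n1 𝔞 T N)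
    have h1 : ∀ v ∈ T, x ∉ v.asIdeal := by
      intro v hv hm
      obtain ⟨y, hy⟩ := Ideal.Quotient.mk_surjective (I := n1 𝔞 T N)
        ((u⁻¹ : (𝓞 K ⧸ n1 𝔞 T N)ˣ) : 𝓞 K ⧸ n1 𝔞 T N)
      have h2 : Ideal.Quotient.mk (n1 𝔞 T N) (x * y) = Ideal.Quotient.mk (n1 𝔞 T N) 1 := by
        rw [map_mul, hx, hy, map_one]
        exact u.mul_inv
      rw [Ideal.Quotient.eq] at h2
      obtain ⟨k, hk, -, -⟩ := hN3 v hv
      have h3 : n1 𝔞 T N ≤ v.asIdeal := fun w hw =>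
        Ideal.pow_le_self (by omega) (mem_m1.1 (n1_le 𝔞 T N hw) v hv)
      have h4 := v.asIdeal.sub_mem (Ideal.mul_mem_right y _ hm) (h3 h2)
      rw [sub_sub_cancel] at h4
      exact v.isPrime.ne_top ((Ideal.eq_top_iff_one _).2 h4)
    have hx0 : x ≠ 0 := by
      rintro rfl
      exact h1 v0 hv0 (Ideal.zero_mem _)
    exact ⟨x, hx0, h1, u, hx.symm, rfl⟩
  choose X hX0 hX1 U hU1 hU2 using hx
  let g : (T → ZMod p) → Kˣ := fun a =>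
    ∏ v ∈ T, P v ^ (if hv : v ∈ T then ((a ⟨v, hv⟩).val : ℤ) else 0)
  have hg : ∀ a v (hv : v ∈ T), od v (g a) = -((a ⟨v, hv⟩).val : ℤ) := by
    intro a v hv
    have h1 := od_unifs hP (fun v => if hv : v ∈ T then ((a ⟨v, hv⟩).val : ℤ) else 0) hv
    rw [dif_pos hv] at h1
    exact h1
  let ψ : (T → ZMod p) × ((𝓞 K ⧸ n1 𝔞 T N)ˣ ⧸ Rg) → Kˣ ⧸ H0 hζ T := fun ac =>
    QuotientGroup.mk (g ac.1 * ui (X ac.2) (hX0 ac.2))
  have hψ : Function.Injective ψ := by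
    rintro ⟨a, c⟩ ⟨a', c'⟩ h
    have h1 : (g a * ui (X c) (hX0 c))⁻¹ * (g a' * ui (X c') (hX0 c')) ∈ H0 hζ T :=
      QuotientGroup.eq.1 h
    have haa : a = a' := by
      funext v
      have h2 := od_dvd_H0 hζ h1 v.2
      rw [od_mul, od_inv, od_mul, od_mul, hg a v.1 v.2, hg a' v.1 v.2, od_ui_zero v.1 _ _
        (hX1 c v.1 v.2), od_ui_zero v.1 _ _ (hX1 c' v.1 v.2), add_zero, add_zero, neg_neg,
        ← sub_eq_add_neg] at h2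
      have h3 := (ZMod.intCast_zmod_eq_zero_iff_dvd _ p).2 h2
      push_cast at h3
      rw [ZMod.natCast_zmod_val, ZMod.natCast_zmod_val] at h3
      exact sub_eq_zero.1 h3
    subst haa
    have h2 : (g a * ui (X c) (hX0 c))⁻¹ * (g a * ui (X c') (hX0 c')) =
        (ui (X c) (hX0 c))⁻¹ * ui (X c') (hX0 c') := by
      rw [mul_inv, mul_comm (g a)⁻¹, mul_assoc, inv_mul_cancel_left]
    rw [h2] at h1
    have h3 := same_class hζ ha hT N (X c) (X c') (hX0 c) (hX0 c') (U c) (U c') (hU1 c) (hU1 c') h1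
    have h4 : (QuotientGroup.mk (U c) : (𝓞 K ⧸ n1 𝔞 T N)ˣ ⧸ Rg) = QuotientGroup.mk (U c') :=
      QuotientGroup.eq.2 h3
    rw [hU2, hU2] at h4
    rw [h4]
  have h1 := Nat.card_le_card_of_injective ψ hψ
  rw [Nat.card_prod, Nat.card_fun, Nat.card_zmod, Nat.card_eq_fintype_card, Fintype.card_coe] at h1
  have h2 := card_units_mod (p := p) (𝓞 K ⧸ n1 𝔞 T N)
  have h3 := card_tors hζ ha hap T hT N hN hN3
  calc p ^ (2 * T.card) * Ideal.absNorm 𝔞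
      = p ^ T.card * (Ideal.absNorm 𝔞 * p ^ T.card) := by rw [two_mul, pow_add]; ring
    _ ≤ p ^ T.card * Nat.card ((𝓞 K ⧸ n1 𝔞 T N)ˣ ⧸ Rg) := Nat.mul_le_mul_left _ (h3.trans h2)
    _ ≤ _ := h1

/-- finiteness -/
theorem fin (hmod : S_mod) {S : Finset (HS K)} (hne : S.Nonempty) :
    Finite (Kˣ ⧸ H0 hζ S) := by
  classical
  obtain ⟨𝔪, hm0, hmS, hm1⟩ := hmod K p ζ hζ S
  have hfinR : Finite (𝓞 K ⧸ 𝔪) := Ideal.finiteQuotientOfFreeOfNeBot _ hm0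
  obtain ⟨P, hP⟩ := unifs S
  -- two integers prime to `S` which are congruent have the same class
  have key : ∀ (x y : 𝓞 K) (hx : x ≠ 0) (hy : y ≠ 0), (∀ v ∈ S, y ∉ v.asIdeal) → x - y ∈ 𝔪 →
      (ui x hx)⁻¹ * ui y hy ∈ H0 hζ S := by
    intro x y hx hy hyS hxy
    have h1 : Ideal.span {y} ⊔ 𝔪 = ⊤ := by
      by_contra hcon
      obtain ⟨M, hM, hle⟩ := Ideal.exists_le_maximal _ hcon
      have hM0 : M ≠ ⊥ := by
        rintro rfl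
        exact hm0 (le_bot_iff.1 (le_sup_right.trans hle))
      have hv := hmS ⟨M, hM.isPrime, hM0⟩ (le_sup_right.trans hle)
      exact hyS _ hv ((le_sup_left.trans hle) (Ideal.mem_span_singleton_self y))
    have h2 : (1 : 𝓞 K) ∈ Ideal.span {y} ⊔ 𝔪 := by rw [h1]; exact Submodule.mem_top
    obtain ⟨a, ha, b, hb, hab⟩ := Submodule.mem_sup.1 h2
    obtain ⟨c, rfl⟩ := Ideal.mem_span_singleton.1 ha
    by_cases hc : c = 0
    · -- then the modulus is trivial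
      have h3 : (1 : 𝓞 K) ∈ 𝔪 := by
        rw [← hab, hc, mul_zero, zero_add]
        exact hb
      have h4 : ∀ z : 𝓞 K, z ∈ 𝔪 := fun z => by
        rw [(Ideal.eq_top_iff_one _).2 h3]
        exact Submodule.mem_top
      exact (H0 hζ S).mul_mem ((H0 hζ S).inv_mem (hm1 x hx (h4 _))) (hm1 y hy (h4 _))
    · have h3 : y * c - 1 ∈ 𝔪 := by
        have : y * c - 1 = -b := by rw [← hab]; ring
        rw [this]
        exact neg_mem hb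
      have h4 : x * c - 1 ∈ 𝔪 := by
        have h5 := 𝔪.add_mem (Ideal.mul_mem_right c _ hxy) h3
        rwa [show (x - y) * c + (y * c - 1) = x * c - 1 by ring] at h5
      have h5 := (H0 hζ S).mul_mem ((H0 hζ S).inv_mem (hm1 (x * c) (mul_ne_zero hx hc) h4))
        (hm1 (y * c) (mul_ne_zero hy hc) h3)
      rw [← ui_mul x c hx hc, ← ui_mul y c hy hc, mul_inv, mul_comm (ui x hx)⁻¹,
        mul_comm (ui y hy), mul_assoc, mul_comm (ui x hx)⁻¹, mul_assoc, inv_mul_cancel_left,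
        mul_comm (ui y hy)] at h5
      exact h5
  let R : 𝓞 K ⧸ 𝔪 → Kˣ := fun c =>
    if h : ∃ (x : 𝓞 K) (_ : x ≠ 0), (∀ v ∈ S, x ∉ v.asIdeal) ∧ Ideal.Quotient.mk 𝔪 x = c then
      ui h.choose h.choose_spec.choose else 1
  let ψ : (S → ZMod p) × (𝓞 K ⧸ 𝔪) → Kˣ ⧸ H0 hζ S := fun ac =>
    QuotientGroup.mk ((∏ v ∈ S, P v ^ (if hv : v ∈ S then ((ac.1 ⟨v, hv⟩).val : ℤ) else 0)) *
      R ac.2)
  refine Finite.of_surjective ψ ?_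
  intro q
  obtain ⟨κ, rfl⟩ := QuotientGroup.mk_surjective q
  obtain ⟨a, x, hx, s, hxS, he⟩ := normal_form (p := p) hne hP κ
  refine ⟨(fun v => a v.1, Ideal.Quotient.mk 𝔪 x), ?_⟩
  have hex : ∃ (y : 𝓞 K) (_ : y ≠ 0), (∀ v ∈ S, y ∉ v.asIdeal) ∧
      Ideal.Quotient.mk 𝔪 y = Ideal.Quotient.mk 𝔪 x := ⟨x, hx, hxS, rfl⟩
  have hR : R (Ideal.Quotient.mk 𝔪 x) = ui hex.choose hex.choose_spec.choose := dif_pos hex
  change (QuotientGroup.mk ((∏ v ∈ S, P v ^ (if hv : v ∈ S then ((a v).val : ℤ) else 0)) *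
      R (Ideal.Quotient.mk 𝔪 x)) : Kˣ ⧸ H0 hζ S) = QuotientGroup.mk κ
  have hprod : (∏ v ∈ S, P v ^ (if hv : v ∈ S then ((a v).val : ℤ) else 0)) =
      ∏ v ∈ S, P v ^ ((a v).val : ℤ) := Finset.prod_congr rfl fun v hv => by rw [dif_pos hv]
  rw [hprod, hR]
  apply QuotientGroup.eq.2
  have hy := hex.choose_spec.choose_spec
  have h1 := key hex.choose x hex.choose_spec.choose hx hxS (Ideal.Quotient.eq.1 hy.2)
  have h2 := (H0 hζ S).mul_mem h1 (ppow_mem hζ S s)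
  have e : ((∏ v ∈ S, P v ^ ((a v).val : ℤ)) * ui hex.choose hex.choose_spec.choose)⁻¹ * κ =
      (ui hex.choose hex.choose_spec.choose)⁻¹ * ui x hx * s ^ p := by
    conv_lhs => rw [he]
    rw [mul_inv]
    have e1 : ∀ A B C D : Kˣ, A⁻¹ * B⁻¹ * (A * C * D) = A⁻¹ * A * (B⁻¹ * C * D) := by
      intro A B C D
      ac_rfl
    rw [e1, inv_mul_cancel, one_mul]
  rw [e]
  exact h2

end Pool.Agent.NH7.BK.LocP

namespace Pool.Agent.NH7.BK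

open NumberField IsDedekindDomain Pool.Agent.W401.Cheb Pool.Agent.NH7.Sch
open Pool.Agent.NH7.GU (HS Qv H0 mem_H0)

theorem s_loc (hmod : S_mod) : S_loc := by
  intro K _ _ p hp ζ hζ T 𝔞 hdvd hT
  have hap : (p : 𝓞 K) ∈ 𝔞 := (Ideal.dvd_iff_le.1 hdvd) (Ideal.mem_span_singleton_self _)
  have ha : 𝔞 ≠ ⊥ := by
    rintro rfl
    exact Pool.Agent.NH7.GU.LocP.p_ne (K := K) (p := p) ((Submodule.mem_bot _).1 hap)
  rcases T.eq_empty_or_nonempty with rfl | hne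
  · have h1 : H0 hζ (∅ : Finset (HS K)) = ⊤ := by
      rw [eq_top_iff]
      intro κ _
      rw [mem_H0]
      intro v hv
      exact absurd hv (Finset.notMem_empty v)
    have h2 : 𝔞 = ⊤ := by
      by_contra hcon
      obtain ⟨M, hM, hle⟩ := Ideal.exists_le_maximal _ hcon
      have hM0 : M ≠ ⊥ := by
        rintro rfl
        exact ha (le_bot_iff.1 hle)
      exact Finset.notMem_empty _ (hT ⟨M, hM.isPrime, hM0⟩ hle)
    have h3 : Subsingleton (Kˣ ⧸ H0 hζ (∅ : Finset (HS K))) :=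
      QuotientGroup.subsingleton_iff.2 h1
    refine ⟨inferInstance, ?_⟩
    rw [h2, Ideal.absNorm_top, Finset.card_empty, mul_zero, pow_zero, mul_one]
    exact Nat.one_le_iff_ne_zero.2 (Nat.card_pos (α := Kˣ ⧸ H0 hζ (∅ : Finset (HS K)))).ne'
  · have hfin := LocP.fin hζ hmod hne
    exact ⟨hfin, LocP.lower hζ ha hap hT hne hfin⟩

end Pool.Agent.NH7.BK
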